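import Mathlib
import Pool.Agent.Helper3.Powers
import Pool.Agent.Helper11.SP.Defs

/-!
Powers of Salem numbers of degree 6: definitions.

`Phi g t` is the parameter (middle coefficients of `∏ (X² - 2 cos (2 π t_i) X + 1)`) of a point `t` of the torus; `dens` is the density
of the image of the Haar measure of the torus under `Phi 2` on `Om 2` (`x = (a, b)`, `X⁴ + a X³ + b X² + a X + 1`).
-/

open MeasureTheory

namespace Pool.Agent.Helper48.SPow

open Pool.Agent.Helper11.SP

/-- The parameter of a point of the torus. -/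
noncomputable def Phi (g : ℕ) (t : UnitAddTorus (Fin g)) : Fin g → ℝ :=
  ee (fun i => 2 * (fourier 1 (t i) : ℂ).re)

/-- Density of the image of the Haar measure under `Phi 2`. -/
noncomputable def dens (x : Fin 2 → ℝ) : ℝ :=
  2 / (Real.pi ^ 2 * √((x 1 + 2 - 2 * x 0) * (x 1 + 2 + 2 * x 0) * (x 0 ^ 2 - 4 * x 1 + 8)))

end Pool.Agent.Helper48.SPow
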