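import Mathlib
import Pool.Agent.Helper3.Weyl

/-!
Weyl equidistribution, uniformly in the starting point.
-/

open MeasureTheory Filter Topology UnitAddTorus

namespace Pool.Agent.Helper48.SPow

open Pool.Agent.Helper3

variable {I : Type} [Fintype I]

instance haarT_inv : (haarT I).IsAddLeftInvariant := by
  unfold haarT
  infer_instance

/-- Translate of a function. -/
noncomputable def shf (F : C(UnitAddTorus I, ℂ)) (y : UnitAddTorus I) : C(UnitAddTorus I, ℂ) :=
  ⟨fun t => F (y + t), by fun_prop⟩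

lemma shf_cont (F : C(UnitAddTorus I, ℂ)) : Continuous (shf F) := by
  apply ContinuousMap.continuous_of_continuous_uncurry
  show Continuous fun p : UnitAddTorus I × UnitAddTorus I => F (p.1 + p.2)
  fun_prop

lemma avg_sub (x : UnitAddTorus I) (N : ℕ) (F G : C(UnitAddTorus I, ℂ)) : avg x N (F - G) = avg x N F - avg x N G := by
  unfold avg
  simp only [ContinuousMap.sub_apply, Finset.sum_sub_distrib]
  ring

lemma int_shf (F : C(UnitAddTorus I, ℂ)) (y : UnitAddTorus I) :
    ∫ t, shf F y t ∂(haarT I) = ∫ t, F t ∂(haarT I) :=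
  integral_add_left_eq_self (μ := haarT I) (fun t => F t) y

theorem weyl_unif (x : UnitAddTorus I) (hx : ∀ n : I → ℤ, n ≠ 0 → mFourier n x ≠ 1) (F : C(UnitAddTorus I, ℂ))
    (ε : ℝ) (hε : 0 < ε) :
    ∃ N0 : ℕ, ∀ N, N0 ≤ N → ∀ y, ‖avg x N (shf F y) - ∫ t, F t ∂(haarT I)‖ < ε := by
  have hloc : ∀ y : UnitAddTorus I, ∃ N0 : ℕ, ∀ N, N0 ≤ N → ‖avg x N (shf F y) - ∫ t, F t ∂(haarT I)‖ < ε / 2 := by
    intro y
    have h := weyl x hx (shf F y)
    rw [int_shf] at h
    obtain ⟨N0, hN0⟩ := Metric.tendsto_atTop.1 h (ε / 2) (by positivity)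
    exact ⟨N0, fun N hN => by rw [← dist_eq_norm]; exact hN0 N hN⟩
  choose N0 hN0 using hloc
  have hcov := isCompact_univ.elim_nhds_subcover (X := UnitAddTorus I) (fun y => (shf F) ⁻¹' Metric.ball (shf F y) (ε / 2))
    (fun y _ => (shf_cont F).continuousAt.preimage_mem_nhds (Metric.ball_mem_nhds _ (by positivity)))
  obtain ⟨s, -, hs⟩ := hcov
  refine ⟨s.sup N0, fun N hN y => ?_⟩
  obtain ⟨z, hz, hyz⟩ := Set.mem_iUnion₂.1 (hs (Set.mem_univ y))
  have h1 := hN0 z N ((Finset.le_sup hz).trans hN)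
  have h2 : ‖shf F y - shf F z‖ < ε / 2 := by
    rw [← dist_eq_norm]
    exact hyz
  have h3 := (avg_norm_le x N (shf F y - shf F z)).trans_lt h2
  rw [avg_sub] at h3
  calc ‖avg x N (shf F y) - ∫ t, F t ∂(haarT I)‖
      = ‖(avg x N (shf F y) - avg x N (shf F z)) + (avg x N (shf F z) - ∫ t, F t ∂(haarT I))‖ := by
        congr 1
        ring
    _ ≤ _ := norm_add_le _ _
    _ < ε / 2 + ε / 2 := add_lt_add h3 h1
    _ = ε := by ring

open Classical in
/-- Counting version: for a compact `K` in an open `S`, every long block of `k` has at least the proportion `c < μ K` of `k • x ∈ K'`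
for some compact `K' ⊆ S` (independent of the block). -/
theorem count_open (S : Set (UnitAddTorus I)) (hS : IsOpen S) (c : ℝ) (hc : c < ((haarT I) S).toReal) :
    ∃ K' : Set (UnitAddTorus I), IsCompact K' ∧ K' ⊆ S ∧ ∀ x : UnitAddTorus I, (∀ n : I → ℤ, n ≠ 0 → mFourier n x ≠ 1) →
      ∃ N0 : ℕ, ∀ N, N0 ≤ N → ∀ M : ℕ, c * N ≤ (((Finset.Ioc M (M + N)).filter (fun k : ℕ => k • x ∈ K')).card : ℝ) := by
  rcases lt_or_ge c 0 with hc0 | hc0
  · refine ⟨∅, isCompact_empty, Set.empty_subset _, fun x _ => ⟨0, fun N _ M => ?_⟩⟩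
    have : c * N ≤ 0 := mul_nonpos_of_nonpos_of_nonneg hc0.le (Nat.cast_nonneg _)
    exact this.trans (Nat.cast_nonneg _)
  have hc' : ENNReal.ofReal c < haarT I S := by
    rw [ENNReal.ofReal_lt_iff_lt_toReal hc0 (measure_ne_top _ _)]
    exact hc
  obtain ⟨K1, hK1S, hK1, hcK1⟩ := hS.exists_lt_isCompact hc'
  obtain ⟨V, hV, hK1V, hVS, hVc⟩ := exists_open_between_and_isCompact_closure hK1 hS hK1S
  refine ⟨closure V, hVc, hVS, fun x hx => ?_⟩
  obtain ⟨f, hf0, hf1, hf⟩ := exists_continuous_zero_one_of_isClosed (isClosed_compl_iff.2 hV) hK1.isClosed (by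
    rw [Set.disjoint_left]
    intro t ht ht2
    exact ht (hK1V ht2))
  let F : C(UnitAddTorus I, ℂ) := ⟨fun t => (f t : ℂ), by fun_prop⟩
  have hint : Integrable (fun t => f t) (haarT I) := by
    refine Integrable.mono' (integrable_const (1:ℝ)) f.continuous.aestronglyMeasurable ?_
    refine Eventually.of_forall (fun t => ?_)
    rw [Real.norm_eq_abs, abs_of_nonneg (hf t).1]; exact (hf t).2
  have hKint : ((haarT I) K1).toReal ≤ ∫ t, f t ∂(haarT I) := by
    have h1 : ∫ t, K1.indicator (fun _ => (1 : ℝ)) t ∂(haarT I) = ((haarT I) K1).toReal := by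
      rw [integral_indicator_const _ hK1.isClosed.measurableSet]
      simp [Measure.real]
    rw [← h1]
    apply integral_mono
    · exact (integrable_const (1 : ℝ)).indicator hK1.isClosed.measurableSet
    · exact hint
    · intro t
      by_cases ht : t ∈ K1
      · rw [Set.indicator_of_mem ht]
        exact (hf1 ht).ge
      · rw [Set.indicator_of_notMem ht]
        exact (hf t).1
  have hck : c < ((haarT I) K1).toReal := by
    rwa [ENNReal.ofReal_lt_iff_lt_toReal hc0 (measure_ne_top _ _)] at hcK1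
  have hε : 0 < (∫ t, f t ∂(haarT I)) - c := by linarith
  obtain ⟨N0, hN0⟩ := weyl_unif x hx F _ hε
  refine ⟨N0, fun N hN M => ?_⟩
  have h := hN0 N hN ((M + 1) • x)
  have hFint : ∫ t, F t ∂(haarT I) = ((∫ t, f t ∂(haarT I) : ℝ) : ℂ) := by
    show ∫ t, ((f t : ℝ) : ℂ) ∂(haarT I) = _
    exact integral_ofReal
  have e1 : avg x N (shf F ((M + 1) • x)) = (((N : ℝ)⁻¹ * ∑ k ∈ Finset.Ioc M (M + N), f (k • x) : ℝ) : ℂ) := by
    unfold avg
    have : ∑ k ∈ Finset.range N, (shf F ((M + 1) • x)) (k • x) = ((∑ k ∈ Finset.Ioc M (M + N), f (k • x) : ℝ) : ℂ) := by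
      have e2 : ∑ k ∈ Finset.Ioc M (M + N), f (k • x) = ∑ k ∈ Finset.range N, f ((M + 1) • x + k • x) := by
        have e3 : Finset.Ioc M (M + N) = Finset.Ico (M + 1) (M + 1 + N) := by
          ext k
          simp only [Finset.mem_Ioc, Finset.mem_Ico]
          omega
        rw [e3, Finset.sum_Ico_eq_sum_range]
        have : M + 1 + N - (M + 1) = N := by omega
        rw [this]
        refine Finset.sum_congr rfl fun k _ => ?_
        rw [add_nsmul]
      rw [e2]
      push_cast
      rfl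
    rw [this]
    push_cast
    ring
  rw [e1, hFint, ← Complex.ofReal_sub, Complex.norm_real, Real.norm_eq_abs] at h
  have h2 := (abs_lt.1 h).1
  have h3 : c < (N : ℝ)⁻¹ * ∑ k ∈ Finset.Ioc M (M + N), f (k • x) := by linarith
  have hsum : ∑ k ∈ Finset.Ioc M (M + N), f (k • x) ≤
      (((Finset.Ioc M (M + N)).filter (fun k : ℕ => k • x ∈ closure V)).card : ℝ) := by
    rw [Finset.card_filter]
    push_cast
    apply Finset.sum_le_sum
    intro k _
    by_cases hk : k • x ∈ closure V
    · rw [if_pos hk]; exact (hf _).2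
    · rw [if_neg hk]
      have := hf0 (show k • x ∈ Vᶜ from fun h => hk (subset_closure h))
      simp at this
      rw [this]
  refine le_trans ?_ hsum
  rcases Nat.eq_zero_or_pos N with hN | hN
  · subst hN
    simp
  · have hNr : (0:ℝ) < N := by exact_mod_cast hN
    have := mul_lt_mul_of_pos_right h3 hNr
    calc c * N ≤ (N:ℝ)⁻¹ * (∑ k ∈ Finset.Ioc M (M + N), f (k • x)) * N := this.le
      _ = _ := by field_simp

end Pool.Agent.Helper48.SPow
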