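import Mathlib
import Pool.Agent.Helper48.SPow.Defs
import Pool.Agent.Helper48.SPow.Weyl
import Pool.Agent.Helper11.SP.Struct
import Pool.Agent.Helper11.SP.Dyn
import Pool.Agent.Helper11.SP.Pert

/-!
Density of the exponents `k` with `β ^ k` a Parry number.
-/

open MeasureTheory Polynomial

namespace Pool.Agent.Helper48.SPow

open Pool.Agent.Helper11.SP

lemma Phi_cont (g : ℕ) : Continuous (Phi g) := by
  unfold Phi
  refine ee_continuous.comp (continuous_pi fun i => ?_)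
  exact continuous_const.mul (Complex.continuous_re.comp ((fourier 1).continuous.comp (continuous_apply i)))

/-- `β` has a finite orbit of `1` (so it is a Parry number). -/
def FinOrb (β : ℝ) : Prop := ∃ n, (Helper3.T β)^[n + 2] 1 = (Helper3.T β)^[1] 1

/-- Uniform perturbation on compact sets of parameters. -/
lemma pert_unif {g : ℕ} (hg : 1 ≤ g) (K : Set (Fin g → ℝ)) (hK : IsCompact K) (hKR : K ⊆ Reg g) :
    ∃ B : ℝ, ∀ x ∈ K, ∃ n : ℤ[X], n.Monic ∧ n.coeff 0 = 1 ∧ ∀ β, B < β → ∀ i, 1 ≤ i → i ≤ n.natDegree + 2 * g →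
      0 ≤ Fc x n i - Fc x n (i - 1) / β ∧ Fc x n i - Fc x n (i - 1) / β < 1 := by
  have hloc : ∀ x0 ∈ K, ∃ δ > 0, ∃ B : ℝ, ∃ n : ℤ[X], n.Monic ∧ n.coeff 0 = 1 ∧ ∀ x, dist x x0 < δ → ∀ β, B < β →
      ∀ i, 1 ≤ i → i ≤ n.natDegree + 2 * g → 0 ≤ Fc x n i - Fc x n (i - 1) / β ∧ Fc x n i - Fc x n (i - 1) / β < 1 := by
    intro x0 hx0
    obtain ⟨-, n, hn⟩ := hKR hx0
    obtain ⟨δ, hδ, B, -, h⟩ := pert hg x0 n hn
    exact ⟨δ, hδ, B, n, hn.1, hn.2.1, h⟩
  choose! δ hδ B n hn1 hn2 hloc using hloc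
  obtain ⟨t, htK, hcov⟩ := hK.elim_nhds_subcover (fun x0 => Metric.ball x0 (δ x0))
    (fun x hx => Metric.ball_mem_nhds x (hδ x hx))
  rcases t.eq_empty_or_nonempty with he | hne
  · refine ⟨0, fun x hx => ?_⟩
    exfalso
    have := hcov hx
    simp [he] at this
  obtain ⟨i1, hi1, hmax⟩ := t.exists_max_image B hne
  refine ⟨B i1, fun x hx => ?_⟩
  obtain ⟨i, hi, hxi⟩ := Set.mem_iUnion₂.1 (hcov hx)
  refine ⟨n i, hn1 i (htK i hi), hn2 i (htK i hi), fun β hβ => ?_⟩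
  exact hloc i (htK i hi) x (Metric.mem_ball.1 hxi) β (lt_of_le_of_lt (hmax i hi) hβ)

lemma Rpoly_eq {g : ℕ} (hg : 1 ≤ g) (t : UnitAddTorus (Fin g)) : Helper3.Rpoly g t = HC 1 (Phi g t) := by
  unfold Phi
  rw [← ee_prod hg]
  rfl

open Classical in
theorem powers_density {g : ℕ} (hg : 1 ≤ g) (U : Set (Fin g → ℝ)) (hU : IsOpen U) (hUR : U ⊆ Reg g) (c : ℝ)
    (hc : c < ((Helper3.haarT (Fin g)) (Phi g ⁻¹' U)).toReal) (β : ℝ) (hβ : Helper3.IsSalem β)
    (hd : (minpoly ℤ β).natDegree = 2 * g + 2) :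
    ∃ N0 : ℕ, ∀ N, N0 ≤ N → ∀ M : ℕ, c * N ≤ (((Finset.Ioc M (M + N)).filter (fun k : ℕ => FinOrb (β ^ k))).card : ℝ) := by
  have hM : (Helper3.upper β).card = g := by
    have h1 := Helper3.natDegree_eq hβ
    rw [hd] at h1
    omega
  obtain ⟨c', hcc', hc'⟩ := exists_between hc
  obtain ⟨K', hK', hK'S, hcount⟩ := count_open (Phi g ⁻¹' U) (hU.preimage (Phi_cont g)) c' hc'
  obtain ⟨N1, hN1⟩ := hcount (Helper3.pt β g hM) (Helper3.pt_indep hβ g hM)
  obtain ⟨B, hB⟩ := pert_unif hg (Phi g '' K') (hK'.image (Phi_cont g)) (by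
    rintro _ ⟨t, ht, rfl⟩
    exact hUR (hK'S ht))
  -- exponents with `β ^ k > B`
  have hβ1 := hβ.1
  obtain ⟨k0, hk0⟩ := pow_unbounded_of_one_lt B hβ1
  have hgood : ∀ k : ℕ, max k0 1 ≤ k → k • (Helper3.pt β g hM) ∈ K' → FinOrb (β ^ k) := by
    intro k hk hkK
    have hk1 : 1 ≤ k := (le_max_right _ _).trans hk
    have hkB : B < β ^ k := hk0.trans_le (pow_le_pow_right₀ hβ1.le ((le_max_left _ _).trans hk))
    have hβk : 1 < β ^ k := one_lt_pow₀ hβ1 (by omega)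
    obtain ⟨n, hn1, hn2, hn⟩ := hB (Phi g (k • (Helper3.pt β g hM))) ⟨_, hkK, rfl⟩
    have hP := Helper3.minpoly_pow_real hβ g hM hk1
    rw [Rpoly_eq hg, ← mul_assoc] at hP
    have hs : (X - C (β ^ k)) * (X - C (1 / β ^ k)) = (X ^ 2 - C (β ^ k + 1 / β ^ k) * X + 1 : ℝ[X]) := by
      have h1 : C (β ^ k) * C (1 / β ^ k) = (1 : ℝ[X]) := by
        rw [← C_mul, mul_one_div_cancel (by positivity), C_1]
      rw [C_add]
      linear_combination h1
    rw [hs] at hP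
    refine ⟨n.natDegree + 2 * g, ?_⟩
    refine dyn (β ^ k) _ hβk rfl (minpoly ℤ (β ^ k)) n _ hP (n.natDegree + 2 * g) (by omega) ?_ ?_ ?_ ?_
    · have h1 := Fc_zero (Phi g (k • (Helper3.pt β g hM))) n
      unfold Fc at h1
      rw [h1, hn2]
      norm_num
    · exact Fc_top hg _ n hn1
    · exact Fc_above hg _ n hn1
    · exact hn (β ^ k) hkB
  -- counting
  obtain ⟨N2, hN2⟩ := exists_nat_ge ((max k0 1 : ℕ) / (c' - c))
  refine ⟨max N1 N2, fun N hN M => ?_⟩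
  have h1 := hN1 N ((le_max_left _ _).trans hN) M
  have hsub : ((Finset.Ioc M (M + N)).filter (fun k : ℕ => k • (Helper3.pt β g hM) ∈ K')) ⊆
      ((Finset.Ioc M (M + N)).filter (fun k : ℕ => FinOrb (β ^ k))) ∪ Finset.range (max k0 1) := by
    intro k hk
    rw [Finset.mem_filter] at hk
    rw [Finset.mem_union, Finset.mem_filter, Finset.mem_range]
    rcases lt_or_ge k (max k0 1) with h | h
    · exact Or.inr h
    · exact Or.inl ⟨hk.1, hgood k h hk.2⟩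
  have hcard : (((Finset.Ioc M (M + N)).filter (fun k : ℕ => k • (Helper3.pt β g hM) ∈ K')).card : ℝ) ≤
      (((Finset.Ioc M (M + N)).filter (fun k : ℕ => FinOrb (β ^ k))).card : ℝ) + (max k0 1 : ℕ) := by
    have := (Finset.card_le_card hsub).trans (Finset.card_union_le _ _)
    rw [Finset.card_range] at this
    exact_mod_cast this
  have h2 : ((max k0 1 : ℕ) : ℝ) ≤ (c' - c) * N := by
    have hpos : 0 < c' - c := by linarith
    have h3 : ((max k0 1 : ℕ) : ℝ) / (c' - c) ≤ N := hN2.trans (by exact_mod_cast (le_max_right _ _).trans hN)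
    rw [div_le_iff₀ hpos] at h3
    linarith
  nlinarith

end Pool.Agent.Helper48.SPow
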