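import Mathlib
import Pool.Agent.Helper48.SPow.DensQ
import Pool.Agent.Helper64.SPW.Eight

/-!
A bound for the period by continuity of the measure; degree 8.
-/

open MeasureTheory Polynomial

namespace Pool.Agent.Helper48.SPow

open Pool.Agent.Helper11.SP

lemma RegQ_open {g : ℕ} (hg : 1 ≤ g) (Q : ℕ → Prop) : IsOpen (RegQ g Q) := by
  have h : RegQ g Q = ⋃ n : ℤ[X], ⋃ _ : Q (n.natDegree + 2 * g), {x : Fin g → ℝ | Code x n} := by
    ext x
    simp only [RegQ, Set.mem_iUnion, exists_prop]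
    rfl
  rw [h]
  exact isOpen_iUnion fun n => isOpen_iUnion fun _ => code_open hg n

theorem exists_bound {g : ℕ} (c : ℝ)
    (hc : ENNReal.ofReal c < Helper3.haarT (Fin g) (Phi g ⁻¹' (RegQ g (fun _ => True)))) :
    ∃ B : ℕ, ENNReal.ofReal c < Helper3.haarT (Fin g) (Phi g ⁻¹' (RegQ g (fun n => n ≤ B))) := by
  have hmono : Monotone (fun B : ℕ => Phi g ⁻¹' (RegQ g (fun n => n ≤ B))) := by
    rintro B B' hB x ⟨n, hn, hx⟩
    exact ⟨n, le_trans hn hB, hx⟩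
  have hU : (⋃ B : ℕ, Phi g ⁻¹' (RegQ g (fun n => n ≤ B))) = Phi g ⁻¹' (RegQ g (fun _ => True)) := by
    ext x
    rw [Set.mem_iUnion]
    constructor
    · rintro ⟨B, n, -, hx⟩
      exact ⟨n, trivial, hx⟩
    · rintro ⟨n, -, hx⟩
      exact ⟨n.natDegree + 2 * g, n, le_rfl, hx⟩
  have ht := tendsto_measure_iUnion_atTop (μ := Helper3.haarT (Fin g)) hmono
  rw [hU] at ht
  obtain ⟨B, hB⟩ := (ht.eventually (lt_mem_nhds hc)).exists
  exact ⟨B, hB⟩

open Classical in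
/-- Degree 8: one fifth of the powers, with a bound for the period. -/
theorem eight_densityQ : ∃ B : ℕ, ∀ β : ℝ, Helper3.IsSalem β → (minpoly ℤ β).natDegree = 8 →
    ∃ N0 : ℕ, ∀ N, N0 ≤ N → ∀ M : ℕ,
      (1 / 5 : ℝ) * N ≤ (((Finset.Ioc M (M + N)).filter (fun k : ℕ => FinOrbQ (fun n => n ≤ B) (β ^ k))).card : ℝ) := by
  have h1 : ENNReal.ofReal (1 / 5) < Helper3.haarT (Fin 3) (Phi 3 ⁻¹' (RegQ 3 (fun _ => True))) := by
    refine lt_of_lt_of_le Helper64.SPW.haar_fifth (measure_mono ?_)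
    intro x hx
    obtain ⟨-, n, hn⟩ := hx
    exact ⟨n, trivial, hn⟩
  obtain ⟨B, hB⟩ := exists_bound (1 / 5) h1
  refine ⟨B, fun β hβ hd => ?_⟩
  refine powers_densityQ (g := 3) (by norm_num) (fun n => n ≤ B) _ (RegQ_open (by norm_num) _) (fun x hx => hx) (1 / 5) ?_ β hβ hd
  rwa [ENNReal.ofReal_lt_iff_lt_toReal (by norm_num) (measure_ne_top _ _)] at hB

end Pool.Agent.Helper48.SPow
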