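import Mathlib
import Pool.Agent.Helper48.SPow.DensQ
import Pool.Agent.Helper11.SP.List2
import Pool.Agent.Helper11.SP.D2.Total

/-!
The codes of the degree 6 certificate have at most 976 steps.
-/

open MeasureTheory Polynomial

namespace Pool.Agent.Helper48.SPow

open Pool.Agent.Helper11.SP

/-- All cells have at most `B` steps. -/
noncomputable def lenOK (B : ℕ) (l : List C2) : Bool :=
  List.rec (motive := fun _ => Bool) true (fun c _ ih => and (Nat.ble c.L B) ih) l

lemma lenOK_cons (B : ℕ) (c : C2) (cs : List C2) : lenOK B (c :: cs) = and (Nat.ble c.L B) (lenOK B cs) := rfl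

lemma lenOK_append (B : ℕ) (a b : List C2) : lenOK B (a ++ b) = and (lenOK B a) (lenOK B b) := by
  induction a with
  | nil => rfl
  | cons c a ih => rw [List.cons_append, lenOK_cons, lenOK_cons, ih, Bool.and_assoc]

lemma chk_cons' (prev : List ℕ) (c : C2) (cs : List C2) :
    chk2 prev (c :: cs) = Bool.rec (motive := fun _ => Option (List ℕ)) none
      (Option.rec (motive := fun _ => Option (List ℕ)) none (fun code =>
        Bool.rec (motive := fun _ => Option (List ℕ)) none (chk2 code cs) (ltc prev code)) (code2 c)) (geo2 c) := rfl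

lemma chk_some' (prev last : List ℕ) (c : C2) (cs : List C2) (h : chk2 prev (c :: cs) = some last) :
    geo2 c = true ∧ ∃ code, code2 c = some code ∧ ltc prev code = true ∧ chk2 code cs = some last := by
  rw [chk_cons'] at h
  cases hg : geo2 c with
  | false => rw [hg] at h; cases h
  | true =>
    rw [hg] at h
    cases hc : code2 c with
    | none => rw [hc] at h; cases h
    | some code =>
      rw [hc] at h
      cases hl : ltc prev code with
      | false => simp only [hl] at h; cases h
      | true =>
        simp only [hl] at h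
        exact ⟨rfl, code, rfl, hl, h⟩

lemma code_len (c : C2) (hg : geo2 c = true) (code : List ℕ) (hc : code2 c = some code) : code.length = c.L + 1 := by
  have hsD : 1 ≤ c.sD := by
    have e : geo2 c = and (and (Nat.ble 1 c.sD) (and (Nat.ble 1 c.p) (Nat.ble (Nat.succ c.p) (Nat.mul 4 c.q))))
      (and (vert2 c.p c.q c.all) (fan2 c.X c.Y c.D c.vs)) := rfl
    rw [e, Bool.and_eq_true, Bool.and_eq_true] at hg
    exact Nat.le_of_ble_eq_true hg.1.1
  have e : code2 c = Option.rec (motive := fun _ => Option (List ℕ)) none (fun acc => some acc.reverse)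
      (run2 c.sX c.sY c.sD (256 * c.sX + 128 * c.sY) c.all c.L 129 128 128 128 [129]) := rfl
  rw [e] at hc
  cases hr : run2 c.sX c.sY c.sD (256 * c.sX + 128 * c.sY) c.all c.L 129 128 128 128 [129] with
  | none =>
    rw [hr] at hc
    simp at hc
  | some acc =>
    rw [hr] at hc
    have h1 : acc.reverse = code := by simpa using hc
    rw [← h1]
    exact (run2_sound _ _ _ _ hsD _ _ _ hr).1

theorem list_bound (B : ℕ) (prev last : List ℕ) (cs : List C2) (h : chk2 prev cs = some last) (hB : lenOK B cs = true) :
    reg2 cs ⊆ RegQ 2 (fun n => n ≤ B) := by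
  induction cs generalizing prev with
  | nil =>
    rintro x ⟨c, hc, -⟩
    simp at hc
  | cons c cs ih =>
    obtain ⟨hg, code, hc, -, hr⟩ := chk_some' prev last c cs h
    rw [lenOK_cons, Bool.and_eq_true] at hB
    rintro x ⟨c', hc', hx⟩
    rcases List.mem_cons.1 hc' with rfl | hc'
    · obtain ⟨-, h2⟩ := cell2_sound c' hg code hc x hx
      refine ⟨pol code, ?_, h2.1⟩
      have h3 := h2.2
      have h4 := code_len c' hg code hc
      have h5 := Nat.le_of_ble_eq_true hB.1
      show (pol code).natDegree + 2 * 2 ≤ B
      omega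
    · exact ih code hr hB.2 ⟨c', hc', hx⟩

lemma b1 : lenOK 976 D2.c1 = true := by decide +kernel
lemma b2 : lenOK 976 D2.c2 = true := by decide +kernel
lemma b3 : lenOK 976 D2.c3 = true := by decide +kernel
lemma b4 : lenOK 976 D2.c4 = true := by decide +kernel
lemma b5 : lenOK 976 D2.c5 = true := by decide +kernel
lemma b6 : lenOK 976 D2.c6 = true := by decide +kernel
lemma b7 : lenOK 976 D2.c7 = true := by decide +kernel
lemma b8 : lenOK 976 D2.c8 = true := by decide +kernel
lemma b9 : lenOK 976 D2.c9 = true := by decide +kernel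
lemma b10 : lenOK 976 D2.c10 = true := by decide +kernel
lemma b11 : lenOK 976 D2.c11 = true := by decide +kernel
lemma b12 : lenOK 976 D2.c12 = true := by decide +kernel

theorem bound_all : reg2 D2.all ⊆ RegQ 2 (fun n => n ≤ 976) := by
  refine list_bound 976 _ _ _ D2.chk_all ?_
  unfold D2.all
  rw [lenOK_append, lenOK_append, lenOK_append, lenOK_append, lenOK_append, lenOK_append, lenOK_append, lenOK_append,
    lenOK_append, lenOK_append, lenOK_append, b1, b2, b3, b4, b5, b6, b7, b8, b9, b10, b11, b12]
  rfl

end Pool.Agent.Helper48.SPow
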