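import Mathlib
import Pool.Agent.Helper48.SPow.Defs
import Pool.Agent.Helper11.SP.SxVol
import Pool.Agent.Helper11.SP.Simplex

/-!
SPow-3. Lower bound for the integral of `dens` over an open triangle.

`l1 x = x 1 + 2 - 2 x 0`, `l2 x = x 1 + 2 + 2 x 0`, `q x = x 0 ^ 2 - 4 x 1 + 8`, all `≥ 0` at the vertices `V 0, V 1, V 2`, not zero at all three,
`q > 0` on the open triangle.  Then `∫_T dens ≥ (2/π²) (|det|/2) / √(mean l1 * mean l2 * mean q)`, means over the three vertices.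

Proof.  The triangle is the image of `simp 2 = {s, t > 0, s + t < 1}` under the affine map `ph V`; the shift of the barycentric
coordinates `sg (s, t) = (1 - s - t, s)` preserves Lebesgue measure, and the sum of `dens` over the three shifts of a point is at least
three times the value at the means (`pointwise`: inequality of the means, twice).
-/

open MeasureTheory

namespace Pool.Agent.Helper48.SPow

open Pool.Agent.Helper11.SP

private lemma amgm3 {a b c : ℝ} (ha : 0 ≤ a) (hb : 0 ≤ b) (hc : 0 ≤ c) :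
    27 * (a * b * c) ≤ (a + b + c) ^ 3 := by
  have hs : 0 ≤ a + b + c := by positivity
  nlinarith [mul_nonneg ha (sq_nonneg (b - c)), mul_nonneg hb (sq_nonneg (c - a)),
    mul_nonneg hc (sq_nonneg (a - b)), mul_nonneg hs (sq_nonneg (a - b)),
    mul_nonneg hs (sq_nonneg (b - c)), mul_nonneg hs (sq_nonneg (c - a))]

/-- the product of three numbers is at most the cube of a third of their sum -/
private lemma prod_le {a b c m : ℝ} (ha : 0 ≤ a) (hb : 0 ≤ b) (hc : 0 ≤ c) (hm : a + b + c = 3 * m) :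
    a * b * c ≤ m ^ 3 := by
  have h := amgm3 ha hb hc
  rw [hm] at h
  nlinarith

private lemma three_le {A0 A1 A2 B : ℝ} (h0 : 0 < A0) (h1 : 0 < A1) (h2 : 0 < A2) (hB : 0 < B)
    (h : A0 * A1 * A2 ≤ B ^ 3) : 3 * (1 / √B) ≤ 1 / √A0 + 1 / √A1 + 1 / √A2 := by
  have s0 := Real.sqrt_pos.mpr h0
  have s1 := Real.sqrt_pos.mpr h1
  have s2 := Real.sqrt_pos.mpr h2
  have sB := Real.sqrt_pos.mpr hB
  have h3 : √A0 * √A1 * √A2 ≤ √B ^ 3 := by
    have e1 : √A0 * √A1 * √A2 = √(A0 * A1 * A2) := by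
      rw [Real.sqrt_mul (by positivity), Real.sqrt_mul h0.le]
    have e2 : √B ^ 3 = √(B ^ 3) := by
      rw [eq_comm, Real.sqrt_eq_iff_mul_self_eq (by positivity) (by positivity)]
      have := Real.mul_self_sqrt hB.le
      calc B ^ 3 = (√B * √B) ^ 3 := by rw [this]
        _ = √B ^ 3 * √B ^ 3 := by ring
    rw [e1, e2]
    exact Real.sqrt_le_sqrt h
  have h4 : (1 / √B) ^ 3 ≤ 1 / √A0 * (1 / √A1) * (1 / √A2) := by
    have e : 1 / √A0 * (1 / √A1) * (1 / √A2) = 1 / (√A0 * √A1 * √A2) := by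
      field_simp
    rw [e, div_pow, one_pow]
    exact one_div_le_one_div_of_le (by positivity) h3
  have h5 := amgm3 (a := 1 / √A0) (b := 1 / √A1) (c := 1 / √A2) (by positivity) (by positivity)
    (by positivity)
  have h6 : (3 * (1 / √B)) ^ 3 ≤ (1 / √A0 + 1 / √A1 + 1 / √A2) ^ 3 := by
    calc (3 * (1 / √B)) ^ 3 = 27 * (1 / √B) ^ 3 := by ring
      _ ≤ 27 * (1 / √A0 * (1 / √A1) * (1 / √A2)) := by gcongr
      _ ≤ _ := h5
  exact le_of_pow_le_pow_left₀ (by norm_num) (by positivity) h6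

/-- the affine parametrisation of the triangle -/
private noncomputable def ph (V : Fin 3 → (Fin 2 → ℝ)) (y : Fin 2 → ℝ) : Fin 2 → ℝ :=
  V 0 + (Matrix.toLin' (Matrix.transpose (fun i j : Fin 2 => V i.succ j - V 0 j))) y

private lemma ph_apply (V : Fin 3 → (Fin 2 → ℝ)) (y : Fin 2 → ℝ) (j : Fin 2) :
    ph V y j = (1 - y 0 - y 1) * V 0 j + y 0 * V 1 j + y 1 * V 2 j := by
  simp only [ph, Pi.add_apply, Matrix.toLin'_apply, Matrix.mulVec, dotProduct, Fin.sum_univ_two,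
    Matrix.transpose_apply, Fin.succ_zero_eq_one, Fin.succ_one_eq_two]
  ring

private lemma ph_meas (V : Fin 3 → (Fin 2 → ℝ)) : Measurable (ph V) :=
  (measurable_const_add (V 0)).comp (LinearMap.continuous_of_finiteDimensional _).measurable

private lemma map_ph (V : Fin 3 → (Fin 2 → ℝ))
    (hdet : Matrix.det (fun i j : Fin 2 => V i.succ j - V 0 j) ≠ 0) :
    Measure.map (ph V) (volume : Measure (Fin 2 → ℝ)) =
      ENNReal.ofReal |(Matrix.det (fun i j : Fin 2 => V i.succ j - V 0 j))⁻¹| • volume := by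
  have h : ph V = (fun x => V 0 + x) ∘
      (Matrix.toLin' (Matrix.transpose (fun i j : Fin 2 => V i.succ j - V 0 j))) := rfl
  rw [h, ← Measure.map_map (measurable_const_add _)
    (LinearMap.continuous_of_finiteDimensional _).measurable,
    Real.map_matrix_volume_pi_eq_smul_volume_pi (by rwa [Matrix.det_transpose]), Measure.map_smul,
    map_add_left_eq_self, Matrix.det_transpose]

private lemma ph_inj (V : Fin 3 → (Fin 2 → ℝ))
    (hdet : Matrix.det (fun i j : Fin 2 => V i.succ j - V 0 j) ≠ 0) : Function.Injective (ph V) := by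
  intro y z h
  have h1 : (Matrix.toLin' (Matrix.transpose (fun i j : Fin 2 => V i.succ j - V 0 j))) y =
      (Matrix.toLin' (Matrix.transpose (fun i j : Fin 2 => V i.succ j - V 0 j))) z :=
    add_left_cancel h
  have hd : LinearMap.det (Matrix.toLin' (Matrix.transpose (fun i j : Fin 2 => V i.succ j - V 0 j))) ≠ 0 := by
    rw [LinearMap.det_toLin', Matrix.det_transpose]; exact hdet
  exact (LinearMap.equivOfDetNeZero _ hd).injective h1

private lemma integral_ph (V : Fin 3 → (Fin 2 → ℝ))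
    (hdet : Matrix.det (fun i j : Fin 2 => V i.succ j - V 0 j) ≠ 0) (f : (Fin 2 → ℝ) → ENNReal)
    (hf : Measurable f) :
    ∫⁻ x in sx V, f x =
      ENNReal.ofReal |Matrix.det (fun i j : Fin 2 => V i.succ j - V 0 j)| *
        ∫⁻ y in simp 2, f (ph V y) := by
  set d := Matrix.det (fun i j : Fin 2 => V i.succ j - V 0 j) with hd
  have hs : sx V = ph V '' simp 2 := by
    rw [sx_eq, Set.image_image]
    rfl
  have hp : ph V ⁻¹' (sx V) = simp 2 := by
    rw [hs]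
    exact Set.preimage_image_eq _ (ph_inj V hdet)
  have h1 := setLIntegral_map (μ := (volume : Measure (Fin 2 → ℝ))) (sx_open V hdet).measurableSet hf (ph_meas V)
  rw [hp, map_ph V hdet, Measure.restrict_smul, lintegral_smul_measure] at h1
  rw [← h1, smul_eq_mul, ← mul_assoc, ← ENNReal.ofReal_mul (abs_nonneg _), ← abs_mul,
    mul_inv_cancel₀ hdet, abs_one, ENNReal.ofReal_one, one_mul]

/-- the shift of the barycentric coordinates -/
private noncomputable def sg (y : Fin 2 → ℝ) : Fin 2 → ℝ := ![1 - y 0 - y 1, y 0]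

private lemma sg_eq : sg = ph ![![1, 0], ![0, 1], ![0, 0]] := by
  funext y j
  rw [ph_apply]
  fin_cases j
  · simp [sg]
  · simp [sg]

private lemma sg_mp : MeasurePreserving sg (volume : Measure (Fin 2 → ℝ)) volume := by
  have hdet : Matrix.det (fun i j : Fin 2 => (![![1, 0], ![0, 1], ![0, 0]] : Fin 3 → Fin 2 → ℝ) i.succ j -
      (![![1, 0], ![0, 1], ![0, 0]] : Fin 3 → Fin 2 → ℝ) 0 j) = 1 := by
    rw [Matrix.det_fin_two]
    simp
  rw [sg_eq]
  refine ⟨ph_meas _, ?_⟩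
  rw [map_ph _ (by rw [hdet]; exact one_ne_zero), hdet]
  simp

private lemma sg_pre : sg ⁻¹' simp 2 = simp 2 := by
  ext y
  simp only [Set.mem_preimage, simp, Set.mem_ofPred_eq, Fin.forall_fin_two, Fin.sum_univ_two, sg,
    Matrix.cons_val_zero, Matrix.cons_val_one]
  constructor
  · rintro ⟨⟨h1, h2⟩, h3⟩
    exact ⟨⟨h2, by linarith⟩, by linarith⟩
  · rintro ⟨⟨h1, h2⟩, h3⟩
    exact ⟨⟨by linarith, h1⟩, by linarith⟩

private lemma dens_meas : Measurable dens := by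
  unfold dens
  fun_prop

private lemma ph_mem (V : Fin 3 → (Fin 2 → ℝ)) {y : Fin 2 → ℝ} (hy : y ∈ simp 2) : ph V y ∈ sx V := by
  rw [sx_eq, Set.image_image]
  exact ⟨y, hy, rfl⟩

private lemma sg_mem {y : Fin 2 → ℝ} (hy : y ∈ simp 2) : sg y ∈ simp 2 := by
  have : y ∈ sg ⁻¹' simp 2 := by rw [sg_pre]; exact hy
  exact this

/-- an affine function of the barycentric coordinates -/
private noncomputable def li (a : Fin 3 → ℝ) (y : Fin 2 → ℝ) : ℝ := (1 - y 0 - y 1) * a 0 + y 0 * a 1 + y 1 * a 2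

private lemma li_pos {a : Fin 3 → ℝ} (h : ∀ i, 0 ≤ a i) (h' : ∃ i, 0 < a i) {y : Fin 2 → ℝ}
    (hy : y ∈ simp 2) : 0 < li a y := by
  obtain ⟨hy1, hy2⟩ := hy
  have y0 := hy1 0
  have y1 := hy1 1
  rw [Fin.sum_univ_two] at hy2
  have y2 : 0 < 1 - y 0 - y 1 := by linarith
  unfold li
  obtain ⟨i, hi⟩ := h'
  have e0 := mul_nonneg y2.le (h 0)
  have e1 := mul_nonneg y0.le (h 1)
  have e2 := mul_nonneg y1.le (h 2)
  fin_cases i
  · have hi' : 0 < a 0 := hi
    have := mul_pos y2 hi'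
    linarith
  · have hi' : 0 < a 1 := hi
    have := mul_pos y0 hi'
    linarith
  · have hi' : 0 < a 2 := hi
    have := mul_pos y1 hi'
    linarith

private lemma li_sum (a : Fin 3 → ℝ) (y : Fin 2 → ℝ) :
    li a y + li a (sg y) + li a (sg (sg y)) = 3 * ((∑ i, a i) / 3) := by
  simp only [li, sg, Matrix.cons_val_zero, Matrix.cons_val_one, Fin.sum_univ_three]
  ring

private lemma mean_pos {a : Fin 3 → ℝ} (h : ∀ i, 0 ≤ a i) (h' : ∃ i, 0 < a i) : 0 < (∑ i, a i) / 3 := by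
  obtain ⟨i, hi⟩ := h'
  have := Finset.sum_pos' (fun k _ => h k) ⟨i, Finset.mem_univ i, hi⟩
  positivity

private lemma dens_ge (V : Fin 3 → (Fin 2 → ℝ))
    (h1 : ∀ i, 0 ≤ V i 1 + 2 - 2 * V i 0) (h1' : ∃ i, 0 < V i 1 + 2 - 2 * V i 0)
    (h2 : ∀ i, 0 ≤ V i 1 + 2 + 2 * V i 0) (h2' : ∃ i, 0 < V i 1 + 2 + 2 * V i 0)
    (h3' : ∀ x ∈ sx V, 0 < x 0 ^ 2 - 4 * x 1 + 8) {y : Fin 2 → ℝ} (hy : y ∈ simp 2) :
    0 < li (fun i => V i 0 ^ 2 - 4 * V i 1 + 8) y ∧
    2 / Real.pi ^ 2 * (1 / √(li (fun i => V i 1 + 2 - 2 * V i 0) y *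
      li (fun i => V i 1 + 2 + 2 * V i 0) y * li (fun i => V i 0 ^ 2 - 4 * V i 1 + 8) y)) ≤
      dens (ph V y) := by
  have p1 := li_pos h1 h1' hy
  have p2 := li_pos h2 h2' hy
  have p3 := h3' _ (ph_mem V hy)
  have e1 : ph V y 1 + 2 - 2 * ph V y 0 = li (fun i => V i 1 + 2 - 2 * V i 0) y := by
    rw [ph_apply, ph_apply]
    unfold li
    ring
  have e2 : ph V y 1 + 2 + 2 * ph V y 0 = li (fun i => V i 1 + 2 + 2 * V i 0) y := by
    rw [ph_apply, ph_apply]
    unfold li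
    ring
  have e3 : ph V y 0 ^ 2 - 4 * ph V y 1 + 8 ≤ li (fun i => V i 0 ^ 2 - 4 * V i 1 + 8) y := by
    rw [ph_apply, ph_apply]
    unfold li
    obtain ⟨hy1, hy2⟩ := hy
    have y0 := hy1 0
    have y1 := hy1 1
    rw [Fin.sum_univ_two] at hy2
    have y2 : 0 < 1 - y 0 - y 1 := by linarith
    have q1 := mul_nonneg (mul_nonneg y2.le y0.le) (sq_nonneg (V 0 0 - V 1 0))
    have q2 := mul_nonneg (mul_nonneg y2.le y1.le) (sq_nonneg (V 0 0 - V 2 0))
    have q3 := mul_nonneg (mul_nonneg y0.le y1.le) (sq_nonneg (V 1 0 - V 2 0))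
    nlinarith
  refine ⟨p3.trans_le e3, ?_⟩
  unfold dens
  rw [e1, e2]
  have hpi : 0 < Real.pi ^ 2 := by positivity
  rw [← div_div]
  rw [mul_one_div]
  apply div_le_div_of_nonneg_left (by positivity) (Real.sqrt_pos.mpr (by positivity))
  apply Real.sqrt_le_sqrt
  exact mul_le_mul_of_nonneg_left e3 (by positivity)

private lemma pointwise (V : Fin 3 → (Fin 2 → ℝ))
    (h1 : ∀ i, 0 ≤ V i 1 + 2 - 2 * V i 0) (h1' : ∃ i, 0 < V i 1 + 2 - 2 * V i 0)
    (h2 : ∀ i, 0 ≤ V i 1 + 2 + 2 * V i 0) (h2' : ∃ i, 0 < V i 1 + 2 + 2 * V i 0)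
    (h3' : ∀ x ∈ sx V, 0 < x 0 ^ 2 - 4 * x 1 + 8) {y : Fin 2 → ℝ} (hy : y ∈ simp 2) :
    3 * (2 / (Real.pi ^ 2 * √(((∑ i, (V i 1 + 2 - 2 * V i 0)) / 3) *
      ((∑ i, (V i 1 + 2 + 2 * V i 0)) / 3) * ((∑ i, (V i 0 ^ 2 - 4 * V i 1 + 8)) / 3)))) ≤
      dens (ph V y) + dens (ph V (sg y)) + dens (ph V (sg (sg y))) := by
  have hy' := sg_mem hy
  have hy'' := sg_mem hy'
  obtain ⟨c0, d0⟩ := dens_ge V h1 h1' h2 h2' h3' hy
  obtain ⟨c1, d1⟩ := dens_ge V h1 h1' h2 h2' h3' hy'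
  obtain ⟨c2, d2⟩ := dens_ge V h1 h1' h2 h2' h3' hy''
  have a0 := li_pos h1 h1' hy
  have a1 := li_pos h1 h1' hy'
  have a2 := li_pos h1 h1' hy''
  have b0 := li_pos h2 h2' hy
  have b1 := li_pos h2 h2' hy'
  have b2 := li_pos h2 h2' hy''
  have sa := li_sum (fun i => V i 1 + 2 - 2 * V i 0) y
  have sb := li_sum (fun i => V i 1 + 2 + 2 * V i 0) y
  have sc := li_sum (fun i => V i 0 ^ 2 - 4 * V i 1 + 8) y
  have pa := prod_le a0.le a1.le a2.le sa
  have pb := prod_le b0.le b1.le b2.le sb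
  have pc := prod_le c0.le c1.le c2.le sc
  have ma : 0 < (∑ i, (V i 1 + 2 - 2 * V i 0)) / 3 := by linarith
  have mb : 0 < (∑ i, (V i 1 + 2 + 2 * V i 0)) / 3 := by linarith
  have mc : 0 < (∑ i, (V i 0 ^ 2 - 4 * V i 1 + 8)) / 3 := by linarith
  have key := three_le (mul_pos (mul_pos a0 b0) c0) (mul_pos (mul_pos a1 b1) c1)
    (mul_pos (mul_pos a2 b2) c2) (mul_pos (mul_pos ma mb) mc) (by
      have hh := mul_le_mul (mul_le_mul pa pb (by positivity) (by positivity)) pc (by positivity)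
        (by positivity)
      refine le_trans (le_of_eq ?_) (hh.trans (le_of_eq ?_)) <;> ring)
  have hpi : 0 < 2 / Real.pi ^ 2 := by positivity
  have key2 := mul_le_mul_of_nonneg_left key hpi.le
  have e : 3 * (2 / (Real.pi ^ 2 * √(((∑ i, (V i 1 + 2 - 2 * V i 0)) / 3) *
      ((∑ i, (V i 1 + 2 + 2 * V i 0)) / 3) * ((∑ i, (V i 0 ^ 2 - 4 * V i 1 + 8)) / 3)))) =
      2 / Real.pi ^ 2 * (3 * (1 / √(((∑ i, (V i 1 + 2 - 2 * V i 0)) / 3) *
      ((∑ i, (V i 1 + 2 + 2 * V i 0)) / 3) * ((∑ i, (V i 0 ^ 2 - 4 * V i 1 + 8)) / 3)))) := by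
    rw [← div_div]
    ring
  rw [e]
  refine key2.trans ?_
  rw [mul_add, mul_add]
  linarith

theorem tri_ge (V : Fin 3 → (Fin 2 → ℝ))
    (hdet : Matrix.det (fun i j : Fin 2 => V i.succ j - V 0 j) ≠ 0)
    (h1 : ∀ i, 0 ≤ V i 1 + 2 - 2 * V i 0) (h1' : ∃ i, 0 < V i 1 + 2 - 2 * V i 0)
    (h2 : ∀ i, 0 ≤ V i 1 + 2 + 2 * V i 0) (h2' : ∃ i, 0 < V i 1 + 2 + 2 * V i 0)
    (h3 : ∀ i, 0 ≤ V i 0 ^ 2 - 4 * V i 1 + 8) (h3' : ∀ x ∈ sx V, 0 < x 0 ^ 2 - 4 * x 1 + 8) :
    ENNReal.ofReal (|Matrix.det (fun i j : Fin 2 => V i.succ j - V 0 j)| / 2 *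
      (2 / (Real.pi ^ 2 * √(((∑ i, (V i 1 + 2 - 2 * V i 0)) / 3) * ((∑ i, (V i 1 + 2 + 2 * V i 0)) / 3) *
        ((∑ i, (V i 0 ^ 2 - 4 * V i 1 + 8)) / 3))))) ≤
    ∫⁻ x in sx V, ENNReal.ofReal (dens x) := by
  have _ := h3
  have hm : Measurable (fun x : Fin 2 → ℝ => ENNReal.ofReal (dens x)) := dens_meas.ennreal_ofReal
  rw [integral_ph V hdet _ hm]
  set d := Matrix.det (fun i j : Fin 2 => V i.succ j - V 0 j) with hd
  set c := 2 / (Real.pi ^ 2 * √(((∑ i, (V i 1 + 2 - 2 * V i 0)) / 3) *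
    ((∑ i, (V i 1 + 2 + 2 * V i 0)) / 3) * ((∑ i, (V i 0 ^ 2 - 4 * V i 1 + 8)) / 3))) with hc
  have hc0 : 0 ≤ c := by rw [hc]; positivity
  have hG : Measurable (fun y : Fin 2 → ℝ => ENNReal.ofReal (dens (ph V y))) := hm.comp (ph_meas V)
  have hsimp : MeasurableSet (simp 2) := (simp_open 2).measurableSet
  have s1 : ∫⁻ y in simp 2, ENNReal.ofReal (dens (ph V (sg y))) =
      ∫⁻ y in simp 2, ENNReal.ofReal (dens (ph V y)) := by
    have h := sg_mp.setLIntegral_comp_preimage hsimp hG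
    rw [sg_pre] at h
    exact h
  have s2 : ∫⁻ y in simp 2, ENNReal.ofReal (dens (ph V (sg (sg y)))) =
      ∫⁻ y in simp 2, ENNReal.ofReal (dens (ph V y)) := by
    have h := sg_mp.setLIntegral_comp_preimage hsimp (hG.comp sg_mp.measurable)
    rw [sg_pre] at h
    exact h.trans s1
  have hpos : ∀ x, 0 ≤ dens x := fun x => by unfold dens; positivity
  have key : 3 * (ENNReal.ofReal c * volume (simp 2)) ≤
      3 * ∫⁻ y in simp 2, ENNReal.ofReal (dens (ph V y)) := by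
    calc 3 * (ENNReal.ofReal c * volume (simp 2))
        = ∫⁻ _ in simp 2, ENNReal.ofReal (3 * c) := by
          rw [setLIntegral_const, ENNReal.ofReal_mul (by norm_num), mul_assoc]
          norm_num
      _ ≤ ∫⁻ y in simp 2, (ENNReal.ofReal (dens (ph V y)) + ENNReal.ofReal (dens (ph V (sg y))) +
            ENNReal.ofReal (dens (ph V (sg (sg y))))) := by
          refine setLIntegral_mono' hsimp fun y hy => ?_
          rw [← ENNReal.ofReal_add (hpos _) (hpos _), ← ENNReal.ofReal_add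
            (add_nonneg (hpos _) (hpos _)) (hpos _)]
          exact ENNReal.ofReal_le_ofReal (pointwise V h1 h1' h2 h2' h3' hy)
      _ = 3 * ∫⁻ y in simp 2, ENNReal.ofReal (dens (ph V y)) := by
          have hA : Measurable (fun y : Fin 2 → ℝ => ENNReal.ofReal (dens (ph V y)) +
              ENNReal.ofReal (dens (ph V (sg y)))) := hG.add (hG.comp sg_mp.measurable)
          rw [lintegral_add_left hA, lintegral_add_left hG, s1, s2]
          ring
  have key2 := (ENNReal.mul_le_mul_iff_right (by norm_num : (3 : ENNReal) ≠ 0)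
    (by norm_num : (3 : ENNReal) ≠ ⊤)).1 key
  have hv := vol_simp 2
  calc ENNReal.ofReal (|d| / 2 * c) = ENNReal.ofReal |d| * (ENNReal.ofReal c *
        ENNReal.ofReal (1 / ((2 : ℕ).factorial : ℝ))) := by
        rw [← ENNReal.ofReal_mul hc0, ← ENNReal.ofReal_mul (abs_nonneg _)]
        congr 1
        norm_num [Nat.factorial]
        ring
    _ ≤ ENNReal.ofReal |d| * (ENNReal.ofReal c * volume (simp 2)) := by gcongr
    _ ≤ _ := by gcongr

end Pool.Agent.Helper48.SPow
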