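import Mathlib
import Pool.Agent.Helper48.SPow.Tri

/-!
Subdivision of a triangle by the midpoints of its sides.
-/

open MeasureTheory

namespace Pool.Agent.Helper48.SPow

open Pool.Agent.Helper11.SP

/-- Twice the signed area. -/
noncomputable def dd (V : Fin 3 → (Fin 2 → ℝ)) : ℝ := Matrix.det (fun i j : Fin 2 => V i.succ j - V 0 j)

lemma dd_eq (V : Fin 3 → (Fin 2 → ℝ)) :
    dd V = (V 1 0 - V 0 0) * (V 2 1 - V 0 1) - (V 1 1 - V 0 1) * (V 2 0 - V 0 0) := by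
  unfold dd
  have h := Matrix.det_fin_two (fun i j : Fin 2 => V i.succ j - V 0 j)
  rw [h]
  rfl

/-- Midpoint. -/
noncomputable def md (P Q : Fin 2 → ℝ) : Fin 2 → ℝ := fun j => (P j + Q j) / 2

/-- Barycentric coordinates. -/
def Bar (V : Fin 3 → (Fin 2 → ℝ)) (x : Fin 2 → ℝ) (a b c : ℝ) : Prop :=
  0 < a ∧ 0 < b ∧ 0 < c ∧ a + b + c = 1 ∧ ∀ j, x j = a * V 0 j + b * V 1 j + c * V 2 j

lemma mem_sx_iff (V : Fin 3 → (Fin 2 → ℝ)) (x : Fin 2 → ℝ) : x ∈ sx V ↔ ∃ a b c, Bar V x a b c := by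
  constructor
  · rintro ⟨w, hw, h1, rfl⟩
    refine ⟨w 0, w 1, w 2, hw 0, hw 1, hw 2, ?_, fun j => ?_⟩
    · rw [Fin.sum_univ_three] at h1
      exact h1
    · rw [Fin.sum_univ_three]
      simp only [Pi.add_apply, Pi.smul_apply, smul_eq_mul]
  · rintro ⟨a, b, c, ha, hb, hc, h1, hx⟩
    refine ⟨![a, b, c], ?_, ?_, ?_⟩
    · intro i
      fin_cases i
      · exact ha
      · exact hb
      · exact hc
    · rw [Fin.sum_univ_three]
      exact h1
    · funext j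
      rw [Fin.sum_univ_three, hx j]
      simp only [Pi.add_apply, Pi.smul_apply, smul_eq_mul]
      rfl

lemma bar_unique (V : Fin 3 → (Fin 2 → ℝ)) (hV : dd V ≠ 0) (x : Fin 2 → ℝ) {a b c a' b' c' : ℝ}
    (h : Bar V x a b c) (h' : Bar V x a' b' c') : a = a' ∧ b = b' ∧ c = c' := by
  obtain ⟨-, -, -, h1, hx⟩ := h
  obtain ⟨-, -, -, h1', hx'⟩ := h'
  have e0 := (hx 0).symm.trans (hx' 0)
  have e1 := (hx 1).symm.trans (hx' 1)
  rw [dd_eq] at hV
  have ha : a = 1 - b - c := by linarith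
  have ha' : a' = 1 - b' - c' := by linarith
  have hb : b = b' := by
    have : (b - b') * ((V 1 0 - V 0 0) * (V 2 1 - V 0 1) - (V 1 1 - V 0 1) * (V 2 0 - V 0 0)) = 0 := by
      subst ha ha'
      linear_combination (V 2 1 - V 0 1) * e0 - (V 2 0 - V 0 0) * e1
    rcases mul_eq_zero.1 this with h | h
    · linarith
    · exact absurd h hV
  have hc : c = c' := by
    have : (c - c') * ((V 1 0 - V 0 0) * (V 2 1 - V 0 1) - (V 1 1 - V 0 1) * (V 2 0 - V 0 0)) = 0 := by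
      subst ha ha'
      linear_combination (V 1 0 - V 0 0) * e1 - (V 1 1 - V 0 1) * e0
    rcases mul_eq_zero.1 this with h | h
    · linarith
    · exact absurd h hV
  exact ⟨by linarith, hb, hc⟩

/-- The four triangles of the subdivision. -/
noncomputable def s1 (V : Fin 3 → (Fin 2 → ℝ)) : Fin 3 → (Fin 2 → ℝ) := ![V 0, md (V 0) (V 1), md (V 0) (V 2)]
noncomputable def s2 (V : Fin 3 → (Fin 2 → ℝ)) : Fin 3 → (Fin 2 → ℝ) := ![md (V 0) (V 1), V 1, md (V 1) (V 2)]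
noncomputable def s3 (V : Fin 3 → (Fin 2 → ℝ)) : Fin 3 → (Fin 2 → ℝ) := ![md (V 0) (V 2), md (V 1) (V 2), V 2]
noncomputable def s4 (V : Fin 3 → (Fin 2 → ℝ)) : Fin 3 → (Fin 2 → ℝ) :=
  ![md (V 0) (V 1), md (V 1) (V 2), md (V 0) (V 2)]

lemma dd_s1 (V : Fin 3 → (Fin 2 → ℝ)) : dd (s1 V) = dd V / 4 := by
  rw [dd_eq, dd_eq]
  simp only [s1, md, Matrix.cons_val_zero, Matrix.cons_val_one, Matrix.cons_val]
  ring

lemma dd_s2 (V : Fin 3 → (Fin 2 → ℝ)) : dd (s2 V) = dd V / 4 := by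
  rw [dd_eq, dd_eq]
  simp only [s2, md, Matrix.cons_val_zero, Matrix.cons_val_one, Matrix.cons_val]
  ring

lemma dd_s3 (V : Fin 3 → (Fin 2 → ℝ)) : dd (s3 V) = dd V / 4 := by
  rw [dd_eq, dd_eq]
  simp only [s3, md, Matrix.cons_val_zero, Matrix.cons_val_one, Matrix.cons_val]
  ring

lemma dd_s4 (V : Fin 3 → (Fin 2 → ℝ)) : dd (s4 V) = dd V / 4 := by
  rw [dd_eq, dd_eq]
  simp only [s4, md, Matrix.cons_val_zero, Matrix.cons_val_one, Matrix.cons_val]
  ring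

lemma bar_s1 (V : Fin 3 → (Fin 2 → ℝ)) (x : Fin 2 → ℝ) (hx : x ∈ sx (s1 V)) :
    ∃ a b c, Bar V x a b c ∧ 1 / 2 < a := by
  obtain ⟨a, b, c, ha, hb, hc, h1, h⟩ := (mem_sx_iff _ _).1 hx
  refine ⟨a + b / 2 + c / 2, b / 2, c / 2, ⟨by positivity, by positivity, by positivity, by linarith, fun j => ?_⟩, by linarith⟩
  rw [h j]
  simp only [s1, md, Matrix.cons_val_zero, Matrix.cons_val_one, Matrix.cons_val]
  ring

lemma bar_s2 (V : Fin 3 → (Fin 2 → ℝ)) (x : Fin 2 → ℝ) (hx : x ∈ sx (s2 V)) :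
    ∃ a b c, Bar V x a b c ∧ 1 / 2 < b := by
  obtain ⟨a, b, c, ha, hb, hc, h1, h⟩ := (mem_sx_iff _ _).1 hx
  refine ⟨a / 2, b + a / 2 + c / 2, c / 2, ⟨by positivity, by positivity, by positivity, by linarith, fun j => ?_⟩, by linarith⟩
  rw [h j]
  simp only [s2, md, Matrix.cons_val_zero, Matrix.cons_val_one, Matrix.cons_val]
  ring

lemma bar_s3 (V : Fin 3 → (Fin 2 → ℝ)) (x : Fin 2 → ℝ) (hx : x ∈ sx (s3 V)) :
    ∃ a b c, Bar V x a b c ∧ 1 / 2 < c := by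
  obtain ⟨a, b, c, ha, hb, hc, h1, h⟩ := (mem_sx_iff _ _).1 hx
  refine ⟨a / 2, b / 2, c + a / 2 + b / 2, ⟨by positivity, by positivity, by positivity, by linarith, fun j => ?_⟩, by linarith⟩
  rw [h j]
  simp only [s3, md, Matrix.cons_val_zero, Matrix.cons_val_one, Matrix.cons_val]
  ring

lemma bar_s4 (V : Fin 3 → (Fin 2 → ℝ)) (x : Fin 2 → ℝ) (hx : x ∈ sx (s4 V)) :
    ∃ a b c, Bar V x a b c ∧ a < 1 / 2 ∧ b < 1 / 2 ∧ c < 1 / 2 := by
  obtain ⟨a, b, c, ha, hb, hc, h1, h⟩ := (mem_sx_iff _ _).1 hx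
  refine ⟨a / 2 + c / 2, a / 2 + b / 2, b / 2 + c / 2, ⟨by positivity, by positivity, by positivity, by linarith, fun j => ?_⟩,
    by linarith, by linarith, by linarith⟩
  rw [h j]
  simp only [s4, md, Matrix.cons_val_zero, Matrix.cons_val_one, Matrix.cons_val]
  ring

lemma four_sub (V : Fin 3 → (Fin 2 → ℝ)) (hV : dd V ≠ 0) (μ : Measure (Fin 2 → ℝ)) :
    (μ (sx (s1 V)) + μ (sx (s2 V))) + (μ (sx (s3 V)) + μ (sx (s4 V))) ≤ μ (sx V) := by
  have hV4 : dd V / 4 ≠ 0 := by positivity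
  have o1 : IsOpen (sx (s1 V)) := sx_open _ (by change dd (s1 V) ≠ 0; rw [dd_s1]; exact hV4)
  have o2 : IsOpen (sx (s2 V)) := sx_open _ (by change dd (s2 V) ≠ 0; rw [dd_s2]; exact hV4)
  have o3 : IsOpen (sx (s3 V)) := sx_open _ (by change dd (s3 V) ≠ 0; rw [dd_s3]; exact hV4)
  have o4 : IsOpen (sx (s4 V)) := sx_open _ (by change dd (s4 V) ≠ 0; rw [dd_s4]; exact hV4)
  have d12 : Disjoint (sx (s1 V)) (sx (s2 V)) := by
    rw [Set.disjoint_left]
    intro x hx hy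
    obtain ⟨a, b, c, h, h2⟩ := bar_s1 V x hx
    obtain ⟨a', b', c', h', h2'⟩ := bar_s2 V x hy
    obtain ⟨e1, e2, e3⟩ := bar_unique V hV x h h'
    have := h.2.2.1
    have := h.2.2.2.1
    linarith
  have d34 : Disjoint (sx (s3 V)) (sx (s4 V)) := by
    rw [Set.disjoint_left]
    intro x hx hy
    obtain ⟨a, b, c, h, h2⟩ := bar_s3 V x hx
    obtain ⟨a', b', c', h', h2', h3', h4'⟩ := bar_s4 V x hy
    obtain ⟨e1, e2, e3⟩ := bar_unique V hV x h h'
    linarith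
  have d : Disjoint (sx (s1 V) ∪ sx (s2 V)) (sx (s3 V) ∪ sx (s4 V)) := by
    rw [Set.disjoint_left]
    intro x hx hy
    rcases hx with hx | hx
    · obtain ⟨a, b, c, h, h2⟩ := bar_s1 V x hx
      rcases hy with hy | hy
      · obtain ⟨a', b', c', h', h2'⟩ := bar_s3 V x hy
        obtain ⟨e1, e2, e3⟩ := bar_unique V hV x h h'
        have := h.2.1
        have := h.2.2.2.1
        linarith
      · obtain ⟨a', b', c', h', h2', h3', h4'⟩ := bar_s4 V x hy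
        obtain ⟨e1, e2, e3⟩ := bar_unique V hV x h h'
        linarith
    · obtain ⟨a, b, c, h, h2⟩ := bar_s2 V x hx
      rcases hy with hy | hy
      · obtain ⟨a', b', c', h', h2'⟩ := bar_s3 V x hy
        obtain ⟨e1, e2, e3⟩ := bar_unique V hV x h h'
        have := h.1
        have := h.2.2.2.1
        linarith
      · obtain ⟨a', b', c', h', h2', h3', h4'⟩ := bar_s4 V x hy
        obtain ⟨e1, e2, e3⟩ := bar_unique V hV x h h'
        linarith
  rw [← measure_union d12 o2.measurableSet, ← measure_union d34 o4.measurableSet,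
    ← measure_union d (o3.union o4).measurableSet]
  apply measure_mono
  intro x hx
  rw [mem_sx_iff]
  rcases hx with (hx | hx) | (hx | hx)
  · obtain ⟨a, b, c, h, -⟩ := bar_s1 V x hx
    exact ⟨a, b, c, h⟩
  · obtain ⟨a, b, c, h, -⟩ := bar_s2 V x hx
    exact ⟨a, b, c, h⟩
  · obtain ⟨a, b, c, h, -⟩ := bar_s3 V x hx
    exact ⟨a, b, c, h⟩
  · obtain ⟨a, b, c, h, -⟩ := bar_s4 V x hx
    exact ⟨a, b, c, h⟩

end Pool.Agent.Helper48.SPow
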