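import Pool.Agent.Helper11.SP.Chk2

/-!
Weights for the Haar measure of a triangle of parameters, for the kernel.

A vertex `(a, b)` is stored as `u = D (b + 2 - 2a)`, `v = D (b + 2 + 2a)` with a common denominator `D`; `dl = 4 D² |det|`.
`lf` is a lower bound for `2^36 * dl / √x`, `x = (∑ u) (∑ v) (∑ q)`, `q = 16 D² (a² - 4 b + 8)`: `1/√x ≥ (3 r² - x) / (2 r³)` for every `r > 0`.
`hr` subdivides the triangle by the midpoints of its sides as long as this gains enough.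
-/

namespace Pool.Agent.Helper48.SPow

open Pool.Agent.Helper11.SP

/-- `q = 16 D² (a² - 4 b + 8)`. -/
def qf (D u v : ℕ) : ℕ :=
  Nat.sub (Nat.add (Nat.add (Nat.mul u u) (Nat.mul v v)) (Nat.mul 256 (Nat.mul D D)))
    (Nat.add (Nat.mul 2 (Nat.mul u v)) (Nat.mul (Nat.mul 32 D) (Nat.add u v)))

/-- One Newton step for the square root of `x`. -/
def nw (x r : ℕ) : ℕ := Nat.div (Nat.add r (Nat.div x r)) 2

/-- An approximate square root. -/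
def isq (x : ℕ) : ℕ := nw x (nw x (nw x (Nat.pow 2 (Nat.add (Nat.div (Nat.log2 x) 2) 1))))

/-- The lower bound `(3 r² - x) / (2 r³)`, scaled. -/
def lr (dl x r : ℕ) : ℕ :=
  Nat.div (Nat.mul (Nat.mul 68719476736 dl) (Nat.sub (Nat.mul 3 (Nat.mul r r)) x)) (Nat.mul 2 (Nat.mul r (Nat.mul r r)))

/-- The product. -/
def xf (D u1 v1 u2 v2 u3 v3 : ℕ) : ℕ :=
  Nat.mul (Nat.mul (Nat.add (Nat.add u1 u2) u3) (Nat.add (Nat.add v1 v2) v3))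
    (Nat.add (Nat.add (qf D u1 v1) (qf D u2 v2)) (qf D u3 v3))

/-- Weight of a triangle without subdivision. -/
def lf (dl D u1 v1 u2 v2 u3 v3 : ℕ) : ℕ := lr dl (xf D u1 v1 u2 v2 u3 v3) (isq (xf D u1 v1 u2 v2 u3 v3))

/-- Sum of `F` over the four triangles of the subdivision. -/
def four (F : ℕ → ℕ → ℕ → ℕ → ℕ → ℕ → ℕ → ℕ → ℕ) (dl D u1 v1 u2 v2 u3 v3 : ℕ) : ℕ :=
  Nat.add
    (Nat.add
      (F dl (Nat.add D D) (Nat.add u1 u1) (Nat.add v1 v1) (Nat.add u1 u2) (Nat.add v1 v2) (Nat.add u1 u3) (Nat.add v1 v3))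
      (F dl (Nat.add D D) (Nat.add u1 u2) (Nat.add v1 v2) (Nat.add u2 u2) (Nat.add v2 v2) (Nat.add u2 u3) (Nat.add v2 v3)))
    (Nat.add
      (F dl (Nat.add D D) (Nat.add u1 u3) (Nat.add v1 v3) (Nat.add u2 u3) (Nat.add v2 v3) (Nat.add u3 u3) (Nat.add v3 v3))
      (F dl (Nat.add D D) (Nat.add u1 u2) (Nat.add v1 v2) (Nat.add u2 u3) (Nat.add v2 v3) (Nat.add u1 u3) (Nat.add v1 v3)))

/-- Weight with at most `n` levels of subdivision. -/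
noncomputable def hr (n : ℕ) : ℕ → ℕ → ℕ → ℕ → ℕ → ℕ → ℕ → ℕ → ℕ :=
  Nat.rec (motive := fun _ => ℕ → ℕ → ℕ → ℕ → ℕ → ℕ → ℕ → ℕ → ℕ) lf
    (fun _ ih dl D u1 v1 u2 v2 u3 v3 =>
      Bool.rec (motive := fun _ => ℕ) (four ih dl D u1 v1 u2 v2 u3 v3) (four lf dl D u1 v1 u2 v2 u3 v3)
        (Nat.ble (four lf dl D u1 v1 u2 v2 u3 v3) (Nat.add (lf dl D u1 v1 u2 v2 u3 v3) 400000))) n

/-- `B + 8 D - 2 A`. -/
def uf (A B D : ℕ) : ℕ := Nat.sub (Nat.add B (Nat.mul 8 D)) (Nat.mul 2 A)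

/-- `B + 2 A - 8 D`. -/
def vf (A B D : ℕ) : ℕ := Nat.sub (Nat.add B (Nat.mul 2 A)) (Nat.mul 8 D)

/-- Weight of the triangle with vertices `(X_i, Y_i, D_i)`. -/
noncomputable def htri (X1 Y1 D1 X2 Y2 D2 X3 Y3 D3 : ℕ) : ℕ :=
  hr 8 (Nat.mul (Nat.mul 4 (Nat.mul D1 (Nat.mul D2 D3)))
      (Nat.sub (dpos X1 Y1 D1 X2 Y2 D2 X3 Y3 D3) (dneg X1 Y1 D1 X2 Y2 D2 X3 Y3 D3)))
    (Nat.mul D1 (Nat.mul D2 D3))
    (Nat.mul (uf X1 Y1 D1) (Nat.mul D2 D3)) (Nat.mul (vf X1 Y1 D1) (Nat.mul D2 D3))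
    (Nat.mul (uf X2 Y2 D2) (Nat.mul D1 D3)) (Nat.mul (vf X2 Y2 D2) (Nat.mul D1 D3))
    (Nat.mul (uf X3 Y3 D3) (Nat.mul D1 D2)) (Nat.mul (vf X3 Y3 D3) (Nat.mul D1 D2))

/-- Weight of a fan. -/
noncomputable def hfan (X1 Y1 D1 : ℕ) (l : VL) : ℕ :=
  VL.rec (motive := fun _ => ℕ) 0 (fun X2 Y2 D2 _ l ih =>
    Nat.add ih (VL.rec (motive := fun _ => ℕ) 0 (fun X3 Y3 D3 _ _ _ => htri X1 Y1 D1 X2 Y2 D2 X3 Y3 D3) l)) l

/-- Weight of a cell. -/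
noncomputable def hw (c : C2) : ℕ := hfan c.X c.Y c.D c.vs

/-- Sum of the weights of a list of cells. -/
noncomputable def hsum (l : List C2) : ℕ := List.rec (motive := fun _ => ℕ) 0 (fun c _ ih => Nat.add (hw c) ih) l

end Pool.Agent.Helper48.SPow
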