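import Mathlib
import Pool.Agent.Helper48.SPow.Ker
import Pool.Agent.Helper48.SPow.Geo

/-!
Soundness of the weights `hr`.
-/

open MeasureTheory

namespace Pool.Agent.Helper48.SPow

open Pool.Agent.Helper11.SP

/-- The measure with density `dens`. -/
noncomputable def mu : Measure (Fin 2 → ℝ) := volume.withDensity (fun x => ENNReal.ofReal (dens x))

/-- The constant `√432 / (4 π²)`. -/
noncomputable def kap : ℝ := √432 / (4 * Real.pi ^ 2)

lemma kap_pos : 0 < kap := by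
  unfold kap
  positivity

/-- The point of a vertex. -/
noncomputable def pu (D u v : ℕ) : Fin 2 → ℝ := ![((v : ℝ) - u) / (4 * D), ((u : ℝ) + v) / (2 * D) - 2]

/-- The triangle. -/
noncomputable def tri (D u1 v1 u2 v2 u3 v3 : ℕ) : Fin 3 → (Fin 2 → ℝ) := ![pu D u1 v1, pu D u2 v2, pu D u3 v3]

/-- Half plane condition (gives `a² - 4 b + 8 ≥ 0`). -/
def Hp (s : ℝ) (V : Fin 3 → (Fin 2 → ℝ)) : Prop := ∀ i, s ^ 2 + s * V i 0 + V i 1 - 2 ≤ 0

lemma pu0 (D u v : ℕ) : pu D u v 0 = ((v : ℝ) - u) / (4 * D) := rfl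

lemma pu1 (D u v : ℕ) : pu D u v 1 = ((u : ℝ) + v) / (2 * D) - 2 := rfl

lemma l1_pu (D u v : ℕ) (hD : 0 < D) : pu D u v 1 + 2 - 2 * pu D u v 0 = u / D := by
  have : (D : ℝ) ≠ 0 := by exact_mod_cast hD.ne'
  rw [pu0, pu1]
  field_simp
  ring

lemma l2_pu (D u v : ℕ) (hD : 0 < D) : pu D u v 1 + 2 + 2 * pu D u v 0 = v / D := by
  have : (D : ℝ) ≠ 0 := by exact_mod_cast hD.ne'
  rw [pu0, pu1]
  field_simp
  ring

lemma q_pu (D u v : ℕ) (hD : 0 < D) (h : 0 ≤ pu D u v 0 ^ 2 - 4 * pu D u v 1 + 8) :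
    pu D u v 0 ^ 2 - 4 * pu D u v 1 + 8 = (qf D u v : ℝ) / (16 * D ^ 2) := by
  have hD' : (0 : ℝ) < D := by exact_mod_cast hD
  have hD0 := hD'.ne'
  have e : pu D u v 0 ^ 2 - 4 * pu D u v 1 + 8 =
      (((u : ℝ) * u + v * v + 256 * (D * D)) - (2 * (u * v) + 32 * D * (u + v))) / (16 * D ^ 2) := by
    rw [pu0, pu1]
    field_simp
    ring
  rw [e] at h
  have h2 : 0 ≤ ((u : ℝ) * u + v * v + 256 * (D * D)) - (2 * (u * v) + 32 * D * (u + v)) := by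
    by_contra hc
    push Not at hc
    have : (((u : ℝ) * u + v * v + 256 * (D * D)) - (2 * (u * v) + 32 * D * (u + v))) / (16 * D ^ 2) < 0 :=
      div_neg_of_neg_of_pos hc (by positivity)
    linarith
  have h3 : 2 * (u * v) + 32 * D * (u + v) ≤ u * u + v * v + 256 * (D * D) := by
    have : ((2 * (u * v) + 32 * D * (u + v) : ℕ) : ℝ) ≤ ((u * u + v * v + 256 * (D * D) : ℕ) : ℝ) := by
      push_cast
      linarith
    exact_mod_cast this
  rw [e]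
  congr 1
  have e2 : qf D u v = (u * u + v * v + 256 * (D * D)) - (2 * (u * v) + 32 * D * (u + v)) := rfl
  rw [e2, Nat.cast_sub h3]
  push_cast
  ring

lemma lr_le (dl x r : ℕ) (hx : 0 < x) : (lr dl x r : ℝ) / 2 ^ 36 ≤ dl / √x := by
  have hx' : (0 : ℝ) < x := by exact_mod_cast hx
  have hs : 0 < √(x : ℝ) := Real.sqrt_pos.2 hx'
  have hs2 : √(x : ℝ) ^ 2 = x := Real.sq_sqrt hx'.le
  have e : lr dl x r = (68719476736 * dl * (3 * (r * r) - x)) / (2 * (r * (r * r))) := rfl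
  rcases Nat.eq_zero_or_pos r with hr | hr
  · subst hr
    rw [e]
    simp only [Nat.mul_zero, Nat.div_zero, Nat.cast_zero, zero_div]
    positivity
  · rcases le_total x (3 * (r * r)) with h | h
    · rw [e]
      have h1 := Nat.cast_div_le (α := ℝ) (m := 68719476736 * dl * (3 * (r * r) - x)) (n := 2 * (r * (r * r)))
      have hr' : (0 : ℝ) < r := by exact_mod_cast hr
      rw [div_le_iff₀ (by positivity)]
      refine h1.trans ?_
      rw [div_le_iff₀ (by positivity)]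
      have e2 : ((68719476736 * dl * (3 * (r * r) - x) : ℕ) : ℝ) = 2 ^ 36 * dl * (3 * (r * r) - x) := by
        rw [Nat.cast_mul, Nat.cast_sub h]
        push_cast
        norm_num
      have e3 : ((2 * (r * (r * r)) : ℕ) : ℝ) = 2 * (r * (r * r)) := by push_cast; ring
      rw [e2, e3]
      have hdl : (0 : ℝ) ≤ dl := Nat.cast_nonneg _
      have key : (3 * ((r : ℝ) * r) - x) ≤ (1 / √(x : ℝ)) * (2 * (r * (r * r))) := by
        rw [one_div, inv_mul_eq_div, le_div_iff₀ hs]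
        set s := √(x : ℝ) with hsdef
        have : (x : ℝ) = s ^ 2 := hs2.symm
        rw [this]
        nlinarith [mul_nonneg (sq_nonneg ((r : ℝ) - s)) (by positivity : (0 : ℝ) ≤ 2 * r + s)]
      calc 2 ^ 36 * (dl : ℝ) * (3 * (r * r) - x) ≤ 2 ^ 36 * (dl : ℝ) * ((1 / √(x : ℝ)) * (2 * (r * (r * r)))) :=
            mul_le_mul_of_nonneg_left key (by positivity)
        _ = dl / √(x : ℝ) * 2 ^ 36 * (2 * (r * (r * r))) := by
            rw [one_div]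
            ring
    · rw [e, Nat.sub_eq_zero_of_le h]
      simp only [Nat.mul_zero, Nat.zero_div, Nat.cast_zero, zero_div]
      positivity

/-- The statement that `w` is a valid weight of the triangle. -/
def Good (w dl D u1 v1 u2 v2 u3 v3 : ℕ) : Prop :=
  0 < D → (∃ s, Hp s (tri D u1 v1 u2 v2 u3 v3)) → (dl : ℝ) = 4 * D ^ 2 * |dd (tri D u1 v1 u2 v2 u3 v3)| →
    dd (tri D u1 v1 u2 v2 u3 v3) ≠ 0 →
    ENNReal.ofReal (kap * w / 2 ^ 36) ≤ mu (sx (tri D u1 v1 u2 v2 u3 v3))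

lemma hp_q (s a b : ℝ) (h : s ^ 2 + s * a + b - 2 ≤ 0) : 0 ≤ a ^ 2 - 4 * b + 8 := by
  nlinarith [sq_nonneg (a + 2 * s)]

lemma hp_pos (s : ℝ) (V : Fin 3 → (Fin 2 → ℝ)) (hV : dd V ≠ 0) (h : Hp s V) (x : Fin 2 → ℝ) (hx : x ∈ sx V) :
    0 < x 0 ^ 2 - 4 * x 1 + 8 := by
  have h1 : s ^ 2 + s * x 0 + x 1 - 2 < 0 := by
    have hp := sx_pos V ![-s, -1] (2 - s ^ 2) (fun i => ?_) ?_ x hx
    · rw [Fin.sum_univ_two] at hp
      simp only [Matrix.cons_val_zero, Matrix.cons_val_one] at hp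
      linarith
    · rw [Fin.sum_univ_two]
      simp only [Matrix.cons_val_zero, Matrix.cons_val_one]
      have := h i
      linarith
    · by_contra hc
      push Not at hc
      have hz := nondeg V hV ![-s, -1] (2 - s ^ 2) (fun i => le_antisymm (hc i) ?_)
      · have := congrFun hz.1 1
        simp at this
      · rw [Fin.sum_univ_two]
        simp only [Matrix.cons_val_zero, Matrix.cons_val_one]
        have := h i
        linarith
  nlinarith [sq_nonneg (x 0 + 2 * s)]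

lemma exists_pos_u (D u1 v1 u2 v2 u3 v3 : ℕ) (h : dd (tri D u1 v1 u2 v2 u3 v3) ≠ 0) : 0 < u1 + u2 + u3 := by
  by_contra hc
  push Not at hc
  have h1 : u1 = 0 := by omega
  have h2 : u2 = 0 := by omega
  have h3 : u3 = 0 := by omega
  subst h1 h2 h3
  apply h
  rw [dd_eq]
  simp only [tri, pu, Matrix.cons_val_zero, Matrix.cons_val_one, Matrix.cons_val]
  rcases Nat.eq_zero_or_pos D with hD | hD
  · subst hD; simp
  · have : (D : ℝ) ≠ 0 := by exact_mod_cast hD.ne'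
    field_simp
    push_cast
    ring

lemma exists_pos_v (D u1 v1 u2 v2 u3 v3 : ℕ) (h : dd (tri D u1 v1 u2 v2 u3 v3) ≠ 0) : 0 < v1 + v2 + v3 := by
  by_contra hc
  push Not at hc
  have h1 : v1 = 0 := by omega
  have h2 : v2 = 0 := by omega
  have h3 : v3 = 0 := by omega
  subst h1 h2 h3
  apply h
  rw [dd_eq]
  simp only [tri, pu, Matrix.cons_val_zero, Matrix.cons_val_one, Matrix.cons_val]
  rcases Nat.eq_zero_or_pos D with hD | hD
  · subst hD; simp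
  · have : (D : ℝ) ≠ 0 := by exact_mod_cast hD.ne'
    field_simp
    push_cast
    ring

lemma lf_good (dl D u1 v1 u2 v2 u3 v3 : ℕ) : Good (lf dl D u1 v1 u2 v2 u3 v3) dl D u1 v1 u2 v2 u3 v3 := by
  intro hD hs hdl hdd
  obtain ⟨s, hs⟩ := hs
  have hD' : (0 : ℝ) < D := by exact_mod_cast hD
  set V := tri D u1 v1 u2 v2 u3 v3 with hV
  have V0 : V 0 = pu D u1 v1 := rfl
  have V1 : V 1 = pu D u2 v2 := rfl
  have V2 : V 2 = pu D u3 v3 := rfl
  have hU := exists_pos_u D u1 v1 u2 v2 u3 v3 hdd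
  have hVv := exists_pos_v D u1 v1 u2 v2 u3 v3 hdd
  have hq : ∀ i, 0 ≤ V i 0 ^ 2 - 4 * V i 1 + 8 := fun i => hp_q s _ _ (hs i)
  have hq0 := hq 0
  have hq1 := hq 1
  have hq2 := hq 2
  rw [V0] at hq0
  rw [V1] at hq1
  rw [V2] at hq2
  have hpos := hp_pos s V hdd hs
  -- the mean of q is positive
  have hQ : 0 < qf D u1 v1 + qf D u2 v2 + qf D u3 v3 := by
    by_contra hc
    push Not at hc
    have h1 : qf D u1 v1 = 0 := by omega
    have h2 : qf D u2 v2 = 0 := by omega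
    have h3 : qf D u3 v3 = 0 := by omega
    have e1 := q_pu D u1 v1 hD hq0
    have e2 := q_pu D u2 v2 hD hq1
    have e3 := q_pu D u3 v3 hD hq2
    rw [h1, Nat.cast_zero, zero_div] at e1
    rw [h2, Nat.cast_zero, zero_div] at e2
    rw [h3, Nat.cast_zero, zero_div] at e3
    have hx : (fun j => (1 / 3 : ℝ) * V 0 j + (1 / 3 : ℝ) * V 1 j + (1 / 3 : ℝ) * V 2 j) ∈ sx V :=
      (mem_sx_iff _ _).2 ⟨1 / 3, 1 / 3, 1 / 3, by norm_num, by norm_num, by norm_num, by norm_num, fun j => rfl⟩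
    have := hpos _ hx
    simp only [V0, V1, V2] at this
    nlinarith [sq_nonneg (pu D u1 v1 0 - pu D u2 v2 0), sq_nonneg (pu D u2 v2 0 - pu D u3 v3 0),
      sq_nonneg (pu D u1 v1 0 - pu D u3 v3 0)]
  have ht := tri_ge V hdd (fun i => ?_) ?_ (fun i => ?_) ?_ hq hpos
  · have hmu : mu (sx V) = ∫⁻ x in sx V, ENNReal.ofReal (dens x) := by
      unfold mu
      rw [withDensity_apply _ (sx_open V hdd).measurableSet]
    rw [hmu]
    refine le_trans (ENNReal.ofReal_le_ofReal ?_) ht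
    set x := xf D u1 v1 u2 v2 u3 v3 with hx
    have hxe : x = (u1 + u2 + u3) * (v1 + v2 + v3) * (qf D u1 v1 + qf D u2 v2 + qf D u3 v3) := rfl
    have hxpos : 0 < x := by
      rw [hxe]
      positivity
    have hl : (lf dl D u1 v1 u2 v2 u3 v3 : ℝ) / 2 ^ 36 ≤ dl / √x := lr_le dl x (isq x) hxpos
    have hprod : (((∑ i, (V i 1 + 2 - 2 * V i 0)) / 3) * ((∑ i, (V i 1 + 2 + 2 * V i 0)) / 3) *
        ((∑ i, (V i 0 ^ 2 - 4 * V i 1 + 8)) / 3)) = (x : ℝ) / (432 * D ^ 4) := by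
      rw [Fin.sum_univ_three, Fin.sum_univ_three, Fin.sum_univ_three, V0, V1, V2,
        l1_pu _ _ _ hD, l1_pu _ _ _ hD, l1_pu _ _ _ hD, l2_pu _ _ _ hD, l2_pu _ _ _ hD, l2_pu _ _ _ hD,
        q_pu _ _ _ hD hq0, q_pu _ _ _ hD hq1, q_pu _ _ _ hD hq2, hxe]
      push_cast
      field_simp
      ring
    rw [hprod]
    have hx' : (0 : ℝ) < x := by exact_mod_cast hxpos
    have hsq : √((x : ℝ) / (432 * D ^ 4)) = √x / (√432 * D ^ 2) := by
      rw [Real.sqrt_div hx'.le, Real.sqrt_mul (by norm_num)]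
      congr 2
      rw [show (D : ℝ) ^ 4 = (D ^ 2) ^ 2 by ring, Real.sqrt_sq (by positivity)]
    rw [hsq]
    have e1 : kap * (lf dl D u1 v1 u2 v2 u3 v3 : ℝ) / 2 ^ 36 = kap * ((lf dl D u1 v1 u2 v2 u3 v3 : ℝ) / 2 ^ 36) := by ring
    rw [e1]
    refine (mul_le_mul_of_nonneg_left hl kap_pos.le).trans (le_of_eq ?_)
    have e2 : |Matrix.det (fun i j : Fin 2 => V i.succ j - V 0 j)| = (dl : ℝ) / (4 * D ^ 2) := by
      rw [hdl]
      change |dd V| = _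
      field_simp
    rw [e2]
    unfold kap
    have hs1 : √(x : ℝ) ≠ 0 := (Real.sqrt_pos.2 hx').ne'
    have hs2 : √(432 : ℝ) ≠ 0 := (Real.sqrt_pos.2 (by norm_num)).ne'
    have hpi : Real.pi ≠ 0 := Real.pi_ne_zero
    field_simp
  · fin_cases i
    · change 0 ≤ pu D u1 v1 1 + 2 - 2 * pu D u1 v1 0
      rw [l1_pu _ _ _ hD]; positivity
    · change 0 ≤ pu D u2 v2 1 + 2 - 2 * pu D u2 v2 0
      rw [l1_pu _ _ _ hD]; positivity
    · change 0 ≤ pu D u3 v3 1 + 2 - 2 * pu D u3 v3 0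
      rw [l1_pu _ _ _ hD]; positivity
  · rcases Nat.eq_zero_or_pos u1 with h1 | h1
    · rcases Nat.eq_zero_or_pos u2 with h2 | h2
      · refine ⟨2, ?_⟩
        have h3 : 0 < u3 := by omega
        have h3' : (0 : ℝ) < u3 := by exact_mod_cast h3
        rw [V2, l1_pu _ _ _ hD]; positivity
      · refine ⟨1, ?_⟩
        have h3' : (0 : ℝ) < u2 := by exact_mod_cast h2
        rw [V1, l1_pu _ _ _ hD]; positivity
    · refine ⟨0, ?_⟩
      have h3' : (0 : ℝ) < u1 := by exact_mod_cast h1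
      rw [V0, l1_pu _ _ _ hD]; positivity
  · fin_cases i
    · change 0 ≤ pu D u1 v1 1 + 2 + 2 * pu D u1 v1 0
      rw [l2_pu _ _ _ hD]; positivity
    · change 0 ≤ pu D u2 v2 1 + 2 + 2 * pu D u2 v2 0
      rw [l2_pu _ _ _ hD]; positivity
    · change 0 ≤ pu D u3 v3 1 + 2 + 2 * pu D u3 v3 0
      rw [l2_pu _ _ _ hD]; positivity
  · rcases Nat.eq_zero_or_pos v1 with h1 | h1
    · rcases Nat.eq_zero_or_pos v2 with h2 | h2
      · refine ⟨2, ?_⟩
        have h3 : 0 < v3 := by omega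
        have h3' : (0 : ℝ) < v3 := by exact_mod_cast h3
        rw [V2, l2_pu _ _ _ hD]; positivity
      · refine ⟨1, ?_⟩
        have h3' : (0 : ℝ) < v2 := by exact_mod_cast h2
        rw [V1, l2_pu _ _ _ hD]; positivity
    · refine ⟨0, ?_⟩
      have h3' : (0 : ℝ) < v1 := by exact_mod_cast h1
      rw [V0, l2_pu _ _ _ hD]; positivity

/-- Midpoints in the coordinates `u`, `v`. -/
lemma pu_md (D u v u' v' : ℕ) (hD : 0 < D) : pu (D + D) (u + u') (v + v') = md (pu D u v) (pu D u' v') := by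
  have : (D : ℝ) ≠ 0 := by exact_mod_cast hD.ne'
  funext j
  fin_cases j
  · simp only [pu, md]
    simp
    field_simp
    ring
  · simp only [pu, md]
    simp
    field_simp
    ring

lemma pu_dbl (D u v : ℕ) (hD : 0 < D) : pu (D + D) (u + u) (v + v) = pu D u v := by
  rw [pu_md _ _ _ _ _ hD]
  funext j
  simp only [md]
  ring

lemma tri_s1 (D u1 v1 u2 v2 u3 v3 : ℕ) (hD : 0 < D) :
    tri (D + D) (u1 + u1) (v1 + v1) (u1 + u2) (v1 + v2) (u1 + u3) (v1 + v3) = s1 (tri D u1 v1 u2 v2 u3 v3) := by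
  unfold tri s1
  rw [pu_dbl _ _ _ hD, pu_md _ _ _ _ _ hD, pu_md _ _ _ _ _ hD]
  rfl

lemma tri_s2 (D u1 v1 u2 v2 u3 v3 : ℕ) (hD : 0 < D) :
    tri (D + D) (u1 + u2) (v1 + v2) (u2 + u2) (v2 + v2) (u2 + u3) (v2 + v3) = s2 (tri D u1 v1 u2 v2 u3 v3) := by
  unfold tri s2
  rw [pu_dbl _ _ _ hD, pu_md _ _ _ _ _ hD, pu_md _ _ _ _ _ hD]
  rfl

lemma tri_s3 (D u1 v1 u2 v2 u3 v3 : ℕ) (hD : 0 < D) :
    tri (D + D) (u1 + u3) (v1 + v3) (u2 + u3) (v2 + v3) (u3 + u3) (v3 + v3) = s3 (tri D u1 v1 u2 v2 u3 v3) := by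
  unfold tri s3
  rw [pu_dbl _ _ _ hD, pu_md _ _ _ _ _ hD, pu_md _ _ _ _ _ hD]
  rfl

lemma tri_s4 (D u1 v1 u2 v2 u3 v3 : ℕ) (hD : 0 < D) :
    tri (D + D) (u1 + u2) (v1 + v2) (u2 + u3) (v2 + v3) (u1 + u3) (v1 + v3) = s4 (tri D u1 v1 u2 v2 u3 v3) := by
  unfold tri s4
  rw [pu_md _ _ _ _ _ hD, pu_md _ _ _ _ _ hD, pu_md _ _ _ _ _ hD]
  rfl

lemma hp_s (s : ℝ) (V : Fin 3 → (Fin 2 → ℝ)) (h : Hp s V) : Hp s (s1 V) ∧ Hp s (s2 V) ∧ Hp s (s3 V) ∧ Hp s (s4 V) := by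
  have h0 := h 0
  have h1 := h 1
  have h2 := h 2
  refine ⟨fun i => ?_, fun i => ?_, fun i => ?_, fun i => ?_⟩
  · fin_cases i <;> simp [s1, md] <;> linarith
  · fin_cases i <;> simp [s2, md] <;> linarith
  · fin_cases i <;> simp [s3, md] <;> linarith
  · fin_cases i <;> simp [s4, md] <;> linarith

lemma four_good (F : ℕ → ℕ → ℕ → ℕ → ℕ → ℕ → ℕ → ℕ → ℕ)
    (hF : ∀ dl D u1 v1 u2 v2 u3 v3, Good (F dl D u1 v1 u2 v2 u3 v3) dl D u1 v1 u2 v2 u3 v3)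
    (dl D u1 v1 u2 v2 u3 v3 : ℕ) : Good (four F dl D u1 v1 u2 v2 u3 v3) dl D u1 v1 u2 v2 u3 v3 := by
  intro hD hs hdl hdd
  obtain ⟨s, hs⟩ := hs
  obtain ⟨p1, p2, p3, p4⟩ := hp_s s _ hs
  have hD2 : 0 < D + D := by omega
  have hd4 : dd (tri D u1 v1 u2 v2 u3 v3) / 4 ≠ 0 := by
    intro h
    apply hdd
    linarith
  have hdl' : ∀ V' : Fin 3 → (Fin 2 → ℝ), dd V' = dd (tri D u1 v1 u2 v2 u3 v3) / 4 →
      (dl : ℝ) = 4 * ((D + D : ℕ) : ℝ) ^ 2 * |dd V'| := by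
    intro V' hV'
    rw [hV', abs_div, hdl, abs_of_pos (by norm_num : (0 : ℝ) < 4)]
    push_cast
    ring
  have g1 := hF dl (D + D) (u1 + u1) (v1 + v1) (u1 + u2) (v1 + v2) (u1 + u3) (v1 + v3)
  have g2 := hF dl (D + D) (u1 + u2) (v1 + v2) (u2 + u2) (v2 + v2) (u2 + u3) (v2 + v3)
  have g3 := hF dl (D + D) (u1 + u3) (v1 + v3) (u2 + u3) (v2 + v3) (u3 + u3) (v3 + v3)
  have g4 := hF dl (D + D) (u1 + u2) (v1 + v2) (u2 + u3) (v2 + v3) (u1 + u3) (v1 + v3)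
  unfold Good at g1 g2 g3 g4
  rw [tri_s1 _ _ _ _ _ _ _ hD] at g1
  rw [tri_s2 _ _ _ _ _ _ _ hD] at g2
  rw [tri_s3 _ _ _ _ _ _ _ hD] at g3
  rw [tri_s4 _ _ _ _ _ _ _ hD] at g4
  have h1 := g1 hD2 ⟨s, p1⟩ (hdl' _ (dd_s1 _)) (by rw [dd_s1]; exact hd4)
  have h2 := g2 hD2 ⟨s, p2⟩ (hdl' _ (dd_s2 _)) (by rw [dd_s2]; exact hd4)
  have h3 := g3 hD2 ⟨s, p3⟩ (hdl' _ (dd_s3 _)) (by rw [dd_s3]; exact hd4)
  have h4 := g4 hD2 ⟨s, p4⟩ (hdl' _ (dd_s4 _)) (by rw [dd_s4]; exact hd4)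
  refine le_trans ?_ (four_sub _ hdd mu)
  refine le_trans (le_of_eq ?_) (add_le_add (add_le_add h1 h2) (add_le_add h3 h4))
  have hk := kap_pos
  rw [← ENNReal.ofReal_add (by positivity) (by positivity), ← ENNReal.ofReal_add (by positivity) (by positivity),
    ← ENNReal.ofReal_add (by positivity) (by positivity)]
  congr 1
  have e : four F dl D u1 v1 u2 v2 u3 v3 =
    (F dl (D + D) (u1 + u1) (v1 + v1) (u1 + u2) (v1 + v2) (u1 + u3) (v1 + v3) +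
      F dl (D + D) (u1 + u2) (v1 + v2) (u2 + u2) (v2 + v2) (u2 + u3) (v2 + v3)) +
    (F dl (D + D) (u1 + u3) (v1 + v3) (u2 + u3) (v2 + v3) (u3 + u3) (v3 + v3) +
      F dl (D + D) (u1 + u2) (v1 + v2) (u2 + u3) (v2 + v3) (u1 + u3) (v1 + v3)) := rfl
  rw [e]
  push_cast
  ring

theorem hr_good (n dl D u1 v1 u2 v2 u3 v3 : ℕ) : Good (hr n dl D u1 v1 u2 v2 u3 v3) dl D u1 v1 u2 v2 u3 v3 := by
  induction n generalizing dl D u1 v1 u2 v2 u3 v3 with
  | zero => exact lf_good dl D u1 v1 u2 v2 u3 v3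
  | succ n ih =>
    have e : hr (n + 1) dl D u1 v1 u2 v2 u3 v3 = Bool.rec (motive := fun _ => ℕ) (four (hr n) dl D u1 v1 u2 v2 u3 v3)
        (four lf dl D u1 v1 u2 v2 u3 v3)
        (Nat.ble (four lf dl D u1 v1 u2 v2 u3 v3) (Nat.add (lf dl D u1 v1 u2 v2 u3 v3) 400000)) := rfl
    rw [e]
    cases Nat.ble (four lf dl D u1 v1 u2 v2 u3 v3) (Nat.add (lf dl D u1 v1 u2 v2 u3 v3) 400000) with
    | false => exact four_good (hr n) ih dl D u1 v1 u2 v2 u3 v3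
    | true => exact four_good lf lf_good dl D u1 v1 u2 v2 u3 v3

end Pool.Agent.Helper48.SPow
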