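import Mathlib
import Pool.Agent.Helper48.SPow.Sound
import Pool.Agent.Helper11.SP.Fan2

/-!
Soundness of the weights of a fan of triangles (compare `Helper11/SP/Fan2.lean`, private lemmas copied).
-/

open MeasureTheory

namespace Pool.Agent.Helper48.SPow

open Pool.Agent.Helper11.SP

lemma brec (x b : Bool) : Bool.rec (motive := fun _ => Bool) false x b = (b && x) := by
  cases b <;> rfl

/-- Twice the signed area of three points. -/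
def dt (P Q R : Fin 2 → ℝ) : ℝ := (Q 0 - P 0) * (R 1 - P 1) - (Q 1 - P 1) * (R 0 - P 0)

lemma det_eq (P Q R : Fin 2 → ℝ) :
    Matrix.det (fun i j : Fin 2 => (![P, Q, R] : Fin 3 → Fin 2 → ℝ) i.succ j
      - (![P, Q, R] : Fin 3 → Fin 2 → ℝ) 0 j) = dt P Q R := by
  have h := Matrix.det_fin_two (fun i j : Fin 2 => (![P, Q, R] : Fin 3 → Fin 2 → ℝ) i.succ j
      - (![P, Q, R] : Fin 3 → Fin 2 → ℝ) 0 j)
  rw [h]
  rfl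

lemma dt_pt2 (X1 Y1 D1 X2 Y2 D2 X3 Y3 D3 : ℕ) (h1 : 0 < D1) (h2 : 0 < D2) (h3 : 0 < D3) :
    dt (pt2 X1 Y1 D1) (pt2 X2 Y2 D2) (pt2 X3 Y3 D3) =
      ((dpos X1 Y1 D1 X2 Y2 D2 X3 Y3 D3 : ℝ) - dneg X1 Y1 D1 X2 Y2 D2 X3 Y3 D3) /
        ((D1 : ℝ) * ((D2 : ℝ) * D3)) := by
  have h1' : (D1 : ℝ) ≠ 0 := by exact_mod_cast h1.ne'
  have h2' : (D2 : ℝ) ≠ 0 := by exact_mod_cast h2.ne'
  have h3' : (D3 : ℝ) ≠ 0 := by exact_mod_cast h3.ne'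
  have e1 : (dpos X1 Y1 D1 X2 Y2 D2 X3 Y3 D3 : ℝ) = X1 * (Y2 * D3) + Y1 * (X3 * D2) + D1 * (X2 * Y3) := by
    unfold dpos
    simp only [Nat.add_eq, Nat.mul_eq]
    push_cast
    ring
  have e2 : (dneg X1 Y1 D1 X2 Y2 D2 X3 Y3 D3 : ℝ) = X1 * (Y3 * D2) + Y1 * (X2 * D3) + D1 * (X3 * Y2) := by
    unfold dneg
    simp only [Nat.add_eq, Nat.mul_eq]
    push_cast
    ring
  rw [e1, e2]
  simp only [dt, pt2, Matrix.cons_val_zero, Matrix.cons_val_one]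
  field_simp
  ring

lemma left2_iff (X1 Y1 D1 X2 Y2 D2 : ℕ) (l : VL) (h : left2 X1 Y1 D1 X2 Y2 D2 l = true) :
    ∀ v ∈ l.toL, dneg X1 Y1 D1 X2 Y2 D2 v.1 v.2.1 v.2.2.1 ≤ dpos X1 Y1 D1 X2 Y2 D2 v.1 v.2.1 v.2.2.1 := by
  induction l with
  | nil =>
    intro v hv
    simp [VL.toL] at hv
  | cons X3 Y3 D3 c3 r ih =>
    have e : left2 X1 Y1 D1 X2 Y2 D2 (VL.cons X3 Y3 D3 c3 r) =
        Bool.rec (motive := fun _ => Bool) false (left2 X1 Y1 D1 X2 Y2 D2 r)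
          (Nat.ble (dneg X1 Y1 D1 X2 Y2 D2 X3 Y3 D3) (dpos X1 Y1 D1 X2 Y2 D2 X3 Y3 D3)) := rfl
    rw [e, brec, Bool.and_eq_true] at h
    intro v hv
    simp only [VL.toL, List.mem_cons] at hv
    rcases hv with rfl | hv
    · exact Nat.le_of_ble_eq_true h.1
    · exact ih h.2 v hv

lemma fan2_cons (X1 Y1 D1 X2 Y2 D2 c2 X3 Y3 D3 c3 : ℕ) (r : VL)
    (h : fan2 X1 Y1 D1 (VL.cons X2 Y2 D2 c2 (VL.cons X3 Y3 D3 c3 r)) = true) :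
    dneg X1 Y1 D1 X2 Y2 D2 X3 Y3 D3 < dpos X1 Y1 D1 X2 Y2 D2 X3 Y3 D3 ∧
      left2 X1 Y1 D1 X3 Y3 D3 r = true ∧ fan2 X1 Y1 D1 (VL.cons X3 Y3 D3 c3 r) = true := by
  have e : fan2 X1 Y1 D1 (VL.cons X2 Y2 D2 c2 (VL.cons X3 Y3 D3 c3 r)) =
      Bool.rec (motive := fun _ => Bool) false (fan2 X1 Y1 D1 (VL.cons X3 Y3 D3 c3 r))
        (and (Nat.ble (Nat.succ (dneg X1 Y1 D1 X2 Y2 D2 X3 Y3 D3)) (dpos X1 Y1 D1 X2 Y2 D2 X3 Y3 D3))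
          (left2 X1 Y1 D1 X3 Y3 D3 r)) := rfl
  rw [e, brec, Bool.and_eq_true, Bool.and_eq_true] at h
  exact ⟨Nat.le_of_ble_eq_true h.1.1, h.1.2, h.2⟩

lemma dt_pos (X1 Y1 D1 X2 Y2 D2 X3 Y3 D3 : ℕ) (h1 : 0 < D1) (h2 : 0 < D2) (h3 : 0 < D3)
    (h : dneg X1 Y1 D1 X2 Y2 D2 X3 Y3 D3 < dpos X1 Y1 D1 X2 Y2 D2 X3 Y3 D3) :
    0 < dt (pt2 X1 Y1 D1) (pt2 X2 Y2 D2) (pt2 X3 Y3 D3) := by
  rw [dt_pt2 _ _ _ _ _ _ _ _ _ h1 h2 h3]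
  have h' : (dneg X1 Y1 D1 X2 Y2 D2 X3 Y3 D3 : ℝ) < dpos X1 Y1 D1 X2 Y2 D2 X3 Y3 D3 := by
    exact_mod_cast h
  have h1' : (0 : ℝ) < D1 := by exact_mod_cast h1
  have h2' : (0 : ℝ) < D2 := by exact_mod_cast h2
  have h3' : (0 : ℝ) < D3 := by exact_mod_cast h3
  exact div_pos (by linarith) (by positivity)

lemma dt_nonneg (X1 Y1 D1 X2 Y2 D2 X3 Y3 D3 : ℕ) (h1 : 0 < D1) (h2 : 0 < D2) (h3 : 0 < D3)
    (h : dneg X1 Y1 D1 X2 Y2 D2 X3 Y3 D3 ≤ dpos X1 Y1 D1 X2 Y2 D2 X3 Y3 D3) :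
    0 ≤ dt (pt2 X1 Y1 D1) (pt2 X2 Y2 D2) (pt2 X3 Y3 D3) := by
  rw [dt_pt2 _ _ _ _ _ _ _ _ _ h1 h2 h3]
  have h' : (dneg X1 Y1 D1 X2 Y2 D2 X3 Y3 D3 : ℝ) ≤ dpos X1 Y1 D1 X2 Y2 D2 X3 Y3 D3 := by
    exact_mod_cast h
  exact div_nonneg (by linarith) (by positivity)

lemma aff_dt (P Q R : Fin 2 → ℝ) :
    ∑ j, (![-(Q 1 - P 1), Q 0 - P 0] : Fin 2 → ℝ) j * R j + ((Q 1 - P 1) * P 0 - (Q 0 - P 0) * P 1) =
      dt P Q R := by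
  rw [Fin.sum_univ_two]
  simp only [Matrix.cons_val_zero, Matrix.cons_val_one, dt]
  ring

/-- The conditions on a vertex. -/
def Vok (s : ℝ) (X Y D : ℕ) : Prop :=
  0 < D ∧ 8 * D ≤ 2 * X + Y ∧ 2 * X ≤ 8 * D + Y ∧ s ^ 2 + s * pt2 X Y D 0 + pt2 X Y D 1 - 2 ≤ 0

lemma pt2_pu (X Y D f : ℕ) (hD : 0 < D) (hf : 0 < f) (h1 : 8 * D ≤ 2 * X + Y) (h2 : 2 * X ≤ 8 * D + Y) :
    pt2 X Y D = pu (D * f) (uf X Y D * f) (vf X Y D * f) := by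
  have hD' : (D : ℝ) ≠ 0 := by exact_mod_cast hD.ne'
  have hf' : (f : ℝ) ≠ 0 := by exact_mod_cast hf.ne'
  have e1 : (uf X Y D : ℝ) = Y + 8 * D - 2 * X := by
    have : uf X Y D = Y + 8 * D - 2 * X := rfl
    rw [this, Nat.cast_sub (by omega)]
    push_cast
    ring
  have e2 : (vf X Y D : ℝ) = Y + 2 * X - 8 * D := by
    have : vf X Y D = Y + 2 * X - 8 * D := rfl
    rw [this, Nat.cast_sub (by omega)]
    push_cast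
    ring
  have k0 : (X : ℝ) / D - 4 = (((vf X Y D * f : ℕ) : ℝ) - ((uf X Y D * f : ℕ) : ℝ)) / (4 * ((D * f : ℕ) : ℝ)) := by
    push_cast
    rw [e1, e2]
    field_simp
    ring
  have k1 : (Y : ℝ) / D - 2 = (((uf X Y D * f : ℕ) : ℝ) + ((vf X Y D * f : ℕ) : ℝ)) / (2 * ((D * f : ℕ) : ℝ)) - 2 := by
    push_cast
    rw [e1, e2]
    field_simp
    ring
  funext j
  fin_cases j
  · exact k0
  · exact k1

theorem htri_good (s : ℝ) (X1 Y1 D1 X2 Y2 D2 X3 Y3 D3 : ℕ) (v1 : Vok s X1 Y1 D1) (v2 : Vok s X2 Y2 D2)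
    (v3 : Vok s X3 Y3 D3) (h : dneg X1 Y1 D1 X2 Y2 D2 X3 Y3 D3 < dpos X1 Y1 D1 X2 Y2 D2 X3 Y3 D3) :
    ENNReal.ofReal (kap * (htri X1 Y1 D1 X2 Y2 D2 X3 Y3 D3 : ℕ) / 2 ^ 36) ≤
      mu (sx ![pt2 X1 Y1 D1, pt2 X2 Y2 D2, pt2 X3 Y3 D3]) := by
  obtain ⟨a1, a2, a3, a4⟩ := v1
  obtain ⟨b1, b2, b3, b4⟩ := v2
  obtain ⟨c1, c2, c3, c4⟩ := v3
  have e1 : pt2 X1 Y1 D1 = pu (D1 * (D2 * D3)) (uf X1 Y1 D1 * (D2 * D3)) (vf X1 Y1 D1 * (D2 * D3)) :=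
    pt2_pu _ _ _ _ a1 (Nat.mul_pos b1 c1) a2 a3
  have e2 : pt2 X2 Y2 D2 = pu (D1 * (D2 * D3)) (uf X2 Y2 D2 * (D1 * D3)) (vf X2 Y2 D2 * (D1 * D3)) := by
    rw [show D1 * (D2 * D3) = D2 * (D1 * D3) by ring]
    exact pt2_pu _ _ _ _ b1 (Nat.mul_pos a1 c1) b2 b3
  have e3 : pt2 X3 Y3 D3 = pu (D1 * (D2 * D3)) (uf X3 Y3 D3 * (D1 * D2)) (vf X3 Y3 D3 * (D1 * D2)) := by
    rw [show D1 * (D2 * D3) = D3 * (D1 * D2) by ring]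
    exact pt2_pu _ _ _ _ c1 (Nat.mul_pos a1 b1) c2 c3
  have ht : (![pt2 X1 Y1 D1, pt2 X2 Y2 D2, pt2 X3 Y3 D3] : Fin 3 → Fin 2 → ℝ) =
      tri (D1 * (D2 * D3)) (uf X1 Y1 D1 * (D2 * D3)) (vf X1 Y1 D1 * (D2 * D3)) (uf X2 Y2 D2 * (D1 * D3))
        (vf X2 Y2 D2 * (D1 * D3)) (uf X3 Y3 D3 * (D1 * D2)) (vf X3 Y3 D3 * (D1 * D2)) := by
    unfold tri
    rw [← e1, ← e2, ← e3]
  have hdt := dt_pt2 X1 Y1 D1 X2 Y2 D2 X3 Y3 D3 a1 b1 c1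
  have hdp := dt_pos X1 Y1 D1 X2 Y2 D2 X3 Y3 D3 a1 b1 c1 h
  have hdd : dd ![pt2 X1 Y1 D1, pt2 X2 Y2 D2, pt2 X3 Y3 D3] = dt (pt2 X1 Y1 D1) (pt2 X2 Y2 D2) (pt2 X3 Y3 D3) :=
    det_eq _ _ _
  have hh : htri X1 Y1 D1 X2 Y2 D2 X3 Y3 D3 = hr 8 (4 * (D1 * (D2 * D3)) *
      (dpos X1 Y1 D1 X2 Y2 D2 X3 Y3 D3 - dneg X1 Y1 D1 X2 Y2 D2 X3 Y3 D3))
      (D1 * (D2 * D3)) (uf X1 Y1 D1 * (D2 * D3)) (vf X1 Y1 D1 * (D2 * D3)) (uf X2 Y2 D2 * (D1 * D3))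
        (vf X2 Y2 D2 * (D1 * D3)) (uf X3 Y3 D3 * (D1 * D2)) (vf X3 Y3 D3 * (D1 * D2)) := rfl
  rw [hh, ht]
  refine hr_good 8 _ _ _ _ _ _ _ _ (Nat.mul_pos a1 (Nat.mul_pos b1 c1)) ⟨s, ?_⟩ ?_ ?_
  · rw [← ht]
    intro i
    fin_cases i
    · exact a4
    · exact b4
    · exact c4
  · rw [← ht, hdd, abs_of_pos hdp, hdt, Nat.cast_mul, Nat.cast_sub h.le]
    have h1' : (D1 : ℝ) ≠ 0 := by exact_mod_cast a1.ne'
    have h2' : (D2 : ℝ) ≠ 0 := by exact_mod_cast b1.ne'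
    have h3' : (D3 : ℝ) ≠ 0 := by exact_mod_cast c1.ne'
    push_cast
    field_simp
  · rw [← ht, hdd]
    exact hdp.ne'

theorem hfan_good (s : ℝ) (X1 Y1 D1 : ℕ) (v1 : Vok s X1 Y1 D1) (l : VL) (hl : ∀ v ∈ l.toL, Vok s v.1 v.2.1 v.2.2.1)
    (h : fan2 X1 Y1 D1 l = true) :
    ENNReal.ofReal (kap * (hfan X1 Y1 D1 l : ℕ) / 2 ^ 36) ≤ mu (fanReg X1 Y1 D1 l) := by
  have hD1 := v1.1
  have hk := kap_pos
  induction l with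
  | nil =>
    have e : hfan X1 Y1 D1 VL.nil = 0 := rfl
    rw [e]
    simp
  | cons X2 Y2 D2 c2 l ih =>
    cases l with
    | nil =>
      have e : hfan X1 Y1 D1 (VL.cons X2 Y2 D2 c2 VL.nil) = 0 := rfl
      rw [e]
      simp
    | cons X3 Y3 D3 c3 r =>
      obtain ⟨h1, h2, h3⟩ := fan2_cons _ _ _ _ _ _ _ _ _ _ _ _ h
      have w2 : Vok s X2 Y2 D2 := hl (X2, Y2, D2, c2) (by simp [VL.toL])
      have w3 : Vok s X3 Y3 D3 := hl (X3, Y3, D3, c3) (by simp [VL.toL])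
      have hD2 := w2.1
      have hD3 := w3.1
      have hl' : ∀ v ∈ (VL.cons X3 Y3 D3 c3 r).toL, Vok s v.1 v.2.1 v.2.2.1 :=
        fun v hv => hl v (List.mem_cons_of_mem _ hv)
      have hv := ih hl' h3
      have ho := (fan_sound X1 Y1 D1 hD1 (VL.cons X3 Y3 D3 c3 r) (fun v hv => (hl' v hv).1) h3).1
      have hpos := dt_pos _ _ _ _ _ _ _ _ _ hD1 hD2 hD3 h1
      have hdis : Disjoint (sx ![pt2 X1 Y1 D1, pt2 X2 Y2 D2, pt2 X3 Y3 D3])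
          (fanReg X1 Y1 D1 (VL.cons X3 Y3 D3 c3 r)) := by
        rw [Set.disjoint_left]
        intro x hx hx'
        obtain ⟨v, hv, w, hw, hxw, -⟩ := fan_mem X1 Y1 D1 hD1 _ (fun v hv => (hl' v hv).1) h3 x hx'
        have hge : ∀ v ∈ (VL.cons X3 Y3 D3 c3 r).toL,
            0 ≤ dt (pt2 X1 Y1 D1) (pt2 X3 Y3 D3) (pt2 v.1 v.2.1 v.2.2.1) := by
          intro v hv
          have hv' := hv
          simp only [VL.toL, List.mem_cons] at hv'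
          rcases hv' with rfl | hv'
          · simp only [dt]
            apply le_of_eq
            ring
          · exact dt_nonneg _ _ _ _ _ _ _ _ _ hD1 hD3 (hl' v hv).1 (left2_iff _ _ _ _ _ _ _ h2 v hv')
        have hd := sx_disjoint ![pt2 X1 Y1 D1, pt2 X2 Y2 D2, pt2 X3 Y3 D3]
          ![pt2 X1 Y1 D1, pt2 v.1 v.2.1 v.2.2.1, pt2 w.1 w.2.1 w.2.2.1]
          ![-(pt2 X3 Y3 D3 1 - pt2 X1 Y1 D1 1), pt2 X3 Y3 D3 0 - pt2 X1 Y1 D1 0]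
          ((pt2 X3 Y3 D3 1 - pt2 X1 Y1 D1 1) * pt2 X1 Y1 D1 0
            - (pt2 X3 Y3 D3 0 - pt2 X1 Y1 D1 0) * pt2 X1 Y1 D1 1) ?_ ?_ ?_
        · exact Set.disjoint_left.1 hd hx hxw
        · intro i
          rw [aff_dt]
          fin_cases i
          · apply le_of_eq
            simp only [dt]
            simp
          · simp only [dt] at hpos ⊢
            simp
            linarith
          · apply le_of_eq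
            simp only [dt]
            simp
            ring
        · refine ⟨1, ?_⟩
          rw [aff_dt]
          simp only [dt] at hpos ⊢
          simp
          linarith
        · intro i
          rw [aff_dt]
          fin_cases i
          · apply le_of_eq
            simp only [dt]
            simp
          · exact hge v hv
          · exact hge w hw
      have e : hfan X1 Y1 D1 (VL.cons X2 Y2 D2 c2 (VL.cons X3 Y3 D3 c3 r)) =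
          hfan X1 Y1 D1 (VL.cons X3 Y3 D3 c3 r) + htri X1 Y1 D1 X2 Y2 D2 X3 Y3 D3 := rfl
      have e2 : fanReg X1 Y1 D1 (VL.cons X2 Y2 D2 c2 (VL.cons X3 Y3 D3 c3 r)) =
        sx ![pt2 X1 Y1 D1, pt2 X2 Y2 D2, pt2 X3 Y3 D3] ∪ fanReg X1 Y1 D1 (VL.cons X3 Y3 D3 c3 r) := rfl
      rw [e, e2, measure_union hdis ho.measurableSet, add_comm (mu (sx _))]
      refine le_trans (le_of_eq ?_) (add_le_add hv (htri_good s _ _ _ _ _ _ _ _ _ v1 w2 w3 h1))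
      rw [← ENNReal.ofReal_add (by positivity) (by positivity)]
      congr 1
      push_cast
      ring

end Pool.Agent.Helper48.SPow
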