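import Mathlib
import Pool.Agent.Helper3.Powers
import Pool.Agent.Helper3.Count
import Pool.Agent.Helper11.SP.Struct

/-!
SPow-7. The Salem numbers of degree `d` in a real number field of degree `d` are the powers of the smallest one.

Let `K` be a subfield of `ℝ` with `[K : ℚ] = d` and `γ, γ' ∈ K` Salem numbers of degree `d` (so `K = ℚ(γ)`), `γ' < γ`.
Then `δ = γ / γ' > 1` is an algebraic integer (`1/γ'` is one).  Let `σ : K → ℂ` be an embedding other than the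
inclusion.  If `σ γ = 1/γ`, then `σ` is equal to its complex conjugate, `σ γ'` is real and so `σ γ' = 1/γ'`
(`inv_iff`).  Otherwise `|σ γ| = |σ γ'| = 1`.  So the conjugates of `δ` other than `δ` are `1/δ` and numbers of
modulus one; `δ` has degree `d`, because the inclusion is the only embedding of `K` which fixes `δ` (`quot_salem`).
There is a smallest Salem number `β₀` of degree `d` in `K` (`Helper3.salemSet_upper`); for `γ` in the set let `k` be
the largest integer with `β₀ ^ k ≤ γ`; if `β₀ ^ k < γ`, `γ / β₀ ^ k` is in the set and smaller than `β₀`.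
-/

open Polynomial IntermediateField

namespace Pool.Agent.Helper48.SPow

open Pool.Agent.Helper3 (IsSalem)

section

variable {K : IntermediateField ℚ ℝ}

/-- the inclusion -/
noncomputable def incl (K : IntermediateField ℚ ℝ) : K →ₐ[ℚ] ℂ :=
  (Algebra.ofId ℝ ℂ |>.restrictScalars ℚ).comp K.val

lemma incl_apply (x : K) : incl K x = ((x : ℝ) : ℂ) := rfl

/-- the complex conjugate of an embedding -/
noncomputable def cj (σ : K →ₐ[ℚ] ℂ) : K →ₐ[ℚ] ℂ :=
  (Complex.conjAe.toAlgHom.restrictScalars ℚ).comp σ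

lemma cj_apply (σ : K →ₐ[ℚ] ℂ) (x : K) : cj σ x = (starRingEnd ℂ) (σ x) := rfl

lemma minpoly_coe (x : K) : minpoly ℚ x = minpoly ℚ (x : ℝ) :=
  (minpoly.algebraMap_eq (algebraMap K ℝ).injective x).symm

/-- the values of the embeddings at an integral element are its conjugates -/
lemma exists_iff [FiniteDimensional ℚ K] {x : K} (hx : IsIntegral ℤ (x : ℝ)) (z : ℂ) :
    aeval z (minpoly ℤ (x : ℝ)) = 0 ↔ ∃ σ : K →ₐ[ℚ] ℂ, σ x = z := by
  have h := Algebra.IsAlgebraic.range_eval_eq_rootSet_minpoly (F := ℚ) (K := K) ℂ x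
  have h1 : (∃ σ : K →ₐ[ℚ] ℂ, σ x = z) ↔ z ∈ Set.range fun ψ : K →ₐ[ℚ] ℂ ↦ ψ x := Iff.rfl
  rw [h1, h, mem_rootSet_of_ne (minpoly.ne_zero (Algebra.IsIntegral.isIntegral x)), minpoly_coe,
    ← Helper3.minpoly_map_Q hx, aeval_map_algebraMap]

/-- an integral element of degree `[K : ℚ]` separates the embeddings -/
lemma emb_inj [FiniteDimensional ℚ K] {x : K} (hx : IsIntegral ℤ (x : ℝ))
    (hd : (minpoly ℤ (x : ℝ)).natDegree = Module.finrank ℚ K) {σ τ : K →ₐ[ℚ] ℂ} (h : σ x = τ x) : σ = τ := by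
  have h1 : ℚ⟮x⟯ = ⊤ := by
    rw [Field.primitive_element_iff_minpoly_natDegree_eq, minpoly_coe, ← Helper3.minpoly_map_Q hx,
      (minpoly.monic hx).natDegree_map, hd]
  exact (Field.primitive_element_iff_algHom_eq_of_eval' ℚ ℂ (fun _ => IsAlgClosed.splits _) x).1 h1 h

/-- an integral element such that only the inclusion fixes it has degree `[K : ℚ]` -/
lemma degree_of [FiniteDimensional ℚ K] {x : K} (hx : IsIntegral ℤ (x : ℝ))
    (h : ∀ σ : K →ₐ[ℚ] ℂ, incl K x = σ x → incl K = σ) :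
    (minpoly ℤ (x : ℝ)).natDegree = Module.finrank ℚ K := by
  have h1 : ℚ⟮x⟯ = ⊤ :=
    (Field.primitive_element_iff_algHom_eq_of_eval ℚ ℂ (fun _ => IsAlgClosed.splits _) x (incl K)).2 h
  rw [Field.primitive_element_iff_minpoly_natDegree_eq, minpoly_coe, ← Helper3.minpoly_map_Q hx,
    (minpoly.monic hx).natDegree_map] at h1
  exact h1

/-- if an embedding inverts `γ`, it inverts `γ'` -/
lemma inv_imp [FiniteDimensional ℚ K] {x y : K} (hx : IsSalem (x : ℝ)) (hy : IsSalem (y : ℝ))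
    (hdx : (minpoly ℤ (x : ℝ)).natDegree = Module.finrank ℚ K)
    (hdy : (minpoly ℤ (y : ℝ)).natDegree = Module.finrank ℚ K) {σ : K →ₐ[ℚ] ℂ}
    (h : σ x = (((x : ℝ) : ℂ))⁻¹) : σ y = (((y : ℝ) : ℂ))⁻¹ := by
  have h1 : cj σ = σ := by
    refine emb_inj hx.2.1 hdx ?_
    rw [cj_apply, h, map_inv₀, Complex.conj_ofReal]
  have h2 : (σ y).im = 0 := by
    rw [← Complex.conj_eq_iff_im, ← cj_apply, h1]
  have hroot : aeval (σ y) (minpoly ℤ (y : ℝ)) = 0 := (exists_iff hy.2.1 _).2 ⟨σ, rfl⟩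
  by_contra hne
  have h3 : σ y ≠ ((y : ℝ) : ℂ) := by
    intro h4
    have h5 : σ = incl K := emb_inj hy.2.1 hdy h4
    rw [h5, incl_apply] at h
    have h6 : ((x : ℝ)) = ((x : ℝ))⁻¹ := by exact_mod_cast h
    have h7 : ((x : ℝ))⁻¹ < 1 := inv_lt_one_of_one_lt₀ hx.1
    linarith [hx.1]
  exact Helper3.im_ne_zero hy hroot (Helper3.norm_root hy hroot h3 hne) h2

/-- the quotient of two Salem numbers of full degree is one -/
theorem quot_salem [FiniteDimensional ℚ K] {x y : K} (hx : IsSalem (x : ℝ)) (hy : IsSalem (y : ℝ))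
    (hdx : (minpoly ℤ (x : ℝ)).natDegree = Module.finrank ℚ K)
    (hdy : (minpoly ℤ (y : ℝ)).natDegree = Module.finrank ℚ K) (hlt : (y : ℝ) < x) :
    IsSalem (((x / y : K)) : ℝ) ∧ (minpoly ℤ (((x / y : K)) : ℝ)).natDegree = Module.finrank ℚ K := by
  have hy0 : (0 : ℝ) < y := by linarith [hy.1]
  have hcoe : (((x / y : K)) : ℝ) = (x : ℝ) / y := rfl
  have h1 : 1 < (((x / y : K)) : ℝ) := by
    rw [hcoe, one_lt_div hy0]
    exact hlt
  -- integrality
  have hinv : IsIntegral ℤ ((y : ℝ))⁻¹ := by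
    have h2 : IsIntegral ℤ ((((y : ℝ))⁻¹ : ℝ) : ℂ) := by
      refine ⟨minpoly ℤ (y : ℝ), minpoly.monic hy.2.1, ?_⟩
      have h3 := Helper3.inv_root hy (Helper3.self_root (y : ℝ))
      rw [← Complex.ofReal_inv] at h3
      exact h3
    exact (isIntegral_algebraMap_iff (A := ℝ) (B := ℂ) Complex.ofReal_injective).1 h2
  have hint : IsIntegral ℤ (((x / y : K)) : ℝ) := by
    rw [hcoe, div_eq_mul_inv]
    exact hx.2.1.mul hinv
  -- the other embeddings
  have hoth : ∀ σ : K →ₐ[ℚ] ℂ, σ ≠ incl K →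
      σ (x / y) = ((((x / y : K)) : ℝ) : ℂ)⁻¹ ∨ ‖σ (x / y)‖ = 1 := by
    intro σ hσ
    have hrx : aeval (σ x) (minpoly ℤ (x : ℝ)) = 0 := (exists_iff hx.2.1 _).2 ⟨σ, rfl⟩
    have hry : aeval (σ y) (minpoly ℤ (y : ℝ)) = 0 := (exists_iff hy.2.1 _).2 ⟨σ, rfl⟩
    have hxn : σ x ≠ ((x : ℝ) : ℂ) := fun h => hσ (emb_inj hx.2.1 hdx h)
    have hyn : σ y ≠ ((y : ℝ) : ℂ) := fun h => hσ (emb_inj hy.2.1 hdy h)
    by_cases hxi : σ x = (((x : ℝ) : ℂ))⁻¹
    · left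
      rw [map_div₀, hxi, inv_imp hx hy hdx hdy hxi, hcoe, Complex.ofReal_div, inv_div, div_inv_eq_mul,
        mul_comm, div_eq_mul_inv]
    · right
      have hyi : σ y ≠ (((y : ℝ) : ℂ))⁻¹ := fun h => hxi (inv_imp hy hx hdy hdx h)
      rw [map_div₀, norm_div, Helper3.norm_root hx hrx hxn hxi, Helper3.norm_root hy hry hyn hyi, div_one]
  have hle : ∀ σ : K →ₐ[ℚ] ℂ, σ ≠ incl K → ‖σ (x / y)‖ ≤ 1 := by
    intro σ hσ
    rcases hoth σ hσ with h | h
    · rw [h, norm_inv, Complex.norm_real, Real.norm_eq_abs, abs_of_pos (by linarith)]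
      exact inv_le_one_of_one_le₀ h1.le
    · exact h.le
  refine ⟨⟨h1, hint, ?_, ?_⟩, ?_⟩
  · intro z hz hne
    obtain ⟨σ, rfl⟩ := (exists_iff hint z).1 hz
    exact hle σ fun h => hne (by rw [h, incl_apply])
  · obtain ⟨z, hz, hz1⟩ := hx.2.2.2
    obtain ⟨σ, rfl⟩ := (exists_iff hx.2.1 z).1 hz
    refine ⟨σ (x / y), (exists_iff hint _).2 ⟨σ, rfl⟩, ?_⟩
    have hσ : σ ≠ incl K := by
      intro h
      rw [h, incl_apply, Helper3.norm_beta hx] at hz1
      linarith [hx.1]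
    rcases hoth σ hσ with h | h
    · exfalso
      have hxi : σ x ≠ (((x : ℝ) : ℂ))⁻¹ := by
        intro h2
        have h3 := Helper3.inv_norm_lt hx
        rw [← h2] at h3
        linarith
      have hrx : aeval (σ x) (minpoly ℤ (x : ℝ)) = 0 := (exists_iff hx.2.1 _).2 ⟨σ, rfl⟩
      have hry : aeval (σ y) (minpoly ℤ (y : ℝ)) = 0 := (exists_iff hy.2.1 _).2 ⟨σ, rfl⟩
      have hyn : σ y ≠ ((y : ℝ) : ℂ) := fun h => hσ (emb_inj hy.2.1 hdy h)
      have hyi : σ y ≠ (((y : ℝ) : ℂ))⁻¹ := fun h => hxi (inv_imp hy hx hdy hdx h)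
      have h4 : ‖σ (x / y)‖ = 1 := by
        rw [map_div₀, norm_div, hz1, Helper3.norm_root hy hry hyn hyi, div_one]
      rw [h, norm_inv, Complex.norm_real, Real.norm_eq_abs, abs_of_pos (by linarith)] at h4
      have h5 := inv_lt_one_of_one_lt₀ h1
      linarith
    · exact h
  · refine degree_of hint fun σ hσ => ?_
    by_contra hne
    have h2 := hle σ fun h => hne h.symm
    rw [← hσ, incl_apply, Complex.norm_real, Real.norm_eq_abs, abs_of_pos (by linarith)] at h2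
    linarith

end

theorem field_powers (g : ℕ) (hg : 1 ≤ g) (K : IntermediateField ℚ ℝ) (hK : Module.finrank ℚ K = 2 * g + 2)
    (hne : ∃ γ : ℝ, Helper3.IsSalem γ ∧ (minpoly ℤ γ).natDegree = 2 * g + 2 ∧ γ ∈ K) :
    ∃ β₀ : ℝ, Helper3.IsSalem β₀ ∧ (minpoly ℤ β₀).natDegree = 2 * g + 2 ∧
      ∀ γ : ℝ, (Helper3.IsSalem γ ∧ (minpoly ℤ γ).natDegree = 2 * g + 2 ∧ γ ∈ K) ↔ ∃ k : ℕ, 1 ≤ k ∧ γ = β₀ ^ k := by
  have hfin : FiniteDimensional ℚ K := FiniteDimensional.of_finrank_pos (by omega)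
  set S : Set ℝ := {γ | Helper3.IsSalem γ ∧ (minpoly ℤ γ).natDegree = 2 * g + 2 ∧ γ ∈ K} with hS
  obtain ⟨γ₀, hγ₀⟩ := hne
  -- the smallest element
  have hfinS : (S ∩ Set.Iic γ₀).Finite := by
    refine (Helper3.salemSet_upper g γ₀ hγ₀.1.1.le).1.subset ?_
    rintro γ ⟨⟨h1, h2, -⟩, h3⟩
    exact ⟨h1, h2, h3⟩
  obtain ⟨β₀, ⟨hβ₀, hβ₀'⟩, hmin⟩ := Set.exists_min_image (S ∩ Set.Iic γ₀) id hfinS ⟨γ₀, hγ₀, Set.mem_Iic.2 le_rfl⟩
  have hminS : ∀ γ ∈ S, β₀ ≤ γ := by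
    intro γ hγ
    rcases le_total γ γ₀ with h | h
    · exact hmin γ ⟨hγ, h⟩
    · exact le_trans hβ₀' h
  obtain ⟨hs, hd, hm⟩ := hβ₀
  have hpow : ∀ k : ℕ, 1 ≤ k → β₀ ^ k ∈ S := fun k hk =>
    ⟨Helper3.salem_pow hs hk, by rw [Helper3.natDegree_pow hs hk, hd], pow_mem hm k⟩
  refine ⟨β₀, hs, hd, fun γ => ⟨fun hγ => ?_, ?_⟩⟩
  · -- the largest power below `γ`
    have hγS : γ ∈ S := hγ
    obtain ⟨k, hk1, hk2⟩ := exists_nat_pow_near (x := γ) (y := β₀) hγ.1.1.le hs.1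
    have hk0 : 1 ≤ k := by
      by_contra h
      have h0 : k = 0 := by omega
      rw [h0, zero_add, pow_one] at hk2
      exact absurd (hminS γ hγS) (not_le.2 hk2)
    refine ⟨k, hk0, ?_⟩
    by_contra hne
    have hlt : β₀ ^ k < γ := lt_of_le_of_ne hk1 fun h => hne h.symm
    obtain ⟨hp1, hp2, hp3⟩ := hpow k hk0
    have h1 := quot_salem (K := K) (x := ⟨γ, hγ.2.2⟩) (y := ⟨β₀ ^ k, hp3⟩) hγ.1 hp1
      (by rw [hK]; exact hγ.2.1) (by rw [hK]; exact hp2) hlt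
    rw [hK] at h1
    have h2 : γ / β₀ ^ k ∈ S := ⟨h1.1, h1.2, div_mem hγ.2.2 hp3⟩
    have h3 := hminS _ h2
    have h4 : 0 < β₀ ^ k := by
      have := hs.1
      positivity
    rw [le_div_iff₀ h4, ← pow_succ'] at h3
    linarith
  · rintro ⟨k, hk, rfl⟩
    exact hpow k hk

end Pool.Agent.Helper48.SPow
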