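import Mathlib
import Pool.Agent.Helper48.SPow.Field

/-!
Counting the Salem numbers of full degree in a real number field.

If among the powers of every Salem number of degree `2 g + 2` the proportion of those with a property `P` is at least `c` (in all
blocks of consecutive exponents of length `≥ N₀`), then in every real field `K` of degree `2 g + 2` the proportion of the Salem numbers
of degree `2 g + 2` in an interval `(X, Y]` with `Y / X ≥ C (K)` which have the property `P` is at least `c`.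
-/

open Polynomial

namespace Pool.Agent.Helper48.SPow

/-- The Salem numbers of degree `d` in `K` in the interval `(X, Y]`. -/
def fieldSet (d : ℕ) (K : IntermediateField ℚ ℝ) (X Y : ℝ) : Set ℝ :=
  {β | (Helper3.IsSalem β ∧ (minpoly ℤ β).natDegree = d ∧ β ∈ K) ∧ X < β ∧ β ≤ Y}

open Classical in
theorem field_count (g : ℕ) (hg : 1 ≤ g) (c : ℝ) (P : ℝ → Prop)
    (h : ∀ β : ℝ, Helper3.IsSalem β → (minpoly ℤ β).natDegree = 2 * g + 2 → ∃ N0 : ℕ, ∀ N, N0 ≤ N → ∀ M : ℕ,
      c * N ≤ (((Finset.Ioc M (M + N)).filter (fun k : ℕ => P (β ^ k))).card : ℝ))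
    (K : IntermediateField ℚ ℝ) (hK : Module.finrank ℚ K = 2 * g + 2) :
    ∃ C : ℝ, 1 ≤ C ∧ ∀ X Y : ℝ, 1 ≤ X → C * X ≤ Y → (fieldSet (2 * g + 2) K X Y).Finite ∧
      c * ((fieldSet (2 * g + 2) K X Y).ncard : ℝ) ≤ ((fieldSet (2 * g + 2) K X Y ∩ {β | P β}).ncard : ℝ) := by
  by_cases hne : ∃ γ : ℝ, Helper3.IsSalem γ ∧ (minpoly ℤ γ).natDegree = 2 * g + 2 ∧ γ ∈ K
  swap
  · refine ⟨1, le_rfl, fun X Y _ _ => ?_⟩
    have he : fieldSet (2 * g + 2) K X Y = ∅ := by
      ext β
      simp only [fieldSet, Set.mem_setOf_eq, Set.mem_empty_iff_false, iff_false]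
      exact fun hb => hne ⟨β, hb.1⟩
    rw [he]
    simp
  obtain ⟨β₀, hs, hd, hall⟩ := field_powers g hg K hK hne
  obtain ⟨N0, hN0⟩ := h β₀ hs hd
  have h1 : 1 < β₀ := hs.1
  refine ⟨β₀ ^ N0, one_le_pow₀ h1.le, fun X Y hX hXY => ?_⟩
  have hX0 : 0 < X := by linarith
  have hY : 1 ≤ Y := by
    have : 1 ≤ β₀ ^ N0 := one_le_pow₀ h1.le
    nlinarith
  obtain ⟨m, hm1, hm2⟩ := exists_nat_pow_near hX h1
  obtain ⟨n, hn1, hn2⟩ := exists_nat_pow_near hY h1
  have hmn : m + N0 ≤ n := by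
    by_contra hlt
    have h2 : β₀ ^ (n + 1) ≤ β₀ ^ (m + N0) := pow_le_pow_right₀ h1.le (by omega)
    have h3 : β₀ ^ (m + N0) ≤ Y := by
      rw [pow_add, mul_comm]
      exact le_trans (mul_le_mul_of_nonneg_left hm1 (by positivity)) hXY
    linarith
  have hmem : ∀ k : ℕ, (X < β₀ ^ k ∧ β₀ ^ k ≤ Y) ↔ k ∈ Finset.Ioc m n := by
    intro k
    rw [Finset.mem_Ioc]
    constructor
    · rintro ⟨h2, h3⟩
      constructor
      · by_contra hk
        have : β₀ ^ k ≤ β₀ ^ m := pow_le_pow_right₀ h1.le (by omega)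
        linarith
      · by_contra hk
        have : β₀ ^ (n + 1) ≤ β₀ ^ k := pow_le_pow_right₀ h1.le (by omega)
        linarith
    · rintro ⟨h2, h3⟩
      constructor
      · have : β₀ ^ (m + 1) ≤ β₀ ^ k := pow_le_pow_right₀ h1.le (by omega)
        linarith
      · have : β₀ ^ k ≤ β₀ ^ n := pow_le_pow_right₀ h1.le (by omega)
        linarith
  have hinj : Function.Injective (fun k : ℕ => β₀ ^ k) := (pow_right_strictMono₀ h1).injective
  have hset : ∀ Q : ℝ → Prop, fieldSet (2 * g + 2) K X Y ∩ {β | Q β} =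
      (((Finset.Ioc m n).filter (fun k : ℕ => Q (β₀ ^ k))).image (fun k : ℕ => β₀ ^ k) : Finset ℝ) := by
    intro Q
    ext γ
    rw [Finset.coe_image, Set.mem_image, Set.mem_inter_iff, Set.mem_setOf_eq]
    constructor
    · rintro ⟨⟨h2, h3⟩, h4⟩
      obtain ⟨k, hk, rfl⟩ := (hall γ).1 h2
      exact ⟨k, by rw [Finset.mem_coe, Finset.mem_filter]; exact ⟨(hmem k).1 h3, h4⟩, rfl⟩
    · rintro ⟨k, hk, rfl⟩
      rw [Finset.mem_coe, Finset.mem_filter] at hk
      have hk1 : 1 ≤ k := by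
        have := (Finset.mem_Ioc.1 hk.1).1
        omega
      exact ⟨⟨(hall _).2 ⟨k, hk1, rfl⟩, (hmem k).2 hk.1⟩, hk.2⟩
  have hT : fieldSet (2 * g + 2) K X Y = ((Finset.Ioc m n).image (fun k : ℕ => β₀ ^ k) : Finset ℝ) := by
    have h2 := hset (fun _ => True)
    rw [Finset.filter_true, show {β : ℝ | (fun _ : ℝ => True) β} = Set.univ from Set.setOf_true, Set.inter_univ] at h2
    exact h2
  constructor
  · rw [hT]
    exact Finset.finite_toSet _
  · rw [hset P, hT, Set.ncard_coe_finset, Set.ncard_coe_finset, Finset.card_image_of_injective _ hinj,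
      Finset.card_image_of_injective _ hinj, Nat.card_Ioc]
    have h2 := hN0 (n - m) (by omega) m
    rw [show m + (n - m) = n by omega] at h2
    exact h2

end Pool.Agent.Helper48.SPow
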