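import Mathlib
import Pool.Agent.Helper48.SPow.FieldCount

/-!
Salem numbers in an arbitrary real number field.

A Salem number `γ` of degree `d` in `K` generates a subfield `ℚ(γ)` of degree `d`; the field `K` has finitely many subfields, and a Salem number
of degree `d` is in exactly one subfield of degree `d`.  So the statement for the fields of degree `d` (`field_count`) gives the statement for the
Salem numbers of degree `d` in an arbitrary real number field.  Then all degrees together.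
-/

open Polynomial IntermediateField

namespace Pool.Agent.Helper48.SPow

lemma union_prop {ι : Type*} (S : Finset ι) (A : ι → Set ℝ) (P : Set ℝ) (c : ℝ)
    (hfin : ∀ i ∈ S, (A i).Finite) (hdis : ∀ i ∈ S, ∀ j ∈ S, i ≠ j → Disjoint (A i) (A j))
    (h : ∀ i ∈ S, c * ((A i).ncard : ℝ) ≤ ((A i ∩ P).ncard : ℝ)) :
    (⋃ i ∈ S, A i).Finite ∧ c * ((⋃ i ∈ S, A i).ncard : ℝ) ≤ (((⋃ i ∈ S, A i) ∩ P).ncard : ℝ) := by
  classical
  induction S using Finset.induction_on with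
  | empty => simp
  | insert a S ha ih =>
    obtain ⟨i1, i2⟩ := ih (fun i hi => hfin i (Finset.mem_insert_of_mem hi))
      (fun i hi j hj => hdis i (Finset.mem_insert_of_mem hi) j (Finset.mem_insert_of_mem hj))
      (fun i hi => h i (Finset.mem_insert_of_mem hi))
    have hA := hfin a (Finset.mem_insert_self a S)
    have hd : Disjoint (A a) (⋃ i ∈ S, A i) := by
      rw [Set.disjoint_iUnion₂_right]
      intro i hi
      refine hdis a (Finset.mem_insert_self a S) i (Finset.mem_insert_of_mem hi) ?_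
      rintro rfl
      exact ha hi
    have hd2 : Disjoint (A a ∩ P) ((⋃ i ∈ S, A i) ∩ P) :=
      hd.mono Set.inter_subset_left Set.inter_subset_left
    rw [Finset.set_biUnion_insert]
    refine ⟨hA.union i1, ?_⟩
    rw [Set.union_inter_distrib_right, Set.ncard_union_eq hd hA i1,
      Set.ncard_union_eq hd2 (hA.subset Set.inter_subset_left) (i1.subset Set.inter_subset_left)]
    have h1 := h a (Finset.mem_insert_self a S)
    push_cast
    linarith

/-- A real number field has finitely many subfields. -/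
lemma finite_sub (K : IntermediateField ℚ ℝ) [FiniteDimensional ℚ K] : {F : IntermediateField ℚ ℝ | F ≤ K}.Finite := by
  have hfin : Finite (IntermediateField ℚ K) :=
    Field.finite_intermediateField_of_exists_primitive_element ℚ K (Field.exists_primitive_element ℚ K)
  refine (Set.finite_range (fun E : IntermediateField ℚ K => lift E)).subset ?_
  intro F hF
  exact ⟨restrict (show F ≤ K from hF), lift_restrict _⟩

lemma finrank_adj {γ : ℝ} (hγ : IsIntegral ℤ γ) : Module.finrank ℚ ℚ⟮γ⟯ = (minpoly ℤ γ).natDegree := by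
  have h1 : IsIntegral ℚ γ := hγ.tower_top
  rw [adjoin.finrank h1, ← Helper3.minpoly_map_Q hγ, (minpoly.monic hγ).natDegree_map]

/-- The Salem numbers of degree `d` in `K` by subfields. -/
lemma fieldSet_union (d : ℕ) (K : IntermediateField ℚ ℝ) (S : Finset (IntermediateField ℚ ℝ))
    (hS : ∀ F, F ∈ S ↔ F ≤ K ∧ Module.finrank ℚ F = d) (X Y : ℝ) :
    fieldSet d K X Y = ⋃ F ∈ S, fieldSet d F X Y := by
  ext γ
  rw [Set.mem_iUnion₂]
  constructor
  · rintro ⟨⟨h1, h2, h3⟩, h4⟩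
    refine ⟨ℚ⟮γ⟯, (hS _).2 ⟨adjoin_simple_le_iff.2 h3, ?_⟩, ⟨h1, h2, mem_adjoin_simple_self ℚ γ⟩, h4⟩
    rw [finrank_adj h1.2.1, h2]
  · rintro ⟨F, hF, ⟨h1, h2, h3⟩, h4⟩
    exact ⟨⟨h1, h2, ((hS F).1 hF).1 h3⟩, h4⟩

lemma fieldSet_disjoint (d : ℕ) (hd : 0 < d) (F F' : IntermediateField ℚ ℝ) (h : Module.finrank ℚ F = d)
    (h' : Module.finrank ℚ F' = d) (hne : F ≠ F') (X Y : ℝ) : Disjoint (fieldSet d F X Y) (fieldSet d F' X Y) := by
  rw [Set.disjoint_left]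
  rintro γ ⟨⟨h1, h2, h3⟩, -⟩ ⟨⟨-, -, h4⟩, -⟩
  have : FiniteDimensional ℚ F := FiniteDimensional.of_finrank_pos (by omega)
  have : FiniteDimensional ℚ F' := FiniteDimensional.of_finrank_pos (by omega)
  have e1 : ℚ⟮γ⟯ = F := eq_of_le_of_finrank_eq (adjoin_simple_le_iff.2 h3) (by rw [finrank_adj h1.2.1, h2, h])
  have e2 : ℚ⟮γ⟯ = F' := eq_of_le_of_finrank_eq (adjoin_simple_le_iff.2 h4) (by rw [finrank_adj h1.2.1, h2, h'])
  exact hne (e1.symm.trans e2)

open Classical in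
/-- `field_count` for the Salem numbers of degree `2 g + 2` in an arbitrary real number field. -/
theorem field_all (g : ℕ) (hg : 1 ≤ g) (c : ℝ) (P : ℝ → Prop)
    (h : ∀ β : ℝ, Helper3.IsSalem β → (minpoly ℤ β).natDegree = 2 * g + 2 → ∃ N0 : ℕ, ∀ N, N0 ≤ N → ∀ M : ℕ,
      c * N ≤ (((Finset.Ioc M (M + N)).filter (fun k : ℕ => P (β ^ k))).card : ℝ))
    (K : IntermediateField ℚ ℝ) [FiniteDimensional ℚ K] :
    ∃ C : ℝ, 1 ≤ C ∧ ∀ X Y : ℝ, 1 ≤ X → C * X ≤ Y → (fieldSet (2 * g + 2) K X Y).Finite ∧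
      c * ((fieldSet (2 * g + 2) K X Y).ncard : ℝ) ≤ ((fieldSet (2 * g + 2) K X Y ∩ {β | P β}).ncard : ℝ) := by
  have hfin : {F : IntermediateField ℚ ℝ | F ≤ K ∧ Module.finrank ℚ F = 2 * g + 2}.Finite :=
    (finite_sub K).subset fun F hF => hF.1
  set S := hfin.toFinset with hSdef
  have hS : ∀ F, F ∈ S ↔ F ≤ K ∧ Module.finrank ℚ F = 2 * g + 2 := fun F => by
    rw [hSdef, Set.Finite.mem_toFinset]
    rfl
  have hC : ∀ F : IntermediateField ℚ ℝ, F ∈ S → ∃ C : ℝ, 1 ≤ C ∧ ∀ X Y : ℝ, 1 ≤ X → C * X ≤ Y →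
      (fieldSet (2 * g + 2) F X Y).Finite ∧
      c * ((fieldSet (2 * g + 2) F X Y).ncard : ℝ) ≤ ((fieldSet (2 * g + 2) F X Y ∩ {β | P β}).ncard : ℝ) :=
    fun F hF => field_count g hg c P h F ((hS F).1 hF).2
  choose! C hC1 hC2 using hC
  refine ⟨1 + ∑ F ∈ S, C F, ?_, fun X Y hX hXY => ?_⟩
  · have : 0 ≤ ∑ F ∈ S, C F := Finset.sum_nonneg fun F hF => by linarith [hC1 F hF]
    linarith
  · have hle : ∀ F ∈ S, C F * X ≤ Y := by
      intro F hF
      have h1 : C F ≤ ∑ F ∈ S, C F := Finset.single_le_sum (fun F hF => by linarith [hC1 F hF]) hF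
      have h2 : C F * X ≤ (1 + ∑ F ∈ S, C F) * X := mul_le_mul_of_nonneg_right (by linarith) (by linarith)
      linarith
    rw [fieldSet_union (2 * g + 2) K S hS X Y]
    exact union_prop S _ _ c (fun F hF => (hC2 F hF X Y hX (hle F hF)).1)
      (fun F hF F' hF' hne => fieldSet_disjoint _ (by omega) F F' ((hS F).1 hF).2 ((hS F').1 hF').2 hne X Y)
      (fun F hF => (hC2 F hF X Y hX (hle F hF)).2)

/-- All Salem numbers in `K` in the interval `(X, Y]`. -/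
def fieldSetAll (K : IntermediateField ℚ ℝ) (X Y : ℝ) : Set ℝ :=
  {β | (Helper3.IsSalem β ∧ β ∈ K) ∧ X < β ∧ β ≤ Y}

lemma salem_degree {β : ℝ} (hβ : Helper3.IsSalem β) : ∃ g : ℕ, 1 ≤ g ∧ (minpoly ℤ β).natDegree = 2 * g + 2 :=
  ⟨(Helper3.upper β).card, Helper3.upper_card_pos hβ, Helper3.natDegree_eq hβ⟩

lemma degree_le {β : ℝ} (K : IntermediateField ℚ ℝ) [FiniteDimensional ℚ K] (hβ : IsIntegral ℤ β) (hK : β ∈ K) :
    (minpoly ℤ β).natDegree ≤ Module.finrank ℚ K := by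
  rw [← finrank_adj hβ]
  exact finrank_le_of_le_right (adjoin_simple_le_iff.2 hK)

open Classical in
/-- A positive proportion of all the Salem numbers in a real number field. -/
theorem field_total (n : ℕ) (P : ℝ → Prop)
    (h : ∀ g : ℕ, (1 ≤ g ∧ 2 * g + 2 ≤ n) → ∃ c : ℝ, 0 < c ∧ ∀ β : ℝ, Helper3.IsSalem β →
      (minpoly ℤ β).natDegree = 2 * g + 2 → ∃ N0 : ℕ, ∀ N, N0 ≤ N → ∀ M : ℕ,
      c * N ≤ (((Finset.Ioc M (M + N)).filter (fun k : ℕ => P (β ^ k))).card : ℝ)) :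
    ∃ c : ℝ, 0 < c ∧ ∀ K : IntermediateField ℚ ℝ, FiniteDimensional ℚ K → Module.finrank ℚ K ≤ n →
      ∃ C : ℝ, ∀ X Y : ℝ, 1 ≤ X → C * X ≤ Y → (fieldSetAll K X Y).Finite ∧
      c * ((fieldSetAll K X Y).ncard : ℝ) ≤ ((fieldSetAll K X Y ∩ {β | P β}).ncard : ℝ) := by
  choose! c hc0 hc using h
  set G : Finset ℕ := (Finset.Icc 1 n).filter (fun g => 2 * g + 2 ≤ n) with hGdef
  have hG : ∀ g, g ∈ G ↔ 1 ≤ g ∧ 2 * g + 2 ≤ n := fun g => by
    rw [hGdef, Finset.mem_filter, Finset.mem_Icc]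
    omega
  -- the smallest constant
  obtain ⟨c0, hc00, hc0le⟩ : ∃ c0 : ℝ, 0 < c0 ∧ ∀ g ∈ G, c0 ≤ c g := by
    rcases G.eq_empty_or_nonempty with he | hne
    · exact ⟨1, one_pos, fun g hg => by rw [he] at hg; simp at hg⟩
    · obtain ⟨g0, hg0, hmin⟩ := G.exists_min_image c hne
      exact ⟨c g0, hc0 g0 ((hG g0).1 hg0), hmin⟩
  refine ⟨c0, hc00, fun K hK hn => ?_⟩
  have hC : ∀ g : ℕ, g ∈ G → ∃ C : ℝ, 1 ≤ C ∧ ∀ X Y : ℝ, 1 ≤ X → C * X ≤ Y →
      (fieldSet (2 * g + 2) K X Y).Finite ∧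
      c g * ((fieldSet (2 * g + 2) K X Y).ncard : ℝ) ≤ ((fieldSet (2 * g + 2) K X Y ∩ {β | P β}).ncard : ℝ) :=
    fun g hg => field_all g ((hG g).1 hg).1 (c g) P (hc g ((hG g).1 hg)) K
  choose! C hC1 hC2 using hC
  refine ⟨1 + ∑ g ∈ G, C g, fun X Y hX hXY => ?_⟩
  have hle : ∀ g ∈ G, C g * X ≤ Y := by
    intro g hg
    have h1 : C g ≤ ∑ g ∈ G, C g := Finset.single_le_sum (fun g hg => by linarith [hC1 g hg]) hg
    have h2 : C g * X ≤ (1 + ∑ g ∈ G, C g) * X := mul_le_mul_of_nonneg_right (by linarith) (by linarith)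
    linarith
  have hu : fieldSetAll K X Y = ⋃ g ∈ G, fieldSet (2 * g + 2) K X Y := by
    ext γ
    rw [Set.mem_iUnion₂]
    constructor
    · rintro ⟨⟨h1, h2⟩, h3⟩
      obtain ⟨g, hg, hd⟩ := salem_degree h1
      have h4 := degree_le K h1.2.1 h2
      exact ⟨g, (hG g).2 ⟨hg, by omega⟩, ⟨h1, hd, h2⟩, h3⟩
    · rintro ⟨g, -, ⟨h1, -, h2⟩, h3⟩
      exact ⟨⟨h1, h2⟩, h3⟩
  rw [hu]
  refine union_prop _ _ _ c0 (fun g hg => (hC2 g hg X Y hX (hle g hg)).1) ?_ fun g hg => ?_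
  · intro g _ g' _ hne
    rw [Set.disjoint_left]
    rintro γ ⟨⟨-, h1, -⟩, -⟩ ⟨⟨-, h2, -⟩, -⟩
    omega
  · refine le_trans ?_ (hC2 g hg X Y hX (hle g hg)).2
    exact mul_le_mul_of_nonneg_right (hc0le g hg) (Nat.cast_nonneg _)

end Pool.Agent.Helper48.SPow
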