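import Mathlib
import Pool.Agent.Helper48.SPow.Defs

/-!
SPow-2. Image of the Haar measure of the two dimensional torus under `Phi 2`.

Statement: for open `U ⊆ Om 2` the Haar measure of `Phi 2 ⁻¹' U` is at least `∫_U dens` (it is equal; only `≥` is needed).

Proof.  (1) `u ↦ 2 cos (2 π u)` maps each of `(0, 1/2)`, `(1/2, 1)` injectively onto `(-2, 2)`, so the integral of `G (2 cos (2 π u))` over
the circle is at least the integral of `wt * G` over `(-2, 2)`, `wt s = 1 / (π √(4 - s²))` (`one_dim`); Fubini gives the two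
dimensional version (`two_dim`).  (2) `ee s = ![-(s 0 + s 1), 2 + s 0 * s 1]` maps each of the two triangles `s 0 < s 1`, `s 1 < s 0` of
the square `(-2, 2)²` injectively onto `Om 2`, with Jacobian `|s 1 - s 0|`, and `|s 1 - s 0| * dens (ee s) = 2 * wt (s 0) * wt (s 1)`.
-/

open MeasureTheory

namespace Pool.Agent.Helper48.SPow

open Pool.Agent.Helper11.SP

/-- arcsine weight -/
private noncomputable def wt (s : ℝ) : ℝ := 1 / (Real.pi * √(4 - s ^ 2))

private noncomputable def ff (u : ℝ) : ℝ := 2 * Real.cos (2 * Real.pi * u)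

private lemma ff_deriv (u : ℝ) : HasDerivAt ff (-(4 * Real.pi * Real.sin (2 * Real.pi * u))) u := by
  have h1 : HasDerivAt (fun u : ℝ => 2 * Real.pi * u) (2 * Real.pi) u := by
    simpa using (hasDerivAt_id u).const_mul (2 * Real.pi)
  have h2 := (h1.cos).const_mul 2
  exact h2.congr_deriv (by ring)

private lemma ff_refl (u : ℝ) : ff (1 - u) = ff u := by
  unfold ff
  have h : 2 * Real.pi * (1 - u) = 2 * Real.pi - 2 * Real.pi * u := by ring
  rw [h, Real.cos_two_pi_sub]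

private lemma ff_inj1 : Set.InjOn ff (Set.Ioo 0 (1 / 2)) := by
  intro u hu v hv h
  unfold ff at h
  have h1 : Real.cos (2 * Real.pi * u) = Real.cos (2 * Real.pi * v) := by linarith
  have hpi := Real.pi_pos
  have h2 := Real.injOn_cos (x₁ := 2 * Real.pi * u) (x₂ := 2 * Real.pi * v)
    ⟨by nlinarith [hu.1], by nlinarith [hu.2]⟩ ⟨by nlinarith [hv.1], by nlinarith [hv.2]⟩ h1
  exact mul_left_cancel₀ (by positivity) h2

private lemma ff_inj2 : Set.InjOn ff (Set.Ioo (1 / 2) 1) := by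
  intro u hu v hv h
  have h1 := ff_inj1 (x₁ := 1 - u) (x₂ := 1 - v) ⟨by linarith [hu.2], by linarith [hu.1]⟩
    ⟨by linarith [hv.2], by linarith [hv.1]⟩ (by rw [ff_refl, ff_refl, h])
  linarith

private lemma sin_pos1 {u : ℝ} (hu : u ∈ Set.Ioo (0 : ℝ) (1 / 2)) : 0 < Real.sin (2 * Real.pi * u) := by
  have hpi := Real.pi_pos
  apply Real.sin_pos_of_pos_of_lt_pi
  · nlinarith [hu.1]
  · nlinarith [hu.2]

private lemma sin_ne {u : ℝ} (hu : u ∈ Set.Ioo (0 : ℝ) (1 / 2) ∨ u ∈ Set.Ioo (1 / 2 : ℝ) 1) :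
    Real.sin (2 * Real.pi * u) ≠ 0 := by
  rcases hu with hu | hu
  · exact (sin_pos1 hu).ne'
  · have h := sin_pos1 (u := 1 - u) ⟨by linarith [hu.2], by linarith [hu.1]⟩
    have e : 2 * Real.pi * (1 - u) = 2 * Real.pi - 2 * Real.pi * u := by ring
    rw [e, Real.sin_two_pi_sub] at h
    intro h0
    rw [h0] at h
    simp at h

private lemma ff_mem {u : ℝ} (h : Real.sin (2 * Real.pi * u) ≠ 0) : ff u ∈ Set.Ioo (-2 : ℝ) 2 := by
  unfold ff
  have h1 := Real.sin_sq_add_cos_sq (2 * Real.pi * u)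
  have h2 : 0 < Real.sin (2 * Real.pi * u) ^ 2 := by positivity
  have h3 : |Real.cos (2 * Real.pi * u)| < 1 := by
    rw [abs_lt]
    constructor <;> nlinarith [sq_nonneg (Real.cos (2 * Real.pi * u) + 1),
      sq_nonneg (Real.cos (2 * Real.pi * u) - 1)]
  have h4 := abs_lt.1 h3
  exact ⟨by linarith [h4.1], by linarith [h4.2]⟩

private lemma ff_image1 : ff '' Set.Ioo 0 (1 / 2) = Set.Ioo (-2) 2 := by
  have hpi := Real.pi_pos
  apply Set.Subset.antisymm
  · rintro y ⟨u, hu, rfl⟩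
    exact ff_mem (sin_ne (Or.inl hu))
  · intro y hy
    refine ⟨Real.arccos (y / 2) / (2 * Real.pi), ⟨?_, ?_⟩, ?_⟩
    · have : 0 < Real.arccos (y / 2) := Real.arccos_pos.2 (by linarith [hy.2])
      positivity
    · rw [div_lt_iff₀ (by positivity)]
      have h1 : Real.arccos (y / 2) < Real.pi := by
        apply lt_of_le_of_ne (Real.arccos_le_pi _)
        intro h0
        rw [Real.arccos_eq_pi] at h0
        linarith [hy.1]
      linarith
    · unfold ff
      have e : 2 * Real.pi * (Real.arccos (y / 2) / (2 * Real.pi)) = Real.arccos (y / 2) := by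
        field_simp
      rw [e, Real.cos_arccos (by linarith [hy.1]) (by linarith [hy.2])]
      ring

private lemma ff_image2 : ff '' Set.Ioo (1 / 2) 1 = Set.Ioo (-2) 2 := by
  apply Set.Subset.antisymm
  · rintro y ⟨u, hu, rfl⟩
    exact ff_mem (sin_ne (Or.inr hu))
  · intro y hy
    rw [← ff_image1] at hy
    obtain ⟨u, hu, rfl⟩ := hy
    exact ⟨1 - u, ⟨by linarith [hu.2], by linarith [hu.1]⟩, ff_refl u⟩

private lemma wt_nonneg (s : ℝ) : 0 ≤ wt s := by
  unfold wt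
  have := Real.pi_pos
  positivity

private lemma deriv_wt {u : ℝ} (h : Real.sin (2 * Real.pi * u) ≠ 0) :
    |-(4 * Real.pi * Real.sin (2 * Real.pi * u))| * wt (ff u) = 2 := by
  have hpi := Real.pi_pos
  unfold wt ff
  have e : 4 - (2 * Real.cos (2 * Real.pi * u)) ^ 2 = (2 * Real.sin (2 * Real.pi * u)) ^ 2 := by
    have h1 := Real.sin_sq_add_cos_sq (2 * Real.pi * u)
    nlinarith
  rw [e, Real.sqrt_sq_eq_abs, abs_neg, abs_mul, abs_mul, abs_mul]
  have h2 : |Real.sin (2 * Real.pi * u)| ≠ 0 := abs_ne_zero.2 h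
  rw [abs_of_pos hpi, abs_of_pos (by norm_num : (0 : ℝ) < 4), abs_of_pos (by norm_num : (0 : ℝ) < 2)]
  generalize |Real.sin (2 * Real.pi * u)| = z at h2
  field_simp
  norm_num

private lemma half (G : ℝ → ENNReal) (s : Set ℝ) (hs : MeasurableSet s)
    (hsin : ∀ u ∈ s, Real.sin (2 * Real.pi * u) ≠ 0) (hinj : Set.InjOn ff s)
    (him : ff '' s = Set.Ioo (-2) 2) :
    ∫⁻ x in Set.Ioo (-2 : ℝ) 2, ENNReal.ofReal (wt x) * G x = 2 * ∫⁻ u in s, G (ff u) := by
  rw [← him, lintegral_image_eq_lintegral_abs_deriv_mul hs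
    (fun x _ => (ff_deriv x).hasDerivWithinAt) hinj,
    ← lintegral_const_mul' _ _ (by norm_num)]
  apply setLIntegral_congr_fun hs
  intro u hu
  simp only
  rw [← mul_assoc, ← ENNReal.ofReal_mul (abs_nonneg _), deriv_wt (hsin u hu)]
  norm_num

private lemma one_dim (G : ℝ → ENNReal) :
    ∫⁻ x in Set.Ioo (-2 : ℝ) 2, ENNReal.ofReal (wt x) * G x ≤
      ∫⁻ t : UnitAddCircle, G (2 * (fourier 1 t : ℂ).re) ∂AddCircle.haarAddCircle := by
  have h1 := half G (Set.Ioo 0 (1 / 2)) measurableSet_Ioo (fun u hu => sin_ne (Or.inl hu)) ff_inj1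
    ff_image1
  have h2 := half G (Set.Ioo (1 / 2) 1) measurableSet_Ioo (fun u hu => sin_ne (Or.inr hu)) ff_inj2
    ff_image2
  have h3 : ∫⁻ u in Set.Ioo (0 : ℝ) (1 / 2), G (ff u) = ∫⁻ u in Set.Ioo (1 / 2 : ℝ) 1, G (ff u) := by
    have h4 := h1.symm.trans h2
    exact (ENNReal.mul_right_inj (by norm_num) (by norm_num)).1 h4
  have hv : (AddCircle.haarAddCircle : Measure UnitAddCircle) = volume := by
    rw [AddCircle.volume_eq_smul_haarAddCircle]
    simp
  rw [hv, ← UnitAddCircle.lintegral_preimage 0]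
  have h5 : ∀ u : ℝ, G (2 * (fourier 1 (u : UnitAddCircle) : ℂ).re) = G (ff u) := by
    intro u
    congr 1
    unfold ff
    rw [fourier_coe_apply]
    congr 1
    have e : (2 * (Real.pi : ℂ) * Complex.I * ((1 : ℤ) : ℂ) * (u : ℂ) / ((1 : ℝ) : ℂ)) =
        ((2 * Real.pi * u : ℝ) : ℂ) * Complex.I := by
      push_cast
      ring
    rw [e, Complex.exp_ofReal_mul_I_re]
  simp only [h5]
  have h6 : Set.Ioo (0 : ℝ) (1 / 2) ∪ Set.Ioo (1 / 2) 1 ⊆ Set.Ioc 0 (0 + 1) := by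
    rintro u (hu | hu)
    · exact ⟨hu.1, by linarith [hu.2]⟩
    · exact ⟨by linarith [hu.1], by linarith [hu.2]⟩
  refine le_trans ?_ (lintegral_mono_set h6)
  rw [lintegral_union measurableSet_Ioo, h1, two_mul]
  · rw [h3]
  · rw [Set.disjoint_left]
    intro u hu hu'
    linarith [hu.2, hu'.1]

private noncomputable def cc (t : UnitAddCircle) : ℝ := 2 * (fourier 1 t : ℂ).re

private lemma cc_meas : Measurable cc :=
  (continuous_const.mul (Complex.continuous_re.comp (map_continuous (fourier 1)))).measurable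

private lemma two_dim (G : ℝ → ℝ → ENNReal) (hG : Measurable (Function.uncurry G)) :
    ∫⁻ x in Set.Ioo (-2 : ℝ) 2, ∫⁻ y in Set.Ioo (-2 : ℝ) 2,
      ENNReal.ofReal (wt x) * (ENNReal.ofReal (wt y) * G x y) ≤
      ∫⁻ t, G (cc (t 0)) (cc (t 1)) ∂(Helper3.haarT (Fin 2)) := by
  have hm : Measurable fun p : UnitAddCircle × UnitAddCircle => G (cc p.1) (cc p.2) :=
    hG.comp ((cc_meas.comp measurable_fst).prodMk (cc_meas.comp measurable_snd))
  have e1 : ∫⁻ t, G (cc (t 0)) (cc (t 1)) ∂(Helper3.haarT (Fin 2)) =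
      ∫⁻ p : UnitAddCircle × UnitAddCircle, G (cc p.1) (cc p.2)
        ∂(AddCircle.haarAddCircle.prod AddCircle.haarAddCircle) :=
    (measurePreserving_finTwoArrow (AddCircle.haarAddCircle : Measure UnitAddCircle)).lintegral_comp hm
  rw [e1, lintegral_prod _ hm.aemeasurable]
  calc ∫⁻ x in Set.Ioo (-2 : ℝ) 2, ∫⁻ y in Set.Ioo (-2 : ℝ) 2,
        ENNReal.ofReal (wt x) * (ENNReal.ofReal (wt y) * G x y)
      = ∫⁻ x in Set.Ioo (-2 : ℝ) 2, ENNReal.ofReal (wt x) *
        ∫⁻ y in Set.Ioo (-2 : ℝ) 2, ENNReal.ofReal (wt y) * G x y := by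
        apply lintegral_congr
        intro x
        rw [lintegral_const_mul' _ _ ENNReal.ofReal_ne_top]
    _ ≤ ∫⁻ t : UnitAddCircle, (∫⁻ y in Set.Ioo (-2 : ℝ) 2, ENNReal.ofReal (wt y) * G (cc t) y)
        ∂AddCircle.haarAddCircle :=
        one_dim (fun x => ∫⁻ y in Set.Ioo (-2 : ℝ) 2, ENNReal.ofReal (wt y) * G x y)
    _ ≤ _ := lintegral_mono fun t => one_dim (G (cc t))

open Polynomial in
private lemma ee_two (t : Fin 2 → ℝ) : ee t 0 = -(t 0 + t 1) ∧ ee t 1 = 2 + t 0 * t 1 := by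
  have h : (∏ i, (X ^ 2 - C (t i) * X + 1) : ℝ[X]) =
      X ^ 4 + C (-(t 0 + t 1)) * X ^ 3 + C (2 + t 0 * t 1) * X ^ 2 + C (-(t 0 + t 1)) * X + C 1 := by
    rw [Fin.prod_univ_two]
    simp only [map_neg, map_add, map_mul, map_one, C_ofNat]
    ring
  constructor
  · simp only [ee, h, coeff_add, coeff_C_mul, coeff_X_pow, coeff_X, coeff_C]
    simp
  · simp only [ee, h, coeff_add, coeff_C_mul, coeff_X_pow, coeff_X, coeff_C]
    simp

private lemma ee_eq (t : Fin 2 → ℝ) : ee t = ![-(t 0 + t 1), 2 + t 0 * t 1] := by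
  ext i
  fin_cases i
  · exact (ee_two t).1
  · exact (ee_two t).2

private noncomputable def jm (s : Fin 2 → ℝ) : (Fin 2 → ℝ) →L[ℝ] (Fin 2 → ℝ) :=
  LinearMap.toContinuousLinearMap (Matrix.toLin' !![-1, -1; s 1, s 0])

private lemma jm_det (s : Fin 2 → ℝ) : (jm s).det = s 1 - s 0 := by
  unfold jm
  rw [LinearMap.det_toContinuousLinearMap, LinearMap.det_toLin', Matrix.det_fin_two_of]
  ring

private lemma jm_apply (s v : Fin 2 → ℝ) : jm s v = ![-(v 0 + v 1), s 1 * v 0 + s 0 * v 1] := by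
  unfold jm
  ext i
  fin_cases i
  · simp [Matrix.toLin'_apply, Matrix.mulVec, dotProduct, Fin.sum_univ_two]
    ring
  · simp [Matrix.toLin'_apply, Matrix.mulVec, dotProduct, Fin.sum_univ_two]

private lemma ee_fderiv (s : Fin 2 → ℝ) :
    HasFDerivAt (ee : (Fin 2 → ℝ) → Fin 2 → ℝ) (jm s) s := by
  have he : (ee : (Fin 2 → ℝ) → Fin 2 → ℝ) = fun s => ![-(s 0 + s 1), 2 + s 0 * s 1] := funext ee_eq
  rw [he, hasFDerivAt_pi']
  have h0 : HasFDerivAt (fun s : Fin 2 → ℝ => s 0) (ContinuousLinearMap.proj (R := ℝ) (φ := fun _ : Fin 2 => ℝ) 0) s :=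
    hasFDerivAt_apply 0 s
  have h1 : HasFDerivAt (fun s : Fin 2 → ℝ => s 1) (ContinuousLinearMap.proj (R := ℝ) (φ := fun _ : Fin 2 => ℝ) 1) s :=
    hasFDerivAt_apply 1 s
  intro i
  fin_cases i
  · have h2 := (h0.add h1).neg
    refine HasFDerivAt.congr_fderiv h2 ?_
    ext v
    simp [jm_apply]
  · have h2 := (h0.mul h1).const_add 2
    refine HasFDerivAt.congr_fderiv h2 ?_
    ext v
    simp [jm_apply]
    ring

private lemma ee_cont : Continuous (ee : (Fin 2 → ℝ) → Fin 2 → ℝ) :=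
  continuous_iff_continuousAt.2 fun s => (ee_fderiv s).continuousAt

private lemma jac (s : Fin 2 → ℝ) (h0 : |s 0| < 2) (h1 : |s 1| < 2) (h : s 0 ≠ s 1) :
    |(jm s).det| * dens (ee s) = 2 * (wt (s 0) * wt (s 1)) := by
  rw [jm_det]
  obtain ⟨e0, e1⟩ := ee_two s
  unfold dens wt
  rw [e0, e1]
  have hpi := Real.pi_pos
  have p0 : 0 < 4 - s 0 ^ 2 := by
    have := abs_lt.1 h0
    nlinarith [this.1, this.2]
  have p1 : 0 < 4 - s 1 ^ 2 := by
    have := abs_lt.1 h1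
    nlinarith [this.1, this.2]
  have e : (2 + s 0 * s 1 + 2 - 2 * -(s 0 + s 1)) * (2 + s 0 * s 1 + 2 + 2 * -(s 0 + s 1)) *
      ((-(s 0 + s 1)) ^ 2 - 4 * (2 + s 0 * s 1) + 8) = (4 - s 0 ^ 2) * ((4 - s 1 ^ 2) * (s 1 - s 0) ^ 2) := by
    ring
  rw [e, Real.sqrt_mul p0.le, Real.sqrt_mul p1.le, Real.sqrt_sq_eq_abs]
  have q0 := Real.sqrt_pos.2 p0
  have q1 := Real.sqrt_pos.2 p1
  have q2 : 0 < |s 1 - s 0| := abs_pos.2 (sub_ne_zero.2 h.symm)
  field_simp

private lemma half2 (U V : Set (Fin 2 → ℝ)) (hV : MeasurableSet V)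
    (hne : ∀ s ∈ V, |s 0| < 2 ∧ |s 1| < 2 ∧ s 0 ≠ s 1) (hinj : Set.InjOn ee V) (him : ee '' V = U) :
    ∫⁻ x in U, ENNReal.ofReal (dens x) =
      2 * ∫⁻ s in V, ENNReal.ofReal (wt (s 0)) * ENNReal.ofReal (wt (s 1)) := by
  rw [← him, lintegral_image_eq_lintegral_abs_det_fderiv_mul volume hV
    (fun s _ => (ee_fderiv s).hasFDerivWithinAt) hinj,
    ← lintegral_const_mul' _ _ (by norm_num)]
  apply setLIntegral_congr_fun hV
  intro s hs
  obtain ⟨h0, h1, h⟩ := hne s hs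
  simp only
  rw [← ENNReal.ofReal_mul (abs_nonneg _), jac s h0 h1 h, ENNReal.ofReal_mul (by norm_num),
    ENNReal.ofReal_mul (wt_nonneg _)]
  norm_num

private lemma sum_prod_eq {a b c d : ℝ} (h1 : a + b = c + d) (h2 : a * b = c * d) :
    (a = c ∧ b = d) ∨ (a = d ∧ b = c) := by
  have h3 : (a - c) * (a - d) = 0 := by
    have hb : b = c + d - a := by linarith
    rw [hb] at h2
    linarith
  rcases mul_eq_zero.1 h3 with h | h
  · left
    constructor <;> linarith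
  · right
    constructor <;> linarith

theorem haar_ge (U : Set (Fin 2 → ℝ)) (hU : IsOpen U) (hOm : U ⊆ Om 2) :
    ∫⁻ x in U, ENNReal.ofReal (dens x) ≤ Helper3.haarT (Fin 2) (Phi 2 ⁻¹' U) := by
  classical
  -- the two triangles
  have c0 : Continuous fun s : Fin 2 → ℝ => s 0 := continuous_apply 0
  have c1 : Continuous fun s : Fin 2 → ℝ => s 1 := continuous_apply 1
  set V1 : Set (Fin 2 → ℝ) := {s | |s 0| < 2 ∧ |s 1| < 2 ∧ s 0 < s 1 ∧ ee s ∈ U} with hV1
  set V2 : Set (Fin 2 → ℝ) := {s | |s 0| < 2 ∧ |s 1| < 2 ∧ s 1 < s 0 ∧ ee s ∈ U} with hV2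
  have m1 : MeasurableSet V1 := by
    apply IsOpen.measurableSet
    exact (isOpen_lt c0.abs continuous_const).inter ((isOpen_lt c1.abs continuous_const).inter
      ((isOpen_lt c0 c1).inter (hU.preimage ee_cont)))
  have m2 : MeasurableSet V2 := by
    apply IsOpen.measurableSet
    exact (isOpen_lt c0.abs continuous_const).inter ((isOpen_lt c1.abs continuous_const).inter
      ((isOpen_lt c1 c0).inter (hU.preimage ee_cont)))
  have eqs : ∀ s t : Fin 2 → ℝ, ee s = ee t → (s 0 = t 0 ∧ s 1 = t 1) ∨ (s 0 = t 1 ∧ s 1 = t 0) := by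
    intro s t h
    have a0 := congrFun h 0
    have a1 := congrFun h 1
    rw [(ee_two s).1, (ee_two t).1] at a0
    rw [(ee_two s).2, (ee_two t).2] at a1
    exact sum_prod_eq (by linarith) (by linarith)
  have i1 : Set.InjOn ee V1 := by
    intro s hs t ht h
    rcases eqs s t h with ⟨a, b⟩ | ⟨a, b⟩
    · ext i
      fin_cases i
      · exact a
      · exact b
    · exfalso
      linarith [hs.2.2.1, ht.2.2.1]
  have i2 : Set.InjOn ee V2 := by
    intro s hs t ht h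
    rcases eqs s t h with ⟨a, b⟩ | ⟨a, b⟩
    · ext i
      fin_cases i
      · exact a
      · exact b
    · exfalso
      linarith [hs.2.2.1, ht.2.2.1]
  have swap : ∀ t : Fin 2 → ℝ, ee ![t 1, t 0] = ee t := by
    intro t
    rw [ee_eq, ee_eq]
    simp only [Matrix.cons_val_zero, Matrix.cons_val_one]
    rw [add_comm (t 1), mul_comm (t 1)]
  have im1 : ee '' V1 = U := by
    apply Set.Subset.antisymm
    · rintro x ⟨s, hs, rfl⟩
      exact hs.2.2.2
    · intro x hx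
      obtain ⟨t, ht, hb, rfl⟩ := hOm hx
      rcases lt_or_gt_of_ne (fun h => by simpa using ht h : t 0 ≠ t 1) with h | h
      · exact ⟨t, ⟨hb 0, hb 1, h, hx⟩, rfl⟩
      · exact ⟨![t 1, t 0], ⟨hb 1, hb 0, h, (swap t).symm ▸ hx⟩, swap t⟩
  have im2 : ee '' V2 = U := by
    apply Set.Subset.antisymm
    · rintro x ⟨s, hs, rfl⟩
      exact hs.2.2.2
    · intro x hx
      obtain ⟨t, ht, hb, rfl⟩ := hOm hx
      rcases lt_or_gt_of_ne (fun h => by simpa using ht h : t 0 ≠ t 1) with h | h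
      · exact ⟨![t 1, t 0], ⟨hb 1, hb 0, h, (swap t).symm ▸ hx⟩, swap t⟩
      · exact ⟨t, ⟨hb 0, hb 1, h, hx⟩, rfl⟩
  have d1 := half2 U V1 m1 (fun s hs => ⟨hs.1, hs.2.1, hs.2.2.1.ne⟩) i1 im1
  have d2 := half2 U V2 m2 (fun s hs => ⟨hs.1, hs.2.1, hs.2.2.1.ne'⟩) i2 im2
  set Q : (Fin 2 → ℝ) → ENNReal := fun s => ENNReal.ofReal (wt (s 0)) * ENNReal.ofReal (wt (s 1)) with hQ
  have d3 : ∫⁻ s in V1, Q s = ∫⁻ s in V2, Q s :=
    (ENNReal.mul_right_inj (by norm_num) (by norm_num)).1 (d1.symm.trans d2)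
  have d4 : ∫⁻ x in U, ENNReal.ofReal (dens x) = ∫⁻ s in V1 ∪ V2, Q s := by
    rw [lintegral_union m2, d1, two_mul]
    · rw [← d3]
    · rw [Set.disjoint_left]
      intro s hs hs'
      linarith [hs.2.2.1, hs'.2.2.1]
  -- the indicator
  set G : ℝ → ℝ → ENNReal := fun x y => if ![-(x + y), 2 + x * y] ∈ U then 1 else 0 with hG
  have mG : Measurable (Function.uncurry G) := by
    have hc : Continuous fun p : ℝ × ℝ => (![-(p.1 + p.2), 2 + p.1 * p.2] : Fin 2 → ℝ) := by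
      apply continuous_pi
      intro i
      fin_cases i
      · change Continuous fun p : ℝ × ℝ => -(p.1 + p.2)
        fun_prop
      · change Continuous fun p : ℝ × ℝ => 2 + p.1 * p.2
        fun_prop
    exact Measurable.ite (hU.preimage hc).measurableSet measurable_const measurable_const
  set k : ℝ × ℝ → ENNReal := fun p => (Set.Ioo (-2 : ℝ) 2).indicator
    (fun x => (Set.Ioo (-2 : ℝ) 2).indicator
      (fun y => ENNReal.ofReal (wt x) * (ENNReal.ofReal (wt y) * G x y)) p.2) p.1 with hk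
  have k1 : ∫⁻ s in V1 ∪ V2, Q s ≤ ∫⁻ s : Fin 2 → ℝ, k (s 0, s 1) := by
    refine le_trans (setLIntegral_mono' (m1.union m2) ?_) (setLIntegral_le_lintegral (V1 ∪ V2) _)
    intro s hs
    have hs' : |s 0| < 2 ∧ |s 1| < 2 ∧ ee s ∈ U := by
      rcases hs with hs | hs
      · exact ⟨hs.1, hs.2.1, hs.2.2.2⟩
      · exact ⟨hs.1, hs.2.1, hs.2.2.2⟩
    have a0 : s 0 ∈ Set.Ioo (-2 : ℝ) 2 := abs_lt.1 hs'.1
    have a1 : s 1 ∈ Set.Ioo (-2 : ℝ) 2 := abs_lt.1 hs'.2.1
    have a2 : G (s 0) (s 1) = 1 := by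
      simp only [hG]
      rw [if_pos]
      rw [← ee_eq]
      exact hs'.2.2
    simp only [hk, hQ]
    rw [Set.indicator_of_mem a0, Set.indicator_of_mem a1, a2, mul_one]
  have k2 : ∫⁻ s : Fin 2 → ℝ, k (s 0, s 1) = ∫⁻ p : ℝ × ℝ, k p :=
    (volume_preserving_finTwoArrow ℝ).lintegral_comp_emb
      (MeasurableEquiv.finTwoArrow : (Fin 2 → ℝ) ≃ᵐ ℝ × ℝ).measurableEmbedding k
  have k3 : ∫⁻ p : ℝ × ℝ, k p ≤ ∫⁻ x in Set.Ioo (-2 : ℝ) 2, ∫⁻ y in Set.Ioo (-2 : ℝ) 2,
      ENNReal.ofReal (wt x) * (ENNReal.ofReal (wt y) * G x y) := by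
    rw [Measure.volume_eq_prod]
    refine (lintegral_prod_le k).trans ?_
    rw [← lintegral_indicator measurableSet_Ioo]
    apply lintegral_mono
    intro x
    by_cases hx : x ∈ Set.Ioo (-2 : ℝ) 2
    · simp only [hk]
      rw [Set.indicator_of_mem hx]
      rw [← lintegral_indicator measurableSet_Ioo]
      apply lintegral_mono
      intro y
      simp only [Set.indicator_of_mem hx]
      exact le_rfl
    · simp only [hk]
      simp only [Set.indicator_of_notMem hx]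
      simp
  have k4 : ∫⁻ t, G (cc (t 0)) (cc (t 1)) ∂(Helper3.haarT (Fin 2)) ≤
      Helper3.haarT (Fin 2) (Phi 2 ⁻¹' U) := by
    refine le_trans (le_of_eq ?_) (lintegral_indicator_one_le (Phi 2 ⁻¹' U))
    apply lintegral_congr
    intro t
    have e : Phi 2 t = ![-(cc (t 0) + cc (t 1)), 2 + cc (t 0) * cc (t 1)] := by
      unfold Phi
      rw [ee_eq]
      rfl
    by_cases h : Phi 2 t ∈ U
    · rw [Set.indicator_of_mem (show t ∈ Phi 2 ⁻¹' U from h)]
      simp only [hG]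
      rw [if_pos (e ▸ h)]
      rfl
    · rw [Set.indicator_of_notMem (show t ∉ Phi 2 ⁻¹' U from h)]
      simp only [hG]
      rw [if_neg (e ▸ h)]
  calc ∫⁻ x in U, ENNReal.ofReal (dens x) = ∫⁻ s in V1 ∪ V2, Q s := d4
    _ ≤ ∫⁻ s : Fin 2 → ℝ, k (s 0, s 1) := k1
    _ = ∫⁻ p : ℝ × ℝ, k p := k2
    _ ≤ _ := k3
    _ ≤ _ := two_dim G mG
    _ ≤ _ := k4

end Pool.Agent.Helper48.SPow
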