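import Mathlib
import Pool.Agent.Helper48.SPow.FanH
import Pool.Agent.Helper11.SP.List2

/-!
Soundness of the weights of a list of cells (compare `Helper11/SP/List2.lean`).
-/

open MeasureTheory

namespace Pool.Agent.Helper48.SPow

open Pool.Agent.Helper11.SP

private lemma vert2_iff (p q : ℕ) (l : VL) (h : vert2 p q l = true) :
    ∀ v ∈ l.toL, 1 ≤ v.2.2.1 ∧ v.2.2.2 = 256 * v.1 + 128 * v.2.1 ∧ 8 * v.2.2.1 ≤ 2 * v.1 + v.2.1 ∧
      2 * v.1 ≤ 8 * v.2.2.1 + v.2.1 ∧
      v.2.2.1 * (p * p + 8 * (q * q)) + (p * q * v.1 + q * q * v.2.1) ≤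
        8 * (p * q) * v.2.2.1 + 2 * (q * q) * v.1 := by
  induction l with
  | nil =>
    intro v hv
    simp [VL.toL] at hv
  | cons X Y D c r ih =>
    have e : vert2 p q (VL.cons X Y D c r) =
        Bool.rec (motive := fun _ => Bool) false (vert2 p q r)
          (and (and (Nat.ble 1 D) (Nat.beq c (Nat.add (Nat.mul 256 X) (Nat.mul 128 Y))))
      (and (and (Nat.ble (Nat.mul 8 D) (Nat.add (Nat.mul 2 X) Y)) (Nat.ble (Nat.mul 2 X) (Nat.add (Nat.mul 8 D) Y)))
        (Nat.ble (Nat.add (Nat.mul D (Nat.add (Nat.mul p p) (Nat.mul 8 (Nat.mul q q))))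
            (Nat.add (Nat.mul (Nat.mul p q) X) (Nat.mul (Nat.mul q q) Y)))
          (Nat.add (Nat.mul (Nat.mul 8 (Nat.mul p q)) D) (Nat.mul (Nat.mul 2 (Nat.mul q q)) X))))) := rfl
    rw [e, brec, Bool.and_eq_true, Bool.and_eq_true, Bool.and_eq_true, Bool.and_eq_true,
      Bool.and_eq_true] at h
    obtain ⟨⟨⟨a1, a2⟩, ⟨a3, a4⟩, a5⟩, a6⟩ := h
    intro v hv
    simp only [VL.toL, List.mem_cons] at hv
    rcases hv with rfl | hv
    · exact ⟨Nat.le_of_ble_eq_true a1, Nat.eq_of_beq_eq_true a2, Nat.le_of_ble_eq_true a3,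
        Nat.le_of_ble_eq_true a4, Nat.le_of_ble_eq_true a5⟩
    · exact ih a6 v hv

private lemma geo2_iff (c : C2) (hg : geo2 c = true) :
    1 ≤ c.sD ∧ 1 ≤ c.p ∧ c.p < 4 * c.q ∧ vert2 c.p c.q c.all = true ∧ fan2 c.X c.Y c.D c.vs = true := by
  have e : geo2 c = and (and (Nat.ble 1 c.sD) (and (Nat.ble 1 c.p) (Nat.ble (Nat.succ c.p) (Nat.mul 4 c.q))))
    (and (vert2 c.p c.q c.all) (fan2 c.X c.Y c.D c.vs)) := rfl
  rw [e, Bool.and_eq_true, Bool.and_eq_true, Bool.and_eq_true, Bool.and_eq_true] at hg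
  obtain ⟨⟨a1, a2, a3⟩, a4, a5⟩ := hg
  exact ⟨Nat.le_of_ble_eq_true a1, Nat.le_of_ble_eq_true a2, Nat.le_of_ble_eq_true a3, a4, a5⟩

private lemma all_toL (c : C2) : c.all.toL = (c.X, c.Y, c.D, 256 * c.X + 128 * c.Y) :: c.vs.toL := rfl

theorem cell_good (c : C2) (hg : geo2 c = true) :
    ENNReal.ofReal (kap * (hw c : ℕ) / 2 ^ 36) ≤ mu c.reg := by
  obtain ⟨hsD, hp, hpq, hvert, hfan⟩ := geo2_iff c hg
  have hV := vert2_iff _ _ _ hvert
  have hq : 0 < c.q := by omega
  have hq' : (0 : ℝ) < c.q := by exact_mod_cast hq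
  have hok : ∀ v ∈ c.all.toL, Vok ((c.p : ℝ) / c.q - 2) v.1 v.2.1 v.2.2.1 := by
    intro v hv
    obtain ⟨h1, -, h3, h4, h5⟩ := hV v hv
    refine ⟨h1, h3, h4, ?_⟩
    have hD : (0 : ℝ) < v.2.2.1 := by exact_mod_cast h1
    have h5' : (v.2.2.1 : ℝ) * (c.p * c.p + 8 * (c.q * c.q)) + (c.p * c.q * v.1 + c.q * c.q * v.2.1) ≤
        8 * (c.p * c.q) * v.2.2.1 + 2 * (c.q * c.q) * v.1 := by exact_mod_cast h5
    have e : ((c.p : ℝ) / c.q - 2) ^ 2 + ((c.p : ℝ) / c.q - 2) * pt2 v.1 v.2.1 v.2.2.1 0 + pt2 v.1 v.2.1 v.2.2.1 1 - 2 =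
        (((v.2.2.1 : ℝ) * (c.p * c.p + 8 * (c.q * c.q)) + (c.p * c.q * v.1 + c.q * c.q * v.2.1)) -
          (8 * (c.p * c.q) * v.2.2.1 + 2 * (c.q * c.q) * v.1)) / ((c.q : ℝ) ^ 2 * v.2.2.1) := by
      simp only [pt2, Matrix.cons_val_zero, Matrix.cons_val_one]
      field_simp
      ring
    rw [e]
    exact div_nonpos_of_nonpos_of_nonneg (by linarith) (by positivity)
  exact hfan_good _ _ _ _ (hok (c.X, c.Y, c.D, 256 * c.X + 128 * c.Y) (by rw [all_toL]; exact List.mem_cons_self)) c.vs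
    (fun v hv => hok v (by rw [all_toL]; exact List.mem_cons_of_mem _ hv)) hfan

private lemma chk_cons (prev : List ℕ) (c : C2) (cs : List C2) :
    chk2 prev (c :: cs) = Bool.rec (motive := fun _ => Option (List ℕ)) none
      (Option.rec (motive := fun _ => Option (List ℕ)) none (fun code =>
        Bool.rec (motive := fun _ => Option (List ℕ)) none (chk2 code cs) (ltc prev code)) (code2 c)) (geo2 c) := rfl

private lemma chk_some (prev last : List ℕ) (c : C2) (cs : List C2) (h : chk2 prev (c :: cs) = some last) :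
    geo2 c = true ∧ ∃ code, code2 c = some code ∧ ltc prev code = true ∧ chk2 code cs = some last := by
  rw [chk_cons] at h
  cases hg : geo2 c with
  | false => rw [hg] at h; cases h
  | true =>
    rw [hg] at h
    cases hc : code2 c with
    | none => rw [hc] at h; cases h
    | some code =>
      rw [hc] at h
      cases hl : ltc prev code with
      | false => simp only [hl] at h; cases h
      | true =>
        simp only [hl] at h
        exact ⟨rfl, code, rfl, hl, h⟩

lemma hsum_append (a b : List C2) : hsum (a ++ b) = hsum a + hsum b := by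
  induction a with
  | nil =>
    have h : hsum [] = 0 := rfl
    rw [List.nil_append, h, zero_add]
  | cons c a ih =>
    have e1 : ∀ cs, hsum (c :: cs) = hw c + hsum cs := fun _ => rfl
    rw [List.cons_append, e1, e1, ih, add_assoc]

theorem list_good (prev last : List ℕ) (cs : List C2) (h : chk2 prev cs = some last) :
    ENNReal.ofReal (kap * (hsum cs : ℕ) / 2 ^ 36) ≤ mu (reg2 cs) := by
  have hk := kap_pos
  induction cs generalizing prev with
  | nil =>
    have h0 : hsum [] = 0 := rfl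
    rw [h0]
    simp
  | cons c cs ih =>
    obtain ⟨hg, code, hc, hl, hr⟩ := chk_some prev last c cs h
    have i4 := ih code hr
    obtain ⟨i1, i2, i3, -⟩ := list2_sound code last cs hr
    have v2 := cell_good c hg
    have hs := cell2_sound c hg code hc
    have hreg : reg2 (c :: cs) = c.reg ∪ reg2 cs := by
      ext x
      simp [reg2]
    have hd : Disjoint c.reg (reg2 cs) := by
      rw [Set.disjoint_left]
      intro x hx hx'
      obtain ⟨l, h1, h2⟩ := i3 x hx'
      exact codeL_ltc (by norm_num) x code l (hs x hx).2 h1 h2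
    have e1 : hsum (c :: cs) = hw c + hsum cs := rfl
    rw [hreg, measure_union hd i1.measurableSet, e1]
    refine le_trans (le_of_eq ?_) (add_le_add v2 i4)
    rw [← ENNReal.ofReal_add (by positivity) (by positivity)]
    congr 1
    push_cast
    ring

end Pool.Agent.Helper48.SPow
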