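import Pool.Agent.Helper48.SPow.Ker
import Pool.Agent.Helper11.SP.D2.C01
import Pool.Agent.Helper11.SP.D2.C02
import Pool.Agent.Helper11.SP.D2.C03
import Pool.Agent.Helper11.SP.D2.C04

/-! Kernel evaluation of the Haar weights of the chunks of the degree 6 certificate. -/

set_option maxRecDepth 1000000
set_option maxHeartbeats 0

namespace Pool.Agent.Helper48.SPow

open Pool.Agent.Helper11.SP

theorem h1 : hsum D2.c1 = 7111456793 := by decide +kernel

theorem h2 : hsum D2.c2 = 4610390913 := by decide +kernel

theorem h3 : hsum D2.c3 = 3582905125 := by decide +kernel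

theorem h4 : hsum D2.c4 = 16117084201 := by decide +kernel

end Pool.Agent.Helper48.SPow
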