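import Pool.Agent.Helper48.SPow.Ker
import Pool.Agent.Helper11.SP.D2.C05
import Pool.Agent.Helper11.SP.D2.C06
import Pool.Agent.Helper11.SP.D2.C07
import Pool.Agent.Helper11.SP.D2.C08

/-! Kernel evaluation of the Haar weights of the chunks of the degree 6 certificate. -/

set_option maxRecDepth 1000000
set_option maxHeartbeats 0

namespace Pool.Agent.Helper48.SPow

open Pool.Agent.Helper11.SP

theorem h5 : hsum D2.c5 = 23399250889 := by decide +kernel

theorem h6 : hsum D2.c6 = 20851322612 := by decide +kernel

theorem h7 : hsum D2.c7 = 2507064903 := by decide +kernel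

theorem h8 : hsum D2.c8 = 11401360122 := by decide +kernel

end Pool.Agent.Helper48.SPow
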