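import Pool.Agent.Helper48.SPow.Ker
import Pool.Agent.Helper11.SP.D2.C09
import Pool.Agent.Helper11.SP.D2.C10
import Pool.Agent.Helper11.SP.D2.C11
import Pool.Agent.Helper11.SP.D2.C12

/-! Kernel evaluation of the Haar weights of the chunks of the degree 6 certificate. -/

set_option maxRecDepth 1000000
set_option maxHeartbeats 0

namespace Pool.Agent.Helper48.SPow

open Pool.Agent.Helper11.SP

theorem h9 : hsum D2.c9 = 3837147077 := by decide +kernel

theorem h10 : hsum D2.c10 = 5499599066 := by decide +kernel

theorem h11 : hsum D2.c11 = 3033718774 := by decide +kernel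

theorem h12 : hsum D2.c12 = 4502760403 := by decide +kernel

end Pool.Agent.Helper48.SPow
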