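import Mathlib
import Pool.Agent.Helper48.SPow.DensQ

/-!
Positive proportion in every degree, with a short period.
-/

open MeasureTheory Polynomial

namespace Pool.Agent.Helper48.SPow

open Pool.Agent.Helper11.SP

instance haarT_prob (g : ℕ) : IsProbabilityMeasure (Helper3.haarT (Fin g)) := by
  unfold Helper3.haarT
  infer_instance

lemma code_one {g : ℕ} (hg : 1 ≤ g) : ∃ t : UnitAddTorus (Fin g), Code (Phi g t) (1 : ℤ[X]) := by
  obtain ⟨t, ht⟩ := Helper3.exists_point g hg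
  rw [Rpoly_eq hg] at ht
  refine ⟨t, monic_one, coeff_one_zero, fun i h1 h2 => Or.inl ?_⟩
  rw [natDegree_one, zero_add] at h2
  have hF : Fc (Phi g t) (1 : ℤ[X]) i = 1 / (2 * (g : ℝ)) := by
    unfold Fc
    rw [Polynomial.map_one, mul_one, ht]
    exact Helper3.Q_coeff g _ i h1 h2
  have hg' : (1 : ℝ) ≤ g := by exact_mod_cast hg
  rw [hF]
  constructor
  · positivity
  · rw [div_lt_one (by positivity)]
    linarith

open Classical in
/-- In every degree there is a positive proportion of powers with preperiod one and a period dividing `2 g + 1`. -/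
theorem pos_density {g : ℕ} (hg : 1 ≤ g) : ∃ c : ℝ, 0 < c ∧ ∀ β : ℝ, Helper3.IsSalem β → (minpoly ℤ β).natDegree = 2 * g + 2 →
    ∃ N0 : ℕ, ∀ N, N0 ≤ N → ∀ M : ℕ,
      c * N ≤ (((Finset.Ioc M (M + N)).filter (fun k : ℕ => FinOrbQ (fun n => n = 2 * g) (β ^ k))).card : ℝ) := by
  obtain ⟨t, ht⟩ := code_one hg
  have hU : IsOpen {x : Fin g → ℝ | Code x (1 : ℤ[X])} := code_open hg 1
  have hpos : 0 < Helper3.haarT (Fin g) (Phi g ⁻¹' {x : Fin g → ℝ | Code x (1 : ℤ[X])}) := by
    have : (Helper3.haarT (Fin g)).IsOpenPosMeasure := by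
      unfold Helper3.haarT
      infer_instance
    exact (hU.preimage (Phi_cont g)).measure_pos _ ⟨t, ht⟩
  have hpos' : 0 < (Helper3.haarT (Fin g) (Phi g ⁻¹' {x : Fin g → ℝ | Code x (1 : ℤ[X])})).toReal :=
    ENNReal.toReal_pos hpos.ne' (measure_ne_top _ _)
  obtain ⟨c, hc0, hc⟩ := exists_between hpos'
  refine ⟨c, hc0, fun β hβ hd => ?_⟩
  refine powers_densityQ hg (fun n => n = 2 * g) _ hU (fun x hx => ⟨1, ?_, hx⟩) c hc β hβ hd
  rw [natDegree_one, zero_add]

end Pool.Agent.Helper48.SPow
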