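import Mathlib
import Pool.Agent.Helper48.SPow.ListH
import Pool.Agent.Helper48.SPow.NumA
import Pool.Agent.Helper48.SPow.NumB
import Pool.Agent.Helper48.SPow.NumC
import Pool.Agent.Helper48.SPow.Haar
import Pool.Agent.Helper48.SPow.Density
import Pool.Agent.Helper11.SP.D2.Total

/-!
The Haar measure of the parameters with finite orbit, degree 6.
-/

open MeasureTheory

namespace Pool.Agent.Helper48.SPow

open Pool.Agent.Helper11.SP

lemma hsum_all : hsum D2.all = 106454060878 := by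
  unfold D2.all
  rw [hsum_append, hsum_append, hsum_append, hsum_append, hsum_append, hsum_append, hsum_append, hsum_append,
    hsum_append, hsum_append, hsum_append, h1, h2, h3, h4, h5, h6, h7, h8, h9, h10, h11, h12]

lemma kap_ge : (0.5264 : ℝ) ≤ kap := by
  unfold kap
  have h1 : (20.784 : ℝ) ≤ √432 := by
    rw [Real.le_sqrt (by norm_num) (by norm_num)]
    norm_num
  have h2 : Real.pi < 3.1416 := Real.pi_lt_d4
  have h3 : 0 < Real.pi := Real.pi_pos
  rw [le_div_iff₀ (by positivity)]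
  nlinarith

theorem mu_all : ENNReal.ofReal (0.815 : ℝ) ≤ mu (reg2 D2.all) := by
  refine le_trans (ENNReal.ofReal_le_ofReal ?_) (list_good _ _ _ D2.chk_all)
  rw [hsum_all]
  have := kap_ge
  have h : (0.815 : ℝ) ≤ 0.5264 * (106454060878 : ℕ) / 2 ^ 36 := by norm_num
  refine h.trans ?_
  gcongr

theorem haar_all : (0.814 : ℝ) < ((Helper3.haarT (Fin 2)) (Phi 2 ⁻¹' (reg2 D2.all))).toReal := by
  obtain ⟨h1, h2, -, -⟩ := list2_sound _ _ _ D2.chk_all
  have h3 : ENNReal.ofReal (0.815 : ℝ) ≤ (Helper3.haarT (Fin 2)) (Phi 2 ⁻¹' (reg2 D2.all)) := by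
    refine mu_all.trans ?_
    have := haar_ge (reg2 D2.all) h1 (fun x hx => (h2 hx).1)
    rwa [← withDensity_apply _ h1.measurableSet] at this
  have h4 := (ENNReal.ofReal_le_iff_le_toReal (measure_ne_top _ _)).1 h3
  linarith

open Classical in
theorem six_density (β : ℝ) (hβ : Helper3.IsSalem β) (hd : (minpoly ℤ β).natDegree = 6) :
    ∃ N0 : ℕ, ∀ N, N0 ≤ N → ∀ M : ℕ,
      (0.814 : ℝ) * N ≤ (((Finset.Ioc M (M + N)).filter (fun k : ℕ => FinOrb (β ^ k))).card : ℝ) := by
  obtain ⟨h1, h2, -, -⟩ := list2_sound _ _ _ D2.chk_all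
  exact powers_density (g := 2) (by norm_num) (reg2 D2.all) h1 h2 _ haar_all β hβ hd

end Pool.Agent.Helper48.SPow
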