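import Mathlib
import Pool.Agent.Helper48.SPow.Total
import Pool.Agent.Helper48.SPow.BoundL

/-!
The degree 6 density with a bound for the period.
-/

open MeasureTheory

namespace Pool.Agent.Helper48.SPow

open Pool.Agent.Helper11.SP

open Classical in
theorem six_densityQ (β : ℝ) (hβ : Helper3.IsSalem β) (hd : (minpoly ℤ β).natDegree = 6) :
    ∃ N0 : ℕ, ∀ N, N0 ≤ N → ∀ M : ℕ,
      (0.814 : ℝ) * N ≤ (((Finset.Ioc M (M + N)).filter (fun k : ℕ => FinOrbQ (fun n => n ≤ 976) (β ^ k))).card : ℝ) := by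
  obtain ⟨h1, -, -, -⟩ := list2_sound _ _ _ D2.chk_all
  exact powers_densityQ (g := 2) (by norm_num) _ (reg2 D2.all) h1 bound_all _ haar_all β hβ hd

end Pool.Agent.Helper48.SPow
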